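import Pool.Agent.MP_fe3998_an.PR.Spec

/-!
Passage from finite matrices to the space of the problem.
-/

set_option autoImplicit false

namespace Pool.Agent.MP_fe3998_an.PR

open Finset Polynomial Filter Topology
open scoped ENNReal

namespace LIM

/-- The bound on all finite sections. -/
def IB (γ : ℕ → ℕ → ℂ) (M : ℝ) : Prop := ∀ N, InjB (range N) (range N) γ M

/-- Support in a square. -/
def FS (γ : ℕ → ℕ → ℂ) (N : ℕ) : Prop := ∀ m k, N ≤ m ∨ N ≤ k → γ m k = 0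

lemma le_of_ib {γ : ℕ → ℕ → ℂ} {M : ℝ} (h : IB γ M) : injNorm γ ≤ ENNReal.ofReal M := by
  unfold injNorm
  refine iSup_le fun N => iSup_le fun x => iSup_le fun y => iSup_le fun hx => iSup_le fun hy => ?_
  rw [← ofReal_norm]
  exact ENNReal.ofReal_le_ofReal (h N x y hx hy)

lemma ib_of_le {γ : ℕ → ℕ → ℂ} {M : ℝ} (hM : 0 ≤ M) (h : injNorm γ ≤ ENNReal.ofReal M) :
    IB γ M := by
  intro N x y hx hy
  have h1 : ‖∑ m ∈ range N, ∑ k ∈ range N, γ m k * x m * y k‖ₑ ≤ injNorm γ := by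
    unfold injNorm
    exact le_iSup_of_le N (le_iSup_of_le x (le_iSup_of_le y (le_iSup_of_le hx
      (le_iSup_of_le hy le_rfl))))
  have h2 := h1.trans h
  rw [← ofReal_norm] at h2
  exact (ENNReal.ofReal_le_ofReal_iff hM).1 h2

lemma IB.add {γ δ : ℕ → ℕ → ℂ} {M M' : ℝ} (h : IB γ M) (h' : IB δ M') :
    IB (γ + δ) (M + M') := by
  intro N x y hx hy
  simp only [Pi.add_apply, add_mul, Finset.sum_add_distrib]
  exact (norm_add_le _ _).trans (add_le_add (h N x y hx hy) (h' N x y hx hy))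

lemma IB.sub {γ δ : ℕ → ℕ → ℂ} {M M' : ℝ} (h : IB γ M) (h' : IB δ M') :
    IB (γ - δ) (M + M') := by
  intro N x y hx hy
  simp only [Pi.sub_apply, sub_mul, Finset.sum_sub_distrib]
  exact (norm_sub_le _ _).trans (add_le_add (h N x y hx hy) (h' N x y hx hy))

lemma FS.mono {γ : ℕ → ℕ → ℂ} {N N' : ℕ} (h : FS γ N) (hN : N ≤ N') : FS γ N' :=
  fun m k hmk => h m k (by omega)

lemma FS.conv {γ δ : ℕ → ℕ → ℂ} {N : ℕ} (h : FS γ N) (h' : FS δ N) : FS (conv γ δ) (2 * N) := by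
  intro p q hpq
  unfold PR.conv
  refine Finset.sum_eq_zero fun m hm => Finset.sum_eq_zero fun k hk => ?_
  by_cases h1 : N ≤ m ∨ N ≤ k
  · rw [h m k h1, zero_mul]
  · rw [h' (p - m) (q - k) (by omega), mul_zero]

lemma conv_sub (γ γ' δ δ' : ℕ → ℕ → ℂ) :
    conv γ γ' - conv δ δ' = conv (γ - δ) γ' + conv δ (γ' - δ') := by
  funext p q
  simp only [conv, Pi.sub_apply, Pi.add_apply, ← Finset.sum_sub_distrib, ← Finset.sum_add_distrib]
  refine Finset.sum_congr rfl fun m _ => Finset.sum_congr rfl fun k _ => by ring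

lemma approx {γ : ℕ → ℕ → ℂ} (h : InInj γ) {ε : ℝ} (hε : 0 < ε) :
    ∃ (N : ℕ) (δ : ℕ → ℕ → ℂ), FS δ N ∧ IB (γ - δ) ε := by
  obtain ⟨N, δ, h1, h2⟩ := h (ENNReal.ofReal ε) (ENNReal.ofReal_pos.2 hε)
  exact ⟨N, δ, h1, ib_of_le hε.le h2.le⟩

lemma approx2 {γ γ' : ℕ → ℕ → ℂ} (h : InInj γ) (h' : InInj γ') {ε : ℝ} (hε : 0 < ε) :
    ∃ (N : ℕ) (δ δ' : ℕ → ℕ → ℂ), FS δ N ∧ FS δ' N ∧ IB (γ - δ) ε ∧ IB (γ' - δ') ε := by
  obtain ⟨N, δ, h1, h2⟩ := approx h hε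
  obtain ⟨N', δ', h1', h2'⟩ := approx h' hε
  exact ⟨max N N', δ, δ', h1.mono (le_max_left _ _), h1'.mono (le_max_right _ _), h2, h2'⟩

lemma ib_near {γ δ : ℕ → ℕ → ℂ} {A ε : ℝ} (h : IB γ A) (h' : IB (γ - δ) ε) : IB δ (A + ε) := by
  have := h.sub h'
  rwa [sub_sub_cancel] at this

lemma ib_conv_sub (hC : S_CONV) {γ γ' δ δ' : ℕ → ℕ → ℂ} {A B ε : ℝ} (h : IB γ A) (h' : IB γ' B)
    (e : IB (γ - δ) ε) (e' : IB (γ' - δ') ε) :
    IB (conv γ γ' - conv δ δ') (65536 * ε * B + 65536 * (A + ε) * ε) := by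
  rw [conv_sub]
  exact IB.add (hC _ _ _ _ e h').1 (hC _ _ _ _ (ib_near h e) e').1

lemma inInj_conv (hC : S_CONV) {γ γ' Δ : ℕ → ℕ → ℂ} {A B : ℝ} {N : ℕ} (h : IB γ A)
    (h' : IB γ' B) (i : InInj γ) (i' : InInj γ') (hΔ : FS Δ N) : InInj (Δ + conv γ γ') := by
  intro η hη
  have ht : Tendsto (fun ε : ℝ => ENNReal.ofReal (65536 * ε * B + 65536 * (A + ε) * ε))
      (𝓝[>] 0) (𝓝 0) := by
    have hc : Continuous fun ε : ℝ => ENNReal.ofReal (65536 * ε * B + 65536 * (A + ε) * ε) :=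
      ENNReal.continuous_ofReal.comp (by fun_prop)
    have := hc.tendsto 0
    simp only [mul_zero, zero_mul, add_zero, ENNReal.ofReal_zero] at this
    exact this.mono_left nhdsWithin_le_nhds
  obtain ⟨ε, h1, h2⟩ := ((ht.eventually (gt_mem_nhds hη)).and self_mem_nhdsWithin).exists
  obtain ⟨N', δ, δ', f, f', e, e'⟩ := approx2 i i' h2
  refine ⟨max N (2 * N'), Δ + conv δ δ', fun m k hmk => ?_, ?_⟩
  · simp only [Pi.add_apply]
    rw [hΔ m k (by omega), f.conv f' m k (by omega), add_zero]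
  · rw [add_sub_add_left_eq_sub]
    exact (le_of_ib (ib_conv_sub hC h h' e e')).trans_lt h1

lemma supB_of_disc {P : ℂ[X]} {c : ℝ} (h : ∀ z : ℂ, ‖z‖ < 1 → ‖P.eval z‖ ≤ c) : SupB P c := by
  intro z hz
  have hcl : IsClosed {w : ℂ | ‖P.eval w‖ ≤ c} :=
    isClosed_le P.continuous.norm continuous_const
  have hsub : Metric.ball (0 : ℂ) 1 ⊆ {w : ℂ | ‖P.eval w‖ ≤ c} := fun w hw =>
    h w (mem_ball_zero_iff.1 hw)
  have h1 := hcl.closure_subset_iff.2 hsub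
  rw [closure_ball 0 one_ne_zero] at h1
  exact h1 (mem_closedBall_zero_iff.2 hz.le)

lemma eval_tsum (P : ℂ[X]) (z : ℂ) : P.eval z = ∑' n : ℕ, P.coeff n * z ^ n := by
  rw [eval_eq_sum, Polynomial.sum, tsum_eq_sum (s := P.support)]
  intro n hn
  rw [notMem_support_iff.1 hn, zero_mul]

lemma supB_near (hS : S_SUP) (hE : S_COEF) {φ : PowerSeries ℂ} {γ δ : ℕ → ℕ → ℂ} {A a ε : ℝ}
    {N : ℕ} (ha : 0 ≤ a) (hφ : supNorm φ ≤ ENNReal.ofReal a)
    (hr : ∀ n, PowerSeries.coeff n φ = ∑ j ∈ range (n + 1), γ j (n - j)) (h : IB γ A)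
    (f : FS δ N) (e : IB (γ - δ) ε) : SupB (pol (range N) (range N) id id δ) (a + ε) := by
  refine supB_of_disc fun z hz => ?_
  obtain ⟨s1, -⟩ := hS γ A h z hz
  obtain ⟨s2, b2⟩ := hS (γ - δ) ε e z hz
  have b1 : ‖∑' n : ℕ, (∑ j ∈ range (n + 1), γ j (n - j)) * z ^ n‖ ≤ a := by
    have h1 : ‖∑' n : ℕ, PowerSeries.coeff n φ * z ^ n‖ₑ ≤ supNorm φ := by
      unfold supNorm
      exact le_iSup_of_le z (le_iSup_of_le hz le_rfl)
    have h2 := h1.trans hφ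
    rw [← ofReal_norm] at h2
    simpa only [hr] using (ENNReal.ofReal_le_ofReal_iff ha).1 h2
  have he : (pol (range N) (range N) id id δ).eval z =
      ∑' n : ℕ, (∑ j ∈ range (n + 1), γ j (n - j)) * z ^ n -
        ∑' n : ℕ, (∑ j ∈ range (n + 1), (γ - δ) j (n - j)) * z ^ n := by
    rw [eval_tsum, ← s1.tsum_sub s2]
    refine tsum_congr fun n => ?_
    rw [hE δ N f n]
    simp only [Pi.sub_apply, Finset.sum_sub_distrib]
    ring
  rw [he]
  exact (norm_sub_le _ _).trans (add_le_add b1 b2)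

lemma pick {φ : PowerSeries ℂ} {A : ℝ} (h : xNorm φ < ENNReal.ofReal A) :
    ∃ γ : ℕ → ℕ → ℂ, InInj γ ∧
      (∀ n, PowerSeries.coeff n φ = ∑ j ∈ range (n + 1), γ j (n - j)) ∧ IB γ A := by
  unfold xNorm at h
  simp only [iInf_lt_iff] at h
  obtain ⟨γ, h1, h2, h3⟩ := h
  have hA : 0 < A := ENNReal.ofReal_pos.1 (lt_of_le_of_lt (zero_le) h3)
  exact ⟨γ, h1, h2, ib_of_le hA.le h3.le⟩

end LIM

open LIM in
theorem lim (hF : S_FIN) (hC : S_CONV) (hS : S_SUP) (hE : S_COEF) : S_LIM := by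
  obtain ⟨C, hC0, hF⟩ := hF
  refine ⟨C, hC0, fun R φ ψ A B a b hR ha hb hφ hψ sφ sψ => ?_⟩
  obtain ⟨γ, i, r, h⟩ := pick hφ
  obtain ⟨γ', i', r', h'⟩ := pick hψ
  have key : ∀ ε : ℝ, 0 < ε → xNorm (φ * ψ) ≤ ENNReal.ofReal
      (C * (√R * ((A + ε) * (b + ε) + (a + ε) * (B + ε)) + (A + ε) * (B + ε) / √R) +
        (65536 * ε * B + 65536 * (A + ε) * ε)) := by
    intro ε hε
    obtain ⟨N, δ, δ', f, f', e, e'⟩ := approx2 i i' hε
    obtain ⟨Γ, N', g1, g2, g3⟩ := hF N R δ δ' (A + ε) (B + ε) (a + ε) (b + ε) hR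
      (ib_near h e N) (ib_near h' e' N) (supB_near hS hE ha sφ r h f e)
      (supB_near hS hE hb sψ r' h' f' e')
    have hin : InInj (Γ + (conv γ γ' - conv δ δ')) := by
      have hΔ : FS (Γ - conv δ δ') (max N' (2 * N)) := fun m k hmk => by
        simp only [Pi.sub_apply]
        rw [g1 m k (by omega), f.conv f' m k (by omega), sub_zero]
      have := inInj_conv hC h h' i i' hΔ
      rwa [show Γ - conv δ δ' + conv γ γ' = Γ + (conv γ γ' - conv δ δ') by abel] at this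
    have hrep : ∀ n, PowerSeries.coeff n (φ * ψ) =
        ∑ j ∈ range (n + 1), (Γ + (conv γ γ' - conv δ δ')) j (n - j) := by
      intro n
      simp only [Pi.add_apply, Pi.sub_apply, Finset.sum_add_distrib, Finset.sum_sub_distrib]
      rw [← g2 n, (hC γ γ' A B h h').2 n, (hC δ δ' _ _ (ib_near h e) (ib_near h' e')).2 n,
        PowerSeries.coeff_mul, Polynomial.coeff_mul,
        Finset.Nat.sum_antidiagonal_eq_sum_range_succ_mk,
        Finset.Nat.sum_antidiagonal_eq_sum_range_succ_mk]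
      simp only [r, r', hE δ N f, hE δ' N f', Nat.succ_eq_add_one]
      ring
    refine le_trans ?_ (le_of_ib (IB.add g3 (ib_conv_sub hC h h' e e')))
    unfold xNorm
    exact iInf_le_of_le _ (iInf_le_of_le hin (iInf_le_of_le hrep le_rfl))
  have hc : Continuous fun ε : ℝ => ENNReal.ofReal
      (C * (√R * ((A + ε) * (b + ε) + (a + ε) * (B + ε)) + (A + ε) * (B + ε) / √R) +
        (65536 * ε * B + 65536 * (A + ε) * ε)) :=
    ENNReal.continuous_ofReal.comp (by fun_prop)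
  have ht := (hc.tendsto 0).mono_left (nhdsWithin_le_nhds (s := Set.Ioi 0))
  simp only [mul_zero, zero_mul, add_zero] at ht
  exact ge_of_tendsto ht (eventually_nhdsWithin_of_forall key)

end Pool.Agent.MP_fe3998_an.PR
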