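import Pool.Agent.MP_fe3998_an.PR.Spec

/-!
The convolution of two matrices of bounded injective norm has bounded injective norm, and it
represents the product of the two series.
-/

set_option autoImplicit false

namespace Pool.Agent.MP_fe3998_an.PR

open Finset

namespace CONV

/-- The sequence `x (m + m')` cut at `N`. -/
noncomputable def cut (N : ℕ) (x : ℕ → ℂ) (i : ℕ × ℕ) : ℂ :=
  if i.1 + i.2 < N then x (i.1 + i.2) else 0

theorem cut_le (N : ℕ) {x : ℕ → ℂ} (hx : ∀ i, ‖x i‖ ≤ 1) (i : ℕ × ℕ) : ‖cut N x i‖ ≤ 1 := by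
  unfold cut
  split_ifs
  · exact hx _
  · simp

theorem re (N : ℕ) (F : ℕ → ℕ → ℂ) (x : ℕ → ℂ) :
    ∑ p ∈ range N, (∑ m ∈ range (p + 1), F m (p - m)) * x p =
      ∑ i ∈ range N ×ˢ range N, F i.1 i.2 * cut N x i := by
  have e : ∀ p ∈ range N, (∑ m ∈ range (p + 1), F m (p - m)) * x p =
      ∑ m ∈ range (p + 1), (fun a b => F a b * x (a + b)) m (p - m) := fun p _ => by
    rw [sum_mul]
    refine sum_congr rfl fun m hm => ?_
    have : m + (p - m) = p := by have := mem_range.1 hm; omega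
    simp only [this]
  rw [sum_congr rfl e, sum_range_diag_flip N (fun a b => F a b * x (a + b)), sum_product]
  refine sum_congr rfl fun m _ => ?_
  have : range (N - m) = (range N).filter fun k => m + k < N := by
    ext k
    simp only [mem_range, mem_filter]
    omega
  rw [this, sum_filter]
  refine sum_congr rfl fun k _ => ?_
  unfold cut
  split_ifs <;> simp

theorem wt (N : ℕ) {w w' : ℕ → ℝ} {x : ℕ × ℕ → ℂ} (hw : ∑ m ∈ range N, w m ^ 2 ≤ 1)
    (hw' : ∑ m ∈ range N, w' m ^ 2 ≤ 1) (hx : ∀ i, ‖x i‖ ≤ 1) :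
    √(∑ i ∈ range N ×ˢ range N, ‖(w i.1 : ℂ) * (w' i.2 : ℂ) * x i‖ ^ 2) ≤ 1 := by
  refine Real.sqrt_le_one.2 ?_
  calc ∑ i ∈ range N ×ˢ range N, ‖(w i.1 : ℂ) * (w' i.2 : ℂ) * x i‖ ^ 2
      ≤ ∑ i ∈ range N ×ˢ range N, w i.1 ^ 2 * w' i.2 ^ 2 := by
        refine sum_le_sum fun i _ => ?_
        rw [norm_mul, norm_mul, mul_pow, mul_pow, Complex.norm_real, Complex.norm_real,
          Real.norm_eq_abs, Real.norm_eq_abs, sq_abs, sq_abs]
        exact mul_le_of_le_one_right (by positivity) (pow_le_one₀ (norm_nonneg _) (hx i))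
    _ = (∑ m ∈ range N, w m ^ 2) * ∑ m ∈ range N, w' m ^ 2 := by
        rw [sum_mul_sum, sum_product]
    _ ≤ 1 := mul_le_one₀ hw (sum_nonneg fun _ _ => sq_nonneg _) hw'

theorem form (N : ℕ) (γ γ' : ℕ → ℕ → ℂ) (x y : ℕ → ℂ) :
    ∑ p ∈ range N, ∑ q ∈ range N, conv γ γ' p q * x p * y q =
      ∑ i ∈ range N ×ˢ range N, ∑ k ∈ range N ×ˢ range N,
        γ i.1 k.1 * γ' i.2 k.2 * cut N x i * cut N y k := by
  have e : ∀ p ∈ range N, ∑ q ∈ range N, conv γ γ' p q * x p * y q =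
      (∑ m ∈ range (p + 1), (fun a b => ∑ k ∈ range N ×ˢ range N,
        γ a k.1 * γ' b k.2 * cut N y k) m (p - m)) * x p := fun p _ => by
    have e2 : ∀ m ∈ range (p + 1), (fun a b => ∑ k ∈ range N ×ˢ range N,
        γ a k.1 * γ' b k.2 * cut N y k) m (p - m) =
        ∑ q ∈ range N, (∑ k ∈ range (q + 1), γ m k * γ' (p - m) (q - k)) * y q := fun m _ =>
      (re N (fun a b => γ m a * γ' (p - m) b) y).symm
    rw [sum_congr rfl e2, sum_comm, sum_mul]
    refine sum_congr rfl fun q _ => ?_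
    rw [← sum_mul, conv]
    ring
  rw [sum_congr rfl e, re N (fun a b => ∑ k ∈ range N ×ˢ range N,
    γ a k.1 * γ' b k.2 * cut N y k)]
  refine sum_congr rfl fun i _ => ?_
  rw [sum_mul]
  exact sum_congr rfl fun k _ => by ring

end CONV

open CONV in
theorem cnv (hN : S_NORM) (hT : S_TENS) : S_CONV := by
  intro γ γ' M M' h h'
  refine ⟨fun N x y hx hy => ?_, fun n => ?_⟩
  · obtain ⟨w, u, w1, hu, e⟩ := hN N γ M (h N)
    obtain ⟨w', u', w1', hu', e'⟩ := hN N γ' M' (h' N)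
    have m0 := (h N).nonneg
    have m0' := (h' N).nonneg
    have key := hT _ _ _ _ _ _ _ _ u u' _ _ (by positivity) (by positivity) hu hu'
      (fun i => (w i.1 : ℂ) * (w' i.2 : ℂ) * cut N x i)
      (fun k => (w k.1 : ℂ) * (w' k.2 : ℂ) * cut N y k)
    have e3 : ∑ i ∈ range N ×ˢ range N, ∑ k ∈ range N ×ˢ range N,
        γ i.1 k.1 * γ' i.2 k.2 * cut N x i * cut N y k =
        ∑ i ∈ range N ×ˢ range N, ∑ k ∈ range N ×ˢ range N, u i.1 k.1 * u' i.2 k.2 *
          ((w i.1 : ℂ) * (w' i.2 : ℂ) * cut N x i) * ((w k.1 : ℂ) * (w' k.2 : ℂ) * cut N y k) := by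
      refine sum_congr rfl fun i hi => sum_congr rfl fun k hk => ?_
      simp only [mem_product, mem_range] at hi hk
      rw [e _ hi.1 _ hk.1, e' _ hi.2 _ hk.2]
      ring
    rw [form, e3]
    refine key.trans ?_
    have a1 := wt N w1 w1' (cut_le N hx)
    have a2 := wt N w1 w1' (cut_le N hy)
    calc _ ≤ 256 * M * (256 * M') * 1 * 1 := by gcongr
      _ = 65536 * M * M' := by ring
  · simp only [conv, sum_mul_sum, sum_sigma']
    refine sum_nbij' (fun a => ⟨a.2.1 + a.2.2, a.2.1, a.1 - a.2.1⟩)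
      (fun a => ⟨a.2.1 + a.2.2, a.2.1, a.1 - a.2.1⟩) ?_ ?_ ?_ ?_ ?_
    · rintro ⟨a, b, c⟩ ha
      simp only [mem_sigma, mem_range] at ha ⊢
      omega
    · rintro ⟨a, b, c⟩ ha
      simp only [mem_sigma, mem_range] at ha ⊢
      omega
    · rintro ⟨a, b, c⟩ ha
      simp only [mem_sigma, mem_range] at ha
      have e1 : b + (a - b) = a := by omega
      have e2 : b + c - b = c := by omega
      simp only [e1, e2]
    · rintro ⟨a, b, c⟩ ha
      simp only [mem_sigma, mem_range] at ha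
      have e1 : b + (a - b) = a := by omega
      have e2 : b + c - b = c := by omega
      simp only [e1, e2]
    · rintro ⟨a, b, c⟩ ha
      simp only [mem_sigma, mem_range] at ha
      have e1 : n - (b + c) - (a - b) = n - a - c := by omega
      have e2 : b + c - b = c := by omega
      simp only [e1, e2]

end Pool.Agent.MP_fe3998_an.PR
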