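import Pool.Agent.MP_fe3998_an.PR.Spec

/-! The pairing of the product of two test polynomials with the test functional. -/

set_option autoImplicit false

namespace Pool.Agent.MP_fe3998_an.PR

open Finset Polynomial

namespace PAIR

theorem trap_one {M F n : ℕ} (hM : 1 ≤ M) (h1 : F ≤ n) (h2 : n ≤ F + 4 * M) :
    trap M F n = 1 := by
  unfold trap
  rw [filter_true_of_mem fun t ht => by have := mem_range.1 ht; omega, card_range]
  exact div_self (Nat.cast_ne_zero.2 (by omega))

theorem trap_zero {M F n : ℕ} (h : n + M ≤ F ∨ F + 5 * M ≤ n) : trap M F n = 0 := by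
  unfold trap
  rw [filter_false_of_mem fun t ht => by have := mem_range.1 ht; omega]
  simp

theorem supp {M F n : ℕ} {Q : ℂ[X]} (hQ : Q.natDegree ≤ 4 * M) (h : (X ^ F * Q).coeff n ≠ 0) :
    F ≤ n ∧ n ≤ F + 4 * M := by
  rw [coeff_X_pow_mul'] at h
  split_ifs at h with c
  · have := le_natDegree_of_ne_zero h
    omega
  · exact absurd rfl h

theorem key {M N F F' : ℕ} (hM : 1 ≤ M) (z : ℂ) {Q : ℂ[X]} (hQ : Q.natDegree ≤ 4 * M)
    (h1 : 8 * M ∣ F) (h2 : 8 * M ∣ F') (hN : F + 5 * M ≤ N) :
    ∑ n ∈ range N, z ^ n * trap M F n * (X ^ F' * Q).coeff n =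
      if F' = F then z ^ F * Q.eval z else 0 := by
  split_ifs with c
  · subst c
    have d : (X ^ F' * Q).natDegree < N := by
      refine natDegree_mul_le.trans_lt ?_
      rw [natDegree_X_pow]
      omega
    have e := eval_eq_sum_range' d z
    rw [eval_mul, eval_pow, eval_X] at e
    rw [e]
    refine sum_congr rfl fun n _ => ?_
    by_cases h : (X ^ F' * Q).coeff n = 0
    · simp only [h, mul_zero, zero_mul]
    · rw [trap_one hM (supp hQ h).1 (supp hQ h).2]
      ring
  · refine sum_eq_zero fun n _ => ?_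
    by_cases h : (X ^ F' * Q).coeff n = 0
    · simp only [h, mul_zero]
    · have s := supp hQ h
      rw [trap_zero, mul_zero, zero_mul]
      rcases lt_or_gt_of_ne c with l | l
      · have := Nat.le_of_dvd (Nat.sub_pos_of_lt l) (Nat.dvd_sub h1 h2)
        omega
      · have := Nat.le_of_dvd (Nat.sub_pos_of_lt l) (Nat.dvd_sub h2 h1)
        omega

theorem deg_bump (M c : ℕ) : (bump M c).natDegree ≤ 2 * M := by
  unfold bump
  refine natDegree_pow_le.trans (Nat.mul_le_mul_left _ ?_)
  exact natDegree_sum_le_of_forall_le _ _ fun s hs =>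
    (natDegree_monomial_le _).trans (mem_range.1 hs).le

theorem prim {M : ℕ} (hM : 1 ≤ M) : IsPrimitiveRoot (om M) M :=
  Complex.isPrimitiveRoot_exp M (by omega)

theorem eval_bump {M c d : ℕ} (hM : 1 ≤ M) (hc : c < M) (hd : d < M) :
    (bump M d).eval (om M ^ c) = if d = c then 1 else 0 := by
  have p := prim hM
  have o0 : om M ≠ 0 := p.ne_zero (by omega)
  have M0 : (M : ℂ) ≠ 0 := Nat.cast_ne_zero.2 (by omega)
  have e : ∀ s : ℕ, (M : ℂ)⁻¹ * (om M)⁻¹ ^ (d * s) * (om M ^ c) ^ s =
      (M : ℂ)⁻¹ * ((om M ^ d)⁻¹ * om M ^ c) ^ s := fun s => by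
    rw [mul_pow, pow_mul, inv_pow, mul_assoc]
  unfold bump
  rw [eval_pow, eval_finsetSum]
  simp only [eval_monomial, e]
  rw [← mul_sum]
  split_ifs with h
  · subst h
    simp [inv_mul_cancel₀ (pow_ne_zero d o0), inv_mul_cancel₀ M0]
  · have n1 : (om M ^ d)⁻¹ * om M ^ c ≠ 1 := fun k =>
      h (p.pow_inj hd hc ((inv_mul_eq_one₀ (pow_ne_zero d o0)).1 k))
    have n2 : ((om M ^ d)⁻¹ * om M ^ c) ^ M = 1 := by
      rw [mul_pow, inv_pow, pow_right_comm, pow_right_comm (om M) c, p.pow_eq_one]
      simp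
    rw [geom_sum_eq n1, n2]
    simp

end PAIR

open PAIR

theorem pair : S_PAIR := by
  intro M N f f' hM h1 h2 hN
  have e : tst M f * tst M f' = ∑ a ∈ range M, ∑ b ∈ range M,
      X ^ (f a + f' b) * (bump M a * bump M b) := by
    unfold tst
    rw [sum_mul_sum]
    refine sum_congr rfl fun a _ => sum_congr rfl fun b _ => ?_
    ring
  have k : ∀ c ∈ range M, ∑ n ∈ range N, om M ^ (c * n) * trap M (f c + f' c) n *
      (tst M f * tst M f').coeff n = 1 := by
    intro c hc
    have hc' := mem_range.1 hc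
    have t : ∀ a ∈ range M, ∀ b ∈ range M,
        ∑ n ∈ range N, om M ^ (c * n) * trap M (f c + f' c) n *
          (X ^ (f a + f' b) * (bump M a * bump M b)).coeff n =
        (if a = c then 1 else 0) * if b = c then 1 else 0 := by
      intro a ha b hb
      have d : (bump M a * bump M b).natDegree ≤ 4 * M := by
        have := deg_bump M a
        have := deg_bump M b
        exact natDegree_mul_le.trans (by omega)
      simp only [pow_mul]
      rw [key hM _ d (dvd_add (h1 c) (h2 c)) (dvd_add (h1 a) (h2 b)) (hN c hc'), eval_mul,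
        eval_bump hM hc' (mem_range.1 ha), eval_bump hM hc' (mem_range.1 hb), pow_right_comm,
        ((prim hM).pow_eq_one_iff_dvd _).2
          ((Dvd.intro_left 8 rfl).trans (dvd_add (h1 c) (h2 c))), one_pow, one_mul]
      by_cases ea : a = c
      · by_cases eb : b = c
        · simp [ea, eb]
        · simp [eb]
      · simp [ea]
    rw [e]
    simp only [finsetSum_coeff, mul_sum]
    rw [sum_comm, sum_congr rfl fun a ha => sum_comm.trans (sum_congr rfl (t a ha))]
    simp [hc']
  simp only [sum_mul]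
  rw [sum_comm, sum_congr rfl k]
  simp

end Pool.Agent.MP_fe3998_an.PR
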