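import Pool.Agent.MP_fe3998_an.PR.Spec

/-!
Normalised factorisations of a matrix with a bounded form, and a common symmetric one for two.
-/

set_option autoImplicit false

namespace Pool.Agent.MP_fe3998_an.PR

open Finset Polynomial

namespace NS

/-- The weighted bound for the form of `γ`. -/
def WB (N : ℕ) (γ : ℕ → ℕ → ℂ) (p : ℕ → ℝ) (K : ℝ) : Prop :=
  ∀ x y : ℕ → ℂ, ‖∑ m ∈ range N, ∑ k ∈ range N, γ m k * x m * y k‖ ≤
    K * √(∑ m ∈ range N, p m * ‖x m‖ ^ 2) * √(∑ k ∈ range N, p k * ‖y k‖ ^ 2)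

theorem nonneg_of_inj {N : ℕ} {γ : ℕ → ℕ → ℂ} {M : ℝ} (h : InjB (range N) (range N) γ M) :
    0 ≤ M :=
  (norm_nonneg _).trans (h (fun _ => 0) (fun _ => 0) (fun _ => by simp) (fun _ => by simp))

theorem wt_le (p : ℝ) (hp : 0 ≤ p) (x : ℂ) : p * ‖x / ((√p : ℝ) : ℂ)‖ ^ 2 ≤ ‖x‖ ^ 2 := by
  rcases hp.eq_or_lt with h | h
  · rw [← h]; simp
  · rw [norm_div, div_pow, Complex.norm_real, Real.norm_eq_abs, sq_abs, Real.sq_sqrt hp,
      mul_div_cancel₀ _ h.ne']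

theorem opB {N : ℕ} {γ : ℕ → ℕ → ℂ} {p : ℕ → ℝ} {K : ℝ} (hp : ∀ m, 0 ≤ p m) (hK : 0 ≤ K)
    (h : WB N γ p K) : OpB (range N) (range N)
      (fun m k => γ m k / (((√(p m) : ℝ) : ℂ) * ((√(p k) : ℝ) : ℂ))) K := by
  intro x y
  have h1 := h (fun m => x m / ((√(p m) : ℝ) : ℂ)) (fun k => y k / ((√(p k) : ℝ) : ℂ))
  have e : ∑ m ∈ range N, ∑ k ∈ range N,
      γ m k / (((√(p m) : ℝ) : ℂ) * ((√(p k) : ℝ) : ℂ)) * x m * y k =
      ∑ m ∈ range N, ∑ k ∈ range N,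
        γ m k * (x m / ((√(p m) : ℝ) : ℂ)) * (y k / ((√(p k) : ℝ) : ℂ)) :=
    sum_congr rfl fun m _ => sum_congr rfl fun k _ => by ring
  rw [e]
  refine h1.trans ?_
  have a1 := Real.sqrt_le_sqrt (sum_le_sum (s := range N) fun m _ => wt_le (p m) (hp m) (x m))
  have a2 := Real.sqrt_le_sqrt (sum_le_sum (s := range N) fun m _ => wt_le (p m) (hp m) (y m))
  exact mul_le_mul (mul_le_mul_of_nonneg_left a1 hK) a2 (Real.sqrt_nonneg _)
    (mul_nonneg hK (Real.sqrt_nonneg _))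

theorem entry_le {N : ℕ} {γ : ℕ → ℕ → ℂ} {p : ℕ → ℝ} {K : ℝ} (h : WB N γ p K) {m k : ℕ}
    (hm : m < N) (hk : k < N) : ‖γ m k‖ ≤ K * √(p m) * √(p k) := by
  have h1 := h (fun i => if i = m then 1 else 0) (fun i => if i = k then 1 else 0)
  have hm' := mem_range.2 hm
  have hk' := mem_range.2 hk
  have e1 : ∀ j, j ∈ range N → ∑ i ∈ range N, p i * ‖(if i = j then 1 else 0 : ℂ)‖ ^ 2 = p j := by
    intro j hj
    rw [sum_eq_single j (fun i _ hi => by simp [hi]) (fun hn => absurd hj hn)]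
    simp
  have e2 : ∑ i ∈ range N, ∑ j ∈ range N,
      γ i j * (if i = m then 1 else 0 : ℂ) * (if j = k then 1 else 0 : ℂ) = γ m k := by
    rw [sum_eq_single m (fun i _ hi => by simp [hi]) (fun hn => absurd hm' hn),
      sum_eq_single k (fun i _ hi => by simp [hi]) (fun hn => absurd hk' hn)]
    simp
  rwa [e1 m hm', e1 k hk', e2] at h1

theorem fac {N : ℕ} {γ : ℕ → ℕ → ℂ} {p : ℕ → ℝ} {K : ℝ} (h : WB N γ p K) {m k : ℕ}
    (hm : m < N) (hk : k < N) : γ m k = ((√(p m) : ℝ) : ℂ) *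
      (γ m k / (((√(p m) : ℝ) : ℂ) * ((√(p k) : ℝ) : ℂ))) * ((√(p k) : ℝ) : ℂ) := by
  have h1 := entry_le h hm hk
  by_cases a : √(p m) = 0
  · rw [a] at h1 ⊢
    have : γ m k = 0 := norm_le_zero_iff.1 (by simpa using h1)
    simp [this]
  by_cases b : √(p k) = 0
  · rw [b] at h1 ⊢
    have : γ m k = 0 := norm_le_zero_iff.1 (by simpa using h1)
    simp [this]
  have a' : ((√(p m) : ℝ) : ℂ) ≠ 0 := by exact_mod_cast a
  have b' : ((√(p k) : ℝ) : ℂ) ≠ 0 := by exact_mod_cast b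
  field_simp

theorem sum_sq {N : ℕ} {p : ℕ → ℝ} (hp : ∀ m, 0 ≤ p m) :
    ∑ m ∈ range N, √(p m) ^ 2 = ∑ m ∈ range N, p m :=
  sum_congr rfl fun m _ => Real.sq_sqrt (hp m)

theorem wb_mono {N : ℕ} {γ : ℕ → ℕ → ℂ} {p q : ℕ → ℝ} {K : ℝ} (hK : 0 ≤ K)
    (hq : ∀ m, p m ≤ 2 * q m) (h : WB N γ p K) : WB N γ q (2 * K) := by
  intro x y
  refine (h x y).trans ?_
  have a : ∀ z : ℕ → ℂ, √(∑ m ∈ range N, p m * ‖z m‖ ^ 2) ≤
      √2 * √(∑ m ∈ range N, q m * ‖z m‖ ^ 2) := by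
    intro z
    rw [← Real.sqrt_mul (by norm_num : (0 : ℝ) ≤ 2), mul_sum]
    refine Real.sqrt_le_sqrt (sum_le_sum fun m _ => ?_)
    rw [← mul_assoc]
    exact mul_le_mul_of_nonneg_right (hq m) (sq_nonneg _)
  have b := mul_le_mul (mul_le_mul_of_nonneg_left (a x) hK) (a y) (Real.sqrt_nonneg _)
    (mul_nonneg hK (mul_nonneg (Real.sqrt_nonneg _) (Real.sqrt_nonneg _)))
  refine b.trans (le_of_eq ?_)
  have c : √2 * √2 = (2 : ℝ) := Real.mul_self_sqrt (by norm_num)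
  linear_combination (K * √(∑ m ∈ range N, q m * ‖x m‖ ^ 2) *
    √(∑ m ∈ range N, q m * ‖y m‖ ^ 2)) * c

theorem wb_sym {N : ℕ} {γ : ℕ → ℕ → ℂ} {p : ℕ → ℝ} {K : ℝ} (h : WB N γ p K) :
    WB N (fun m k => (γ m k + γ k m) / 2) p K := by
  intro x y
  have e : ∑ m ∈ range N, ∑ k ∈ range N, (γ m k + γ k m) / 2 * x m * y k =
      ((∑ m ∈ range N, ∑ k ∈ range N, γ m k * x m * y k) +
        ∑ m ∈ range N, ∑ k ∈ range N, γ m k * y m * x k) / 2 := by
    rw [sum_comm (f := fun m k => γ m k * y m * x k), ← sum_add_distrib, sum_div]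
    refine sum_congr rfl fun m _ => ?_
    rw [← sum_add_distrib, sum_div]
    exact sum_congr rfl fun k _ => by ring
  have h1 := h x y
  have h2 := h y x
  rw [e, norm_div]
  have h3 := norm_add_le (∑ m ∈ range N, ∑ k ∈ range N, γ m k * x m * y k)
    (∑ m ∈ range N, ∑ k ∈ range N, γ m k * y m * x k)
  have h4 : ‖(2 : ℂ)‖ = 2 := by simp
  rw [h4, div_le_iff₀ (by norm_num : (0 : ℝ) < 2)]
  linarith [mul_right_comm K √(∑ m ∈ range N, p m * ‖y m‖ ^ 2) √(∑ m ∈ range N, p m * ‖x m‖ ^ 2)]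

theorem pol_sym (N : ℕ) (γ : ℕ → ℕ → ℂ) : pol (range N) (range N) id id γ =
    pol (range N) (range N) id id (fun m k => (γ m k + γ k m) / 2) := by
  unfold pol
  have e : ∀ m k : ℕ, (monomial (id m + id k) ((γ m k + γ k m) / 2) : ℂ[X]) =
      monomial (m + k) (γ m k / 2) + monomial (k + m) (γ k m / 2) := by
    intro m k
    rw [add_comm k m, ← map_add, add_div]
    rfl
  simp only [e, sum_add_distrib]
  rw [sum_comm (f := fun m k => (monomial (k + m) (γ k m / 2) : ℂ[X])), ← sum_add_distrib]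
  refine sum_congr rfl fun m _ => ?_
  rw [← sum_add_distrib]
  refine sum_congr rfl fun k _ => ?_
  rw [← map_add, add_halves]
  rfl

theorem pol_congr {N : ℕ} {g g' : ℕ → ℕ → ℂ} (h : ∀ m < N, ∀ k < N, g m k = g' m k) :
    pol (range N) (range N) id id g = pol (range N) (range N) id id g' :=
  sum_congr rfl fun m hm => sum_congr rfl fun k hk => by
    rw [h m (mem_range.1 hm) k (mem_range.1 hk)]

end NS

theorem norm_fac (hF : S_FAC) : S_NORM := by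
  intro N γ M hM
  obtain ⟨p, hp, hs, h⟩ := hF N γ M hM
  have hM0 := NS.nonneg_of_inj hM
  refine ⟨fun m => √(p m), _, ?_, NS.opB hp (by positivity) h, fun m hm k hk => NS.fac h hm hk⟩
  rw [NS.sum_sq hp]
  exact hs

theorem sym_fac (hF : S_FAC) : S_SYM := by
  intro N γ γ' A B hA hB
  obtain ⟨p, hp, hs, h⟩ := hF N γ A hA
  obtain ⟨p', hp', hs', h'⟩ := hF N γ' B hB
  have hA0 := NS.nonneg_of_inj hA
  have hB0 := NS.nonneg_of_inj hB
  have hq : ∀ m, 0 ≤ (p m + p' m) / 2 := fun m => by linarith [hp m, hp' m]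
  have w1 : NS.WB N γ (fun m => (p m + p' m) / 2) (2 * (256 * A)) :=
    NS.wb_mono (by positivity) (fun m => by linarith [hp' m]) h
  have w2 : NS.WB N γ' (fun m => (p m + p' m) / 2) (2 * (256 * B)) :=
    NS.wb_mono (by positivity) (fun m => by linarith [hp m]) h'
  have eA : 2 * (256 * A) = 512 * A := by ring
  have eB : 2 * (256 * B) = 512 * B := by ring
  rw [eA] at w1
  rw [eB] at w2
  have s1 := NS.wb_sym w1
  have s2 := NS.wb_sym w2
  refine ⟨fun m => √((p m + p' m) / 2), _, _, ?_, NS.opB hq (by positivity) s1,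
    NS.opB hq (by positivity) s2, fun m k => ?_, fun m k => ?_, ?_, ?_⟩
  · rw [NS.sum_sq hq, ← sum_div, sum_add_distrib]
    linarith
  · rw [add_comm (γ m k), mul_comm]
  · rw [add_comm (γ' m k), mul_comm]
  · exact (NS.pol_sym N γ).trans (NS.pol_congr fun m hm k hk => NS.fac s1 hm hk)
  · exact (NS.pol_sym N γ').trans (NS.pol_congr fun m hm k hk => NS.fac s2 hm hk)

end Pool.Agent.MP_fe3998_an.PR
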