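import Pool.Agent.MP_fe3998_an.PR.Spec

/-! Factorisation of a bilinear form on bounded sequences through a weighted square norm. -/

set_option autoImplicit false

namespace Pool.Agent.MP_fe3998_an.PR

open Finset Filter Topology

namespace FAC

theorem nonneg_of_ray {c v : ℝ} (h : ∀ t : ℝ, 0 ≤ t → c ≤ t * v) : 0 ≤ v := by
  by_contra hv
  have hv' : 0 < -v := by linarith [not_le.1 hv]
  have h1 := h ((|c| + 1) / -v) (by positivity)
  have h2 : (|c| + 1) / -v * v = -(|c| + 1) := by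
    have : v ≠ 0 := by
      intro h0
      rw [h0] at hv'
      simp at hv'
    field_simp
  linarith [neg_abs_le c]

theorem le_two {c Q a b : ℝ} (hQ : 0 ≤ Q) (ha : 0 ≤ a) (hb : 0 ≤ b)
    (h : ∀ s : ℝ, 0 < s → c ≤ Q * (s * a ^ 2 + s⁻¹ * b ^ 2)) : c ≤ 2 * Q * a * b := by
  have ht : Tendsto (fun ε : ℝ => 2 * Q * (a + ε) * (b + ε)) (𝓝[>] 0)
      (𝓝 (2 * Q * (a + 0) * (b + 0))) :=
    (Continuous.tendsto (by fun_prop) 0).mono_left nhdsWithin_le_nhds
  rw [add_zero, add_zero] at ht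
  refine ge_of_tendsto ht (eventually_nhdsWithin_of_forall fun ε hε => ?_)
  have hε : 0 < ε := hε
  have h1 : 0 < a + ε := by linarith
  have h2 : 0 < b + ε := by linarith
  refine (h ((b + ε) / (a + ε)) (by positivity)).trans ?_
  have e1 : (b + ε) / (a + ε) * a ^ 2 ≤ (a + ε) * (b + ε) := by
    rw [div_mul_eq_mul_div, div_le_iff₀ h1]
    have : a ^ 2 ≤ (a + ε) ^ 2 := by nlinarith
    nlinarith
  have e2 : ((b + ε) / (a + ε))⁻¹ * b ^ 2 ≤ (a + ε) * (b + ε) := by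
    rw [inv_div, div_mul_eq_mul_div, div_le_iff₀ h2]
    have : b ^ 2 ≤ (b + ε) ^ 2 := by nlinarith
    nlinarith
  nlinarith [mul_le_mul_of_nonneg_left (add_le_add e1 e2) hQ]

/-- The bilinear form. -/
noncomputable def bf (N : ℕ) (γ : ℕ → ℕ → ℂ) (x y : ℕ → ℂ) : ℂ :=
  ∑ m ∈ range N, ∑ k ∈ range N, γ m k * x m * y k

theorem bf_smul (N : ℕ) (γ : ℕ → ℕ → ℂ) (x y : ℕ → ℂ) (a b : ℂ) :
    bf N γ (fun m => a * x m) (fun k => b * y k) = a * b * bf N γ x y := by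
  simp only [bf, mul_sum]
  exact sum_congr rfl fun m _ => sum_congr rfl fun k _ => by ring

/-- The test vector of a pair. -/
noncomputable def tv (N : ℕ) (γ : ℕ → ℕ → ℂ) (Q : ℝ) (z : (ℕ → ℂ) × (ℕ → ℂ)) : Fin N → ℝ :=
  fun m => Q * (‖z.1 m‖ ^ 2 + ‖z.2 m‖ ^ 2) - (bf N γ z.1 z.2).re

theorem disj (hGT : S_GT) {N : ℕ} (hN : 0 < N) {γ : ℕ → ℕ → ℂ} {M : ℝ}
    (h : InjB (range N) (range N) γ M) :
    Disjoint {f : Fin N → ℝ | ∀ m, f m < 0} (convexHull ℝ (Set.range (tv N γ (128 * M)))) := by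
  rw [Set.disjoint_left]
  intro f hf hc
  obtain ⟨ι, _, w, z, hw, -, hz, rfl⟩ := mem_convexHull_iff_exists_fintype.1 hc
  choose z' hz' using hz
  have : Nonempty (Fin N) := ⟨⟨0, hN⟩⟩
  obtain ⟨m0, hm0⟩ := Finite.exists_max
    (fun m : Fin N => ∑ e, w e * (‖(z' e).1 m‖ ^ 2 + ‖(z' e).2 m‖ ^ 2))
  obtain ⟨A, hA⟩ : ∃ A, A = ∑ e, w e * (‖(z' e).1 m0‖ ^ 2 + ‖(z' e).2 m0‖ ^ 2) := ⟨_, rfl⟩
  have hA0 : 0 ≤ A := hA ▸ sum_nonneg fun e _ => mul_nonneg (hw e) (by positivity)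
  have hs : ∀ e (c : ℂ), ‖(√(w e) : ℂ) * c‖ ^ 2 = w e * ‖c‖ ^ 2 := by
    intro e c
    rw [norm_mul, mul_pow, Complex.norm_real, Real.norm_eq_abs, sq_abs, Real.sq_sqrt (hw e)]
  have key := hGT ℕ ℕ ι (range N) (range N) univ γ M √A √A (fun m e => (√(w e) : ℂ) * (z' e).1 m)
    (fun k e => (√(w e) : ℂ) * (z' e).2 k) h (Real.sqrt_nonneg _) (Real.sqrt_nonneg _)
    (fun m hm => by
      rw [Real.sq_sqrt hA0, hA]
      refine le_trans (sum_le_sum fun e _ => ?_) (hm0 ⟨m, mem_range.1 hm⟩)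
      rw [hs]
      exact mul_le_mul_of_nonneg_left (le_add_of_nonneg_right (by positivity)) (hw e))
    (fun m hm => by
      rw [Real.sq_sqrt hA0, hA]
      refine le_trans (sum_le_sum fun e _ => ?_) (hm0 ⟨m, mem_range.1 hm⟩)
      rw [hs]
      exact mul_le_mul_of_nonneg_left (le_add_of_nonneg_left (by positivity)) (hw e))
  have e1 : ∑ m ∈ range N, ∑ k ∈ range N, γ m k *
      ∑ e, (√(w e) : ℂ) * (z' e).1 m * ((√(w e) : ℂ) * (z' e).2 k) =
      ∑ e, (w e : ℂ) * bf N γ (z' e).1 (z' e).2 := by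
    have e2 : ∀ e, (w e : ℂ) = (√(w e) : ℂ) * (√(w e) : ℂ) := fun e => by
      rw [← Complex.ofReal_mul, Real.mul_self_sqrt (hw e)]
    simp only [bf, mul_sum]
    rw [sum_comm (s := univ)]
    refine sum_congr rfl fun m _ => ?_
    rw [sum_comm (s := univ)]
    refine sum_congr rfl fun k _ => sum_congr rfl fun e _ => ?_
    rw [e2 e]
    simp only [← e2 e]
    linear_combination (-(γ m k * (z' e).1 m * (z' e).2 k)) * e2 e
  rw [e1, mul_assoc, Real.mul_self_sqrt hA0] at key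
  have h1 := (Complex.re_le_norm _).trans key
  have h2 := hf m0
  simp only [Finset.sum_apply, Pi.smul_apply, smul_eq_mul, ← hz', tv, mul_sub,
    sum_sub_distrib] at h2
  rw [Complex.re_sum] at h1
  simp only [Complex.re_ofReal_mul] at h1
  have h3 : ∑ e, w e * (128 * M * (‖(z' e).1 m0‖ ^ 2 + ‖(z' e).2 m0‖ ^ 2)) = 128 * M * A := by
    rw [hA, mul_sum]
    exact sum_congr rfl fun e _ => by ring
  linarith

theorem weights (hGT : S_GT) {N : ℕ} (hN : 0 < N) {γ : ℕ → ℕ → ℂ} {M : ℝ}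
    (h : InjB (range N) (range N) γ M) :
    ∃ q : Fin N → ℝ, (∀ m, 0 ≤ q m) ∧ 0 < ∑ m, q m ∧
      ∀ z, 0 ≤ ∑ m, tv N γ (128 * M) z m * q m := by
  have ho : IsOpen {f : Fin N → ℝ | ∀ m, f m < 0} := by
    rw [Set.ofPred_forall]
    exact isOpen_iInter_of_finite fun m => isOpen_lt (continuous_apply m) continuous_const
  have hc : Convex ℝ {f : Fin N → ℝ | ∀ m, f m < 0} := by
    intro f hf g hg a b ha hb hab m
    exact (convex_Iio (0 : ℝ)) (hf m) (hg m) ha hb hab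
  obtain ⟨L, u, h1, h2⟩ := geometric_hahn_banach_open hc ho (convex_convexHull ℝ _) (disj hGT hN h)
  have hL : ∀ f : Fin N → ℝ, L f = ∑ m, f m * L (Pi.single m 1) := by
    intro f
    conv_lhs => rw [← univ_sum_single f, map_sum]
    refine sum_congr rfl fun m _ => ?_
    rw [← smul_eq_mul, ← map_smul, ← Pi.single_smul, smul_eq_mul, mul_one]
  have h3 : ∀ z, u ≤ L (tv N γ (128 * M) z) := fun z => h2 _ (subset_convexHull ℝ _ ⟨z, rfl⟩)
  have h4 : ∀ z (t : ℝ), 0 ≤ t → u ≤ t * L (tv N γ (128 * M) z) := by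
    intro z t ht
    have e : tv N γ (128 * M) (fun m => (√t : ℂ) * z.1 m, fun m => (√t : ℂ) * z.2 m) =
        t • tv N γ (128 * M) z := by
      funext m
      simp only [tv, bf_smul, Pi.smul_apply, smul_eq_mul, norm_mul, mul_pow, Complex.norm_real,
        Real.norm_eq_abs, sq_abs, Real.sq_sqrt ht]
      rw [← Complex.ofReal_mul, Real.mul_self_sqrt ht, Complex.re_ofReal_mul]
      ring
    have := h3 (fun m => (√t : ℂ) * z.1 m, fun m => (√t : ℂ) * z.2 m)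
    rwa [e, map_smul, smul_eq_mul] at this
  have hu : u ≤ 0 := by simpa using h4 (0, 0) 0 le_rfl
  refine ⟨fun m => L (Pi.single m 1), fun m => ?_, ?_, fun z => ?_⟩
  · refine nonneg_of_ray (c := L (-1)) fun t ht => ?_
    have := h1 (-1 - t • (Pi.single m 1 : Fin N → ℝ)) fun j => by
      have : (0 : ℝ) ≤ (Pi.single m 1 : Fin N → ℝ) j := by
        rw [Pi.single_apply]
        split_ifs <;> norm_num
      simp only [Pi.sub_apply, Pi.neg_apply, Pi.one_apply, Pi.smul_apply, smul_eq_mul]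
      nlinarith [mul_nonneg ht this]
    rw [map_sub, map_smul, smul_eq_mul] at this
    linarith
  · have := h1 (-1) fun j => by simp
    rw [hL] at this
    simp only [Pi.neg_apply, Pi.one_apply, neg_mul, one_mul, sum_neg_distrib] at this
    linarith
  · rw [← hL]
    exact nonneg_of_ray (h4 z)

end FAC

theorem fac (hGT : S_GT) : S_FAC := by
  intro N γ M h
  rcases Nat.eq_zero_or_pos N with rfl | hN
  · exact ⟨fun _ => 0, fun _ => le_rfl, by simp, fun x y => by simp⟩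
  obtain ⟨q, q0, q1, q2⟩ := FAC.weights hGT hN h
  obtain ⟨p, hp⟩ : ∃ p : ℕ → ℝ, p = fun m => if hm : m < N then q ⟨m, hm⟩ / ∑ j, q j else 0 :=
    ⟨_, rfl⟩
  have p0 : ∀ m, 0 ≤ p m := fun m => by
    rw [hp]
    dsimp only
    split_ifs
    · exact div_nonneg (q0 _) q1.le
    · exact le_rfl
  have p1 : ∀ m : Fin N, p m = q m / ∑ j, q j := fun m => by simp [hp]
  have p2 : ∀ x y : ℕ → ℂ, (FAC.bf N γ x y).re ≤
      128 * M * (∑ m ∈ range N, p m * ‖x m‖ ^ 2 + ∑ m ∈ range N, p m * ‖y m‖ ^ 2) := by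
    intro x y
    have h1 := q2 (x, y)
    simp only [FAC.tv, sub_mul, sum_sub_distrib, ← mul_sum] at h1
    rw [← sum_add_distrib, sum_range, mul_sum, ← mul_le_mul_iff_left₀ q1, sum_mul]
    refine (sub_nonneg.1 h1).trans (le_of_eq (sum_congr rfl fun m _ => ?_))
    rw [p1]
    field_simp
  refine ⟨p, p0, ?_, fun x y => ?_⟩
  · rw [sum_range]
    simp only [p1]
    rw [← sum_div, div_self q1.ne']
  have hx : 0 ≤ ∑ m ∈ range N, p m * ‖x m‖ ^ 2 :=
    sum_nonneg fun m _ => mul_nonneg (p0 m) (by positivity)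
  have hy : 0 ≤ ∑ m ∈ range N, p m * ‖y m‖ ^ 2 :=
    sum_nonneg fun m _ => mul_nonneg (p0 m) (by positivity)
  rw [show 256 * M = 2 * (128 * M) by ring]
  refine FAC.le_two (by linarith [h.nonneg]) (Real.sqrt_nonneg _) (Real.sqrt_nonneg _)
    fun s hs => ?_
  obtain ⟨c, c1, c2⟩ := Complex.exists_norm_eq_mul_self (FAC.bf N γ x y)
  have h1 := p2 (fun m => (c * (√s : ℂ)) * x m) (fun k => ((√s : ℂ))⁻¹ * y k)
  have s0 : (√s : ℂ) ≠ 0 := Complex.ofReal_ne_zero.2 (Real.sqrt_pos.2 hs).ne'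
  rw [FAC.bf_smul, mul_inv_cancel_right₀ s0, ← c2, Complex.ofReal_re] at h1
  simp only [norm_mul, c1, one_mul, mul_pow, norm_inv, inv_pow, Complex.norm_real,
    Real.norm_eq_abs, sq_abs, Real.sq_sqrt hs.le] at h1
  rw [Real.sq_sqrt hx, Real.sq_sqrt hy, mul_sum, mul_sum]
  refine h1.trans (le_of_eq ?_)
  congr 2 <;> exact sum_congr rfl fun m _ => by ring

end Pool.Agent.MP_fe3998_an.PR
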