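import Pool.Agent.MP_fe3998_an.PR.Spec

/-! The easy half of the theorem of Nehari for polynomials. -/

set_option autoImplicit false

namespace Pool.Agent.MP_fe3998_an.PR

open Finset ComplexConjugate

namespace LB

/-- `ω 0, …, ω (M - 1)` are unimodular and their powers are orthogonal -/
structure Orth (M : ℕ) (ω : ℕ → ℂ) : Prop where
  norm : ∀ θ, ‖ω θ‖ = 1
  orth : ∀ a < M, ∀ b < M,
    ∑ θ ∈ range M, ω θ ^ a * conj (ω θ ^ b) = if a = b then (M : ℂ) else 0

theorem exists_orth {M : ℕ} (hM : 0 < M) : ∃ ω, Orth M ω := by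
  obtain ⟨ζ, hζ⟩ : ∃ ζ : ℂ, IsPrimitiveRoot ζ M := ⟨_, Complex.isPrimitiveRoot_exp M hM.ne'⟩
  have h1 : ‖ζ‖ = 1 := hζ.norm'_eq_one hM.ne'
  have h0 : ζ ≠ 0 := by
    rintro rfl
    simp at h1
  have hc : conj ζ = ζ⁻¹ := (Complex.inv_eq_conj h1).symm
  refine ⟨fun θ => ζ ^ θ, fun θ => by simp [h1], fun a ha b hb => ?_⟩
  have e : ∀ θ : ℕ, (ζ ^ θ) ^ a * conj ((ζ ^ θ) ^ b) = (ζ ^ a * (ζ ^ b)⁻¹) ^ θ := by
    intro θ
    simp only [map_pow, hc, mul_pow, inv_pow, ← pow_mul, mul_comm]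
  simp only [e]
  split_ifs with h
  · subst h
    simp [mul_inv_cancel₀ (pow_ne_zero a h0)]
  · have hne : ζ ^ a * (ζ ^ b)⁻¹ ≠ 1 := by
      intro h'
      rw [mul_inv_eq_one₀ (pow_ne_zero b h0)] at h'
      exact h (hζ.pow_inj ha hb h')
    have hp : (ζ ^ a * (ζ ^ b)⁻¹) ^ M = 1 := by
      rw [mul_pow, inv_pow, ← pow_mul, ← pow_mul, mul_comm a, mul_comm b, pow_mul, pow_mul,
        hζ.pow_eq_one]
      simp
    rw [geom_sum_eq hne, hp]
    simp

variable {M : ℕ} {ω : ℕ → ℂ}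

theorem Orth.coef (h : Orth M ω) (f : ℕ → ℂ) {K n : ℕ} (hK : K ≤ M) (hn : n < K) :
    ∑ θ ∈ range M, (∑ k ∈ range K, f k * ω θ ^ k) * conj (ω θ ^ n) = M * f n := by
  simp only [sum_mul, mul_assoc]
  rw [sum_comm]
  simp only [← mul_sum]
  rw [sum_eq_single n]
  · rw [h.orth n (by omega) n (by omega), if_pos rfl, mul_comm]
  · intro k hk hkn
    rw [h.orth k (by have := mem_range.1 hk; omega) n (by omega), if_neg hkn, mul_zero]
  · intro hn'
    exact absurd (mem_range.2 hn) hn'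

theorem Orth.parseval (h : Orth M ω) (f : ℕ → ℂ) {K : ℕ} (hK : K ≤ M) :
    ∑ θ ∈ range M, ‖∑ k ∈ range K, f k * ω θ ^ k‖ ^ 2 = M * ∑ k ∈ range K, ‖f k‖ ^ 2 := by
  apply Complex.ofReal_injective
  push_cast
  simp only [← Complex.mul_conj']
  have e : ∀ θ, (∑ k ∈ range K, f k * ω θ ^ k) * conj (∑ k ∈ range K, f k * ω θ ^ k) =
      ∑ n ∈ range K, (∑ k ∈ range K, f k * ω θ ^ k) * conj (ω θ ^ n) * conj (f n) := by
    intro θ
    rw [map_sum, mul_sum]
    refine sum_congr rfl fun n _ => ?_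
    rw [map_mul]
    ring
  simp only [e]
  rw [sum_comm, mul_sum]
  refine sum_congr rfl fun n hn => ?_
  rw [← sum_mul, h.coef f hK (mem_range.1 hn), mul_assoc]

end LB

theorem lb : S_LB := by
  intro P b hb R S x y
  obtain ⟨M, hM⟩ : ∃ M, M = P.natDegree + R + S + 1 := ⟨_, rfl⟩
  obtain ⟨ω, h⟩ := LB.exists_orth (M := M) (by omega)
  have hM0 : (0 : ℝ) < M := by exact_mod_cast (by omega : 0 < M)
  have e : (M : ℂ) * ∑ j ∈ range R, ∑ l ∈ range S, P.coeff (j + l) * x j * y l =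
      ∑ θ ∈ range M, P.eval (ω θ) * (conj (∑ j ∈ range R, conj (x j) * ω θ ^ j) *
        conj (∑ l ∈ range S, conj (y l) * ω θ ^ l)) := by
    simp only [map_sum, map_mul, Complex.conj_conj, sum_mul_sum]
    simp only [mul_sum]
    rw [sum_comm (s := range M)]
    refine sum_congr rfl fun j hj => ?_
    rw [sum_comm (s := range M)]
    refine sum_congr rfl fun l hl => ?_
    have h1 := mem_range.1 hj
    have h2 := mem_range.1 hl
    rw [← mul_assoc, ← mul_assoc, ← h.coef P.coeff le_rfl (by omega : j + l < M), sum_mul, sum_mul]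
    refine sum_congr rfl fun θ _ => ?_
    rw [Polynomial.eval_eq_sum_range' (by omega : P.natDegree < M), pow_add, map_mul]
    ring
  have px := h.parseval (fun j => conj (x j)) (by omega : R ≤ M)
  have py := h.parseval (fun l => conj (y l)) (by omega : S ≤ M)
  simp only [Complex.norm_conj] at px py
  refine le_of_mul_le_mul_left ?_ hM0
  calc _ = ‖(M : ℂ) * ∑ j ∈ range R, ∑ l ∈ range S, P.coeff (j + l) * x j * y l‖ := by
        rw [norm_mul, Complex.norm_natCast]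
    _ ≤ ∑ θ ∈ range M, b * (‖∑ j ∈ range R, conj (x j) * ω θ ^ j‖ *
        ‖∑ l ∈ range S, conj (y l) * ω θ ^ l‖) := by
        rw [e]
        refine (norm_sum_le _ _).trans (sum_le_sum fun θ _ => ?_)
        rw [norm_mul, norm_mul, Complex.norm_conj, Complex.norm_conj]
        exact mul_le_mul_of_nonneg_right (hb _ (h.norm θ)) (by positivity)
    _ ≤ b * (√(M * ∑ j ∈ range R, ‖x j‖ ^ 2) * √(M * ∑ l ∈ range S, ‖y l‖ ^ 2)) := by
        rw [← mul_sum, ← px, ← py]
        exact mul_le_mul_of_nonneg_left (Real.sum_mul_le_sqrt_mul_sqrt _ _ _) hb.nonneg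
    _ = _ := by
        rw [Real.sqrt_mul hM0.le, Real.sqrt_mul hM0.le, mul_mul_mul_comm,
          Real.mul_self_sqrt hM0.le]
        ring

end Pool.Agent.MP_fe3998_an.PR
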