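import Pool.Agent.MP_fe3998_an.PR.Spec

/-! The norms of the test polynomials. -/

set_option autoImplicit false

namespace Pool.Agent.MP_fe3998_an.PR

open Finset Polynomial

namespace LOWA

theorem orth {M : ℕ} {ζ : ℂ} (h : IsPrimitiveRoot ζ M) (hM : 1 ≤ M) {s t : ℕ} (hs : s < M)
    (ht : t < M) :
    ∑ c ∈ range M, ζ ^ (c * s) * (starRingEnd ℂ) (ζ ^ (c * t)) = if s = t then (M : ℂ) else 0 := by
  have n1 : ‖ζ‖ = 1 := h.norm'_eq_one (by omega)
  have z0 : ζ ≠ 0 := h.ne_zero (by omega)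
  have e : ∀ c, ζ ^ (c * s) * (starRingEnd ℂ) (ζ ^ (c * t)) = (ζ ^ s * (ζ ^ t)⁻¹) ^ c := by
    intro c
    rw [map_pow, ← Complex.inv_eq_conj n1, mul_pow, ← pow_mul, ← inv_pow, ← pow_mul, mul_comm c s,
      mul_comm c t]
  simp only [e]
  split_ifs with st
  · rw [st, mul_inv_cancel₀ (pow_ne_zero _ z0)]; simp
  · have n : ζ ^ s * (ζ ^ t)⁻¹ ≠ 1 := fun k =>
      st (h.pow_inj hs ht ((mul_inv_eq_one₀ (pow_ne_zero _ z0)).1 k))
    have o : (ζ ^ s * (ζ ^ t)⁻¹) ^ M = 1 := by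
      rw [mul_pow, inv_pow, ← pow_mul, ← pow_mul, mul_comm s, mul_comm t, pow_mul, pow_mul,
        h.pow_eq_one]
      simp
    rw [geom_sum_eq n, o, sub_self, zero_div]

theorem pars {M : ℕ} {ζ : ℂ} (h : IsPrimitiveRoot ζ M) (hM : 1 ≤ M) (v : ℕ → ℂ) :
    ∑ c ∈ range M, ‖∑ s ∈ range M, ζ ^ (c * s) * v s‖ ^ 2 = M * ∑ s ∈ range M, ‖v s‖ ^ 2 := by
  have : ((∑ c ∈ range M, ‖∑ s ∈ range M, ζ ^ (c * s) * v s‖ ^ 2 : ℝ) : ℂ) =
      ((M * ∑ s ∈ range M, ‖v s‖ ^ 2 : ℝ) : ℂ) := by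
    push_cast
    simp only [← Complex.mul_conj', map_sum, sum_mul_sum, map_mul]
    rw [sum_comm, mul_sum]
    refine sum_congr rfl fun s hs => ?_
    rw [sum_comm]
    have e : ∀ t ∈ range M, ∑ c ∈ range M,
        ζ ^ (c * s) * v s * ((starRingEnd ℂ) (ζ ^ (c * t)) * (starRingEnd ℂ) (v t)) =
        if s = t then (M : ℂ) * (v s * (starRingEnd ℂ) (v t)) else 0 := by
      intro t ht
      rw [← ite_zero_mul, ← orth h hM (mem_range.1 hs) (mem_range.1 ht), sum_mul]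
      exact sum_congr rfl fun c _ => by ring
    rw [sum_congr rfl e, sum_ite_eq, if_pos hs]
  exact_mod_cast this

theorem pars_le {M : ℕ} {ζ : ℂ} (h : IsPrimitiveRoot ζ M) (hM : 1 ≤ M) (v : ℕ → ℂ)
    (hv : ∀ s, ‖v s‖ ≤ 1) :
    ∑ c ∈ range M, ‖∑ s ∈ range M, ζ ^ (c * s) * v s‖ ^ 2 ≤ (M : ℝ) ^ 2 := by
  rw [pars h hM, sq (M : ℝ)]
  refine mul_le_mul_of_nonneg_left ?_ (Nat.cast_nonneg _)
  have := sum_le_card_nsmul (range M) (fun s => ‖v s‖ ^ 2) 1 fun s _ =>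
    pow_le_one₀ (norm_nonneg _) (hv s)
  simpa using this

theorem tst_eq (M : ℕ) (f : ℕ → ℕ) :
    tst M f = pol (range M ×ˢ range M) (range M) (fun i => f i.1 + i.2) id fun i k =>
      (M : ℂ)⁻¹ * (om M)⁻¹ ^ (i.1 * i.2) * ((M : ℂ)⁻¹ * (om M)⁻¹ ^ (i.1 * k)) := by
  unfold tst pol bump
  rw [sum_product]
  refine sum_congr rfl fun c _ => ?_
  rw [sq, sum_mul_sum, mul_sum]
  refine sum_congr rfl fun s _ => ?_
  rw [mul_sum]
  refine sum_congr rfl fun k _ => ?_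
  rw [X_pow_eq_monomial, monomial_mul_monomial, monomial_mul_monomial, one_mul, add_assoc, id]

end LOWA

open LOWA

theorem lowa (hP : S_PUSH) : S_LOWA := by
  intro M n f hM hn
  have hζ : IsPrimitiveRoot (om M)⁻¹ M := (Complex.isPrimitiveRoot_exp M (by omega)).inv
  have M0 : (0 : ℝ) < M := by exact_mod_cast hM
  refine ⟨?_, fun z hz => ?_⟩
  · rw [tst_eq]
    refine hP _ _ _ _ _ _ _ _ fun x y hx hy => ?_
    have e : ∑ i ∈ range M ×ˢ range M, ∑ k ∈ range M,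
        (M : ℂ)⁻¹ * (om M)⁻¹ ^ (i.1 * i.2) * ((M : ℂ)⁻¹ * (om M)⁻¹ ^ (i.1 * k)) *
          x (f i.1 + i.2) * y (id k) = (M : ℂ)⁻¹ ^ 2 * ∑ c ∈ range M,
        (∑ s ∈ range M, (om M)⁻¹ ^ (c * s) * x (f c + s)) *
          ∑ k ∈ range M, (om M)⁻¹ ^ (c * k) * y k := by
      rw [sum_product, mul_sum]
      refine sum_congr rfl fun c _ => ?_
      rw [sum_mul_sum, mul_sum]
      refine sum_congr rfl fun s _ => ?_
      rw [mul_sum]
      exact sum_congr rfl fun k _ => by simp only [id]; ring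
    have a1 : ∑ c ∈ range M, ‖∑ s ∈ range M, (om M)⁻¹ ^ (c * s) * x (f c + s)‖ ^ 2 ≤
        n * (M : ℝ) ^ 2 := by
      calc _ ≤ ∑ c ∈ range M, ∑ v ∈ (range M).image f,
            ‖∑ s ∈ range M, (om M)⁻¹ ^ (c * s) * x (v + s)‖ ^ 2 :=
            sum_le_sum fun c hc => single_le_sum
              (f := fun v => ‖∑ s ∈ range M, (om M)⁻¹ ^ (c * s) * x (v + s)‖ ^ 2)
              (fun _ _ => by positivity) (mem_image_of_mem f hc)
        _ ≤ ((range M).image f).card • (M : ℝ) ^ 2 := by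
            rw [sum_comm]
            exact sum_le_card_nsmul _ _ _ fun v _ => pars_le hζ hM _ fun s => hx _
        _ ≤ _ := by
            rw [nsmul_eq_mul]
            exact mul_le_mul_of_nonneg_right (by exact_mod_cast hn) (by positivity)
    have a2 := pars_le hζ hM y hy
    have a3 := Real.sqrt_le_sqrt a1
    have a4 := Real.sqrt_le_sqrt a2
    rw [Real.sqrt_mul (Nat.cast_nonneg _), Real.sqrt_sq M0.le] at a3
    rw [Real.sqrt_sq M0.le] at a4
    rw [e, norm_mul, norm_pow, norm_inv, Complex.norm_natCast]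
    calc _ ≤ (M : ℝ)⁻¹ ^ 2 * (√n * M * M) := by
          refine mul_le_mul_of_nonneg_left ((norm_sum_le _ _).trans ?_) (by positivity)
          simp only [norm_mul]
          exact (Real.sum_mul_le_sqrt_mul_sqrt _ _ _).trans
            (mul_le_mul a3 a4 (Real.sqrt_nonneg _) (by positivity))
      _ = √n := by field_simp
  · have e : (tst M f).eval z = ∑ c ∈ range M,
        z ^ f c * ((M : ℂ)⁻¹ * ∑ s ∈ range M, (om M)⁻¹ ^ (c * s) * z ^ s) ^ 2 := by
      unfold tst bump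
      rw [eval_finsetSum]
      refine sum_congr rfl fun c _ => ?_
      rw [eval_mul, eval_pow, eval_X, eval_pow, eval_finsetSum, mul_sum]
      simp only [eval_monomial, mul_assoc]
    have hp : ∀ s : ℕ, ‖z ^ s‖ ≤ 1 := fun s => by
      rw [norm_pow]; exact pow_le_one₀ (norm_nonneg _) hz
    rw [e]
    calc _ ≤ ∑ c ∈ range M,
          (M : ℝ)⁻¹ ^ 2 * ‖∑ s ∈ range M, (om M)⁻¹ ^ (c * s) * z ^ s‖ ^ 2 := by
          refine (norm_sum_le _ _).trans (sum_le_sum fun c _ => ?_)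
          rw [norm_mul, norm_pow (_ * _), norm_mul, norm_inv, Complex.norm_natCast, mul_pow]
          exact mul_le_of_le_one_left (by positivity) (hp _)
      _ ≤ (M : ℝ)⁻¹ ^ 2 * (M : ℝ) ^ 2 := by
          rw [← mul_sum]
          exact mul_le_mul_of_nonneg_left (pars_le hζ hM _ hp) (by positivity)
      _ = 1 := by field_simp

end Pool.Agent.MP_fe3998_an.PR
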