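import Pool.Agent.MP_fe3998_an.PR.Spec

/-! Tensor products of bounded bilinear forms, with and without monotone cut-offs. -/

set_option autoImplicit false

namespace Pool.Agent.MP_fe3998_an.PR

open Finset

namespace OPS

variable {ι κ ι' κ' α : Type}

theorem sqb {s : Finset ι} {t : Finset κ} {u : ι → κ → ℂ} {K : ℝ} (h : OpB s t u K)
    (x : ι → ℂ) :
    ∑ k ∈ t, ‖∑ i ∈ s, u i k * x i‖ ^ 2 ≤ K ^ 2 * ∑ i ∈ s, ‖x i‖ ^ 2 := by
  set S : ℝ := ∑ k ∈ t, ‖∑ i ∈ s, u i k * x i‖ ^ 2 with hS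
  set X : ℝ := ∑ i ∈ s, ‖x i‖ ^ 2 with hX
  have hS0 : 0 ≤ S := sum_nonneg fun _ _ => sq_nonneg _
  have hX0 : 0 ≤ X := sum_nonneg fun _ _ => sq_nonneg _
  have h1 := h x fun k => (starRingEnd ℂ) (∑ i ∈ s, u i k * x i)
  have e1 : ∑ i ∈ s, ∑ k ∈ t, u i k * x i * (starRingEnd ℂ) (∑ i ∈ s, u i k * x i) = (S : ℂ) := by
    rw [sum_comm, hS, Complex.ofReal_sum]
    refine sum_congr rfl fun k _ => ?_
    rw [← sum_mul, Complex.mul_conj, Complex.normSq_eq_norm_sq]
  have e2 : ∑ k ∈ t, ‖(starRingEnd ℂ) (∑ i ∈ s, u i k * x i)‖ ^ 2 = S :=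
    sum_congr rfl fun k _ => by rw [Complex.norm_conj]
  rw [e1, e2, Complex.norm_real, Real.norm_of_nonneg hS0, ← hX] at h1
  have a1 := Real.sq_sqrt hS0
  have a2 := Real.sq_sqrt hX0
  have a3 : K ^ 2 * X = (K * √X) ^ 2 := by rw [mul_pow, a2]
  rw [a3]
  nlinarith [sq_nonneg (K * √X - √S)]

theorem mix {s : Finset ι} {t : Finset κ} {u : ι → κ → ℂ} {K : ℝ} (hK : 0 ≤ K) (h : OpB s t u K)
    (A : Finset α) (T : ι → α → ℂ) (Y : κ → α → ℂ) :
    ‖∑ a ∈ A, ∑ i ∈ s, ∑ k ∈ t, u i k * T i a * Y k a‖ ≤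
      K * √(∑ a ∈ A, ∑ i ∈ s, ‖T i a‖ ^ 2) * √(∑ a ∈ A, ∑ k ∈ t, ‖Y k a‖ ^ 2) := by
  refine (norm_sum_le _ _).trans ((sum_le_sum fun a _ => h (T · a) (Y · a)).trans ?_)
  simp only [mul_assoc]
  rw [← mul_sum]
  exact mul_le_mul_of_nonneg_left (Real.sum_sqrt_mul_sqrt_le A
    (fun a => sum_nonneg fun _ _ => sq_nonneg _) fun a => sum_nonneg fun _ _ => sq_nonneg _) hK

theorem half {s : Finset ι} {t : Finset κ} {s' : Finset ι'} {t' : Finset κ'} {u : ι → κ → ℂ}
    {v : ι' → κ' → ℂ} {K K' : ℝ} (hK : 0 ≤ K) (hK' : 0 ≤ K') (h : OpB s t u K)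
    (h' : OpB s' t' v K') (c : ι → κ' → ℂ) (hc : ∀ i k', ‖c i k'‖ ≤ 1) (x : ι → ι' → ℂ)
    (y : κ → κ' → ℂ) :
    ‖∑ i ∈ s, ∑ i' ∈ s', ∑ k ∈ t, ∑ k' ∈ t', u i k * v i' k' * c i k' * x i i' * y k k'‖ ≤
      K * K' * √(∑ i ∈ s, ∑ i' ∈ s', ‖x i i'‖ ^ 2) * √(∑ k ∈ t, ∑ k' ∈ t', ‖y k k'‖ ^ 2) := by
  have e : ∑ i ∈ s, ∑ i' ∈ s', ∑ k ∈ t, ∑ k' ∈ t', u i k * v i' k' * c i k' * x i i' * y k k' =
      ∑ k' ∈ t', ∑ i ∈ s, ∑ k ∈ t,
        u i k * (c i k' * ∑ i' ∈ s', v i' k' * x i i') * y k k' := by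
    rw [sum_comm (s := t')]
    refine sum_congr rfl fun i _ => ?_
    rw [sum_comm (s := t'), sum_comm (s := s')]
    refine sum_congr rfl fun k _ => ?_
    rw [sum_comm (s := s')]
    refine sum_congr rfl fun k' _ => ?_
    rw [mul_sum, mul_sum, sum_mul]
    exact sum_congr rfl fun i' _ => by ring
  rw [e]
  refine (mix hK h t' _ _).trans ?_
  rw [sum_comm (s := t') (t := t), mul_assoc K K']
  refine mul_le_mul_of_nonneg_right (mul_le_mul_of_nonneg_left ?_ hK) (Real.sqrt_nonneg _)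
  rw [← Real.sqrt_sq hK', ← Real.sqrt_mul (sq_nonneg _), sum_comm, mul_sum]
  refine Real.sqrt_le_sqrt (sum_le_sum fun i _ => le_trans (sum_le_sum fun k' _ => ?_)
    (sqb h' (x i)))
  rw [norm_mul]
  exact pow_le_pow_left₀ (mul_nonneg (norm_nonneg _) (norm_nonneg _))
    (mul_le_of_le_one_left (norm_nonneg _) (hc i k')) 2

end OPS

theorem tens : S_TENS := by
  intro ι κ ι' κ' s t s' t' u v K K' hK hK' h h' x y
  have := OPS.half hK hK' h h' (fun _ _ => 1) (fun _ _ => by simp) (fun i i' => x (i, i'))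
    fun k k' => y (k, k')
  simpa only [sum_product, mul_one] using this

theorem near : S_NEAR := by
  classical
  intro N u u' K K' lab χ χ' x y hK hK' h h' hm hm' hx
  let P : ℕ → ℕ → Prop := fun k k' => ∀ g, χ' g k' → χ g k
  let y1 : ℕ → ℕ → ℂ := fun k k' => if P k k' then y k k' else 0
  let y2 : ℕ → ℕ → ℂ := fun k k' => if P k k' then 0 else y k k'
  have h1 := OPS.half hK hK' h h' (fun m k' => if χ' (lab m) k' then 1 else 0)
    (fun m k' => by split_ifs <;> simp) x y1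
  have h2 := OPS.half hK' hK h' h (fun m' k => if χ (lab m') k then 1 else 0)
    (fun m k' => by split_ifs <;> simp) (fun m' m => x m m') fun k' k => y2 k k'
  have e : ∀ m m' k k', (u m k * if χ (lab m) k then 1 else 0) *
      (u' m' k' * if χ' (lab m') k' then 1 else 0) * x m m' * y k k' =
      u m k * u' m' k' * (if χ' (lab m) k' then 1 else 0) * x m m' * y1 k k' +
        u' m' k' * u m k * (if χ (lab m') k then 1 else 0) * x m m' * y2 k k' := by
    intro m m' k k'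
    by_cases hl : lab m = lab m'
    · rw [← hl]
      by_cases hP : P k k'
      · have e1 : y1 k k' = y k k' := if_pos hP
        have e2 : y2 k k' = 0 := if_pos hP
        rw [e1, e2]
        by_cases c' : χ' (lab m) k'
        · rw [if_pos c', if_pos (hP _ c')]; ring
        · rw [if_neg c']; ring
      · have e1 : y1 k k' = 0 := if_neg hP
        have e2 : y2 k k' = y k k' := if_neg hP
        rw [e1, e2]
        by_cases c : χ (lab m) k
        · have c' : χ' (lab m) k' := by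
            by_contra c'
            refine hP fun g hg => ?_
            rcases le_total g (lab m) with hle | hle
            · exact absurd (hm' k' g _ hle hg) c'
            · exact hm k _ g hle c
          rw [if_pos c', if_pos c]; ring
        · rw [if_neg c]; ring
    · rw [hx m m' hl]; ring
  have b1 : √(∑ k ∈ range N, ∑ k' ∈ range N, ‖y1 k k'‖ ^ 2) ≤
      √(∑ k ∈ range N, ∑ k' ∈ range N, ‖y k k'‖ ^ 2) :=
    Real.sqrt_le_sqrt (sum_le_sum fun k _ => sum_le_sum fun k' _ => by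
      simp only [y1]
      split_ifs
      · exact le_rfl
      · simp)
  have b2 : √(∑ k ∈ range N, ∑ k' ∈ range N, ‖y2 k k'‖ ^ 2) ≤
      √(∑ k ∈ range N, ∑ k' ∈ range N, ‖y k k'‖ ^ 2) :=
    Real.sqrt_le_sqrt (sum_le_sum fun k _ => sum_le_sum fun k' _ => by
      simp only [y2]
      split_ifs
      · simp
      · exact le_rfl)
  have e2 : ∑ m' ∈ range N, ∑ m ∈ range N, ∑ k' ∈ range N, ∑ k ∈ range N,
      u' m' k' * u m k * (if χ (lab m') k then 1 else 0) * x m m' * y2 k k' =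
      ∑ m ∈ range N, ∑ m' ∈ range N, ∑ k ∈ range N, ∑ k' ∈ range N,
      u' m' k' * u m k * (if χ (lab m') k then 1 else 0) * x m m' * y2 k k' := by
    rw [sum_comm]
    exact sum_congr rfl fun m _ => sum_congr rfl fun m' _ => sum_comm
  rw [e2, sum_comm (f := fun m' m => ‖x m m'‖ ^ 2),
    sum_comm (f := fun k' k => ‖y2 k k'‖ ^ 2)] at h2
  have hc : 0 ≤ K * K' * √(∑ m ∈ range N, ∑ m' ∈ range N, ‖x m m'‖ ^ 2) := by positivity
  have c1 := h1.trans (mul_le_mul_of_nonneg_left b1 hc)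
  rw [mul_comm K' K] at h2
  have c2 := h2.trans (mul_le_mul_of_nonneg_left b2 hc)
  simp only [e, sum_add_distrib]
  refine (norm_add_le _ _).trans ((add_le_add c1 c2).trans (le_of_eq ?_))
  ring

end Pool.Agent.MP_fe3998_an.PR
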