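import Pool.Agent.MP_fe3998_an.PR.Spec

/-! Pushing a finite matrix forward along the degrees. -/

set_option autoImplicit false

namespace Pool.Agent.MP_fe3998_an.PR

open Finset Polynomial

namespace PC

/-- The matrix indexed by the degrees. -/
noncomputable def gam {ι κ : Type} (s : Finset ι) (t : Finset κ) (ρ : ι → ℕ) (σ : κ → ℕ)
    (g : ι → κ → ℂ) (p q : ℕ) : ℂ :=
  ∑ i ∈ s, ∑ k ∈ t, if ρ i = p ∧ σ k = q then g i k else 0

theorem coeff_pol {ι κ : Type} (s : Finset ι) (t : Finset κ) (ρ : ι → ℕ) (σ : κ → ℕ)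
    (g : ι → κ → ℂ) (n : ℕ) :
    (pol s t ρ σ g).coeff n = ∑ j ∈ range (n + 1), gam s t ρ σ g j (n - j) := by
  unfold pol gam
  rw [finsetSum_coeff, Finset.sum_comm (s := range (n + 1))]
  refine Finset.sum_congr rfl fun i _ => ?_
  rw [finsetSum_coeff, Finset.sum_comm (s := range (n + 1))]
  refine Finset.sum_congr rfl fun k _ => ?_
  rw [coeff_monomial]
  split_ifs with h
  · rw [Finset.sum_eq_single (ρ i)]
    · rw [if_pos ⟨rfl, by omega⟩]
    · intro j _ hj
      rw [if_neg fun e => hj e.1.symm]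
    · intro hj
      exact absurd (mem_range.2 (by omega)) hj
  · symm
    refine Finset.sum_eq_zero fun j hj => ?_
    have := mem_range.1 hj
    rw [if_neg fun e => h (by omega)]

theorem pair {ι κ : Type} (s : Finset ι) (t : Finset κ) (ρ : ι → ℕ) (σ : κ → ℕ)
    (g : ι → κ → ℂ) (N : ℕ) (x y : ℕ → ℂ) :
    ∑ p ∈ range N, ∑ q ∈ range N, gam s t ρ σ g p q * x p * y q =
      ∑ i ∈ s, ∑ k ∈ t, g i k * (if ρ i < N then x (ρ i) else 0) *
        (if σ k < N then y (σ k) else 0) := by
  unfold gam
  simp only [Finset.sum_mul]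
  have e : ∀ p ∈ range N, ∑ q ∈ range N, ∑ i ∈ s, ∑ k ∈ t,
      (if ρ i = p ∧ σ k = q then g i k else 0) * x p * y q =
      ∑ i ∈ s, ∑ k ∈ t, ∑ q ∈ range N,
        (if ρ i = p ∧ σ k = q then g i k else 0) * x p * y q := by
    intro p _
    rw [Finset.sum_comm]
    exact Finset.sum_congr rfl fun i _ => Finset.sum_comm
  rw [Finset.sum_congr rfl e, Finset.sum_comm]
  refine Finset.sum_congr rfl fun i _ => ?_
  rw [Finset.sum_comm]
  refine Finset.sum_congr rfl fun k _ => ?_
  have e2 : ∀ p q : ℕ, (if ρ i = p ∧ σ k = q then g i k else 0) * x p * y q =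
      g i k * (if ρ i = p then x p else 0) * (if σ k = q then y q else 0) := by
    intro p q
    by_cases h1 : ρ i = p <;> by_cases h2 : σ k = q <;> simp [h1, h2]
  simp only [e2]
  simp only [← Finset.mul_sum, ← Finset.sum_mul, Finset.sum_ite_eq, mem_range]

end PC

theorem push : S_PUSH := by
  intro ι κ s t ρ σ g M h
  refine ⟨PC.gam s t ρ σ g, 1 + s.sup ρ + t.sup σ, fun m k hmk => ?_, PC.coeff_pol s t ρ σ g,
    fun N' x y hx hy => ?_⟩
  · refine Finset.sum_eq_zero fun i hi => Finset.sum_eq_zero fun j hj => if_neg fun e => ?_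
    have h1 : ρ i ≤ s.sup ρ := Finset.le_sup hi
    have h2 : σ j ≤ t.sup σ := Finset.le_sup hj
    omega
  · rw [PC.pair]
    refine h (fun p => if p < N' then x p else 0) (fun q => if q < N' then y q else 0)
      (fun p => ?_) (fun q => ?_)
    · split_ifs
      · exact hx p
      · simp
    · split_ifs
      · exact hy q
      · simp

theorem coef : S_COEF := by
  intro γ N h n
  rw [PC.coeff_pol]
  refine Finset.sum_congr rfl fun j _ => ?_
  generalize n - j = q
  unfold PC.gam
  by_cases hj : j < N ∧ q < N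
  · rw [Finset.sum_eq_single j, Finset.sum_eq_single q]
    · simp
    · intro k _ hk
      exact if_neg fun e => hk e.2
    · intro hq
      exact absurd (mem_range.2 hj.2) hq
    · intro i _ hi
      exact Finset.sum_eq_zero fun k _ => if_neg fun e => hi e.1
    · intro hq
      exact absurd (mem_range.2 hj.1) hq
  · rw [h j q (by omega)]
    refine Finset.sum_eq_zero fun i hi => Finset.sum_eq_zero fun k hk => if_neg fun e => hj ?_
    have h1 := mem_range.1 hi
    have h2 := mem_range.1 hk
    have h3 : i = j := e.1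
    have h4 : k = q := e.2
    omega

end Pool.Agent.MP_fe3998_an.PR
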