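import Pool.Agent.MP_fe3998_an.PR.Spec

/-! The sum of the series is bounded by the injective norm. -/

set_option autoImplicit false

namespace Pool.Agent.MP_fe3998_an.PR

open Finset Filter

namespace SUP

theorem entry {γ : ℕ → ℕ → ℂ} {M : ℝ} (h : ∀ N, InjB (range N) (range N) γ M) (m k : ℕ) :
    ‖γ m k‖ ≤ M := by
  have a : ∀ c i : ℕ, ‖(if i = c then 1 else 0 : ℂ)‖ ≤ 1 := fun c i => by split_ifs <;> simp
  have := h (m + k + 1) _ _ (a m) (a k)
  simpa [show m < m + k + 1 by omega, show k < m + k + 1 by omega, Nat.lt_succ_iff] using this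

end SUP

theorem sup_le : S_SUP := by
  intro γ M h z hz
  have g := summable_geometric_of_lt_one (norm_nonneg z) hz
  have hs : Summable fun p : ℕ × ℕ => γ p.1 p.2 * z ^ p.1 * z ^ p.2 := by
    refine Summable.of_norm_bounded ((g.mul_of_nonneg g (fun _ => by positivity)
      fun _ => by positivity).mul_left M) fun p => ?_
    rw [mul_assoc, norm_mul, norm_mul, norm_pow, norm_pow]
    exact mul_le_mul_of_nonneg_right (SUP.entry h _ _) (by positivity)
  have h1 := (HasAntidiagonal.sigmaAntidiagonalEquivProd.hasSum_iff.2 hs.hasSum).sigma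
    fun n => (antidiagonal n).hasSum fun p : ℕ × ℕ => γ p.1 p.2 * z ^ p.1 * z ^ p.2
  have e : ∀ n, ∑ p ∈ antidiagonal n, γ p.1 p.2 * z ^ p.1 * z ^ p.2 =
      (∑ j ∈ range (n + 1), γ j (n - j)) * z ^ n := fun n => by
    rw [← Nat.sum_antidiagonal_eq_sum_range_succ (fun a b => γ a b), sum_mul]
    exact sum_congr rfl fun p hp => by rw [mul_assoc, ← pow_add, mem_antidiagonal.1 hp]
  simp only [e] at h1
  refine ⟨h1.summable, ?_⟩
  rw [h1.tsum_eq]
  have t : Tendsto (fun N : ℕ => range N ×ˢ range N) atTop atTop :=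
    tendsto_atTop_finset_of_monotone
      (fun a b hab => product_subset_product (range_mono hab) (range_mono hab))
      fun p => ⟨p.1 + p.2 + 1, by simp only [mem_product, mem_range]; omega⟩
  have p : ∀ m : ℕ, ‖z ^ m‖ ≤ 1 := fun m => by
    rw [norm_pow]
    exact pow_le_one₀ (norm_nonneg z) hz.le
  refine le_of_tendsto' (Tendsto.comp hs.hasSum t).norm fun N => ?_
  simpa only [Function.comp, sum_product] using h N _ _ p p

end Pool.Agent.MP_fe3998_an.PR
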