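import Pool.Agent.MP_fe3998_an.PR.Spec

/-! Row CNT: counting the frequencies that meet a window. -/

set_option autoImplicit false

namespace Pool.Agent.MP_fe3998_an.PR

open Finset

namespace CNT

/-- exponent of the high frequency -/
def eH (m c : ℕ) : ℕ := 2 * m * (c / m ^ 2) + m + c / m % m

theorem fH_eq (m c : ℕ) : fH m c = 8 * m ^ 3 * 8 ^ eH m c := rfl

theorem dd (m c : ℕ) : c / m ^ 2 = c / m / m := by
  rw [Nat.div_div_eq_div_mul, sq]

theorem pw (K : ℕ) {a b : ℕ} (h : a < b) : 8 * (K * 8 ^ a) ≤ K * 8 ^ b := by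
  have : 8 ^ (a + 1) ≤ 8 ^ b := Nat.pow_le_pow_right (by norm_num) h
  calc 8 * (K * 8 ^ a) = K * 8 ^ (a + 1) := by ring
    _ ≤ K * 8 ^ b := Nat.mul_le_mul_left _ this

theorem det (K x : ℕ) {a b : ℕ} (h1 : K * 8 ^ a ≤ x) (h2 : x < 8 * (K * 8 ^ a))
    (h3 : K * 8 ^ b ≤ x) (h4 : x < 8 * (K * 8 ^ b)) : a = b := by
  rcases lt_trichotomy a b with h | h | h
  · have := pw K h; omega
  · exact h
  · have := pw K h; omega

theorem LH {m : ℕ} (hm : 1 ≤ m) (c : ℕ) : 8 * fL m c ≤ fH m c := by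
  have : c % m < m := Nat.mod_lt _ hm
  exact pw (8 * m ^ 3) (by omega)

theorem QL (m c : ℕ) : 4 * fQ m c ≤ fL m c := by
  have : 8 ^ (2 * m * (c / m ^ 2)) ≤ 8 ^ (2 * m * (c / m ^ 2) + c % m) :=
    Nat.pow_le_pow_right (by norm_num) (by omega)
  calc 4 * fQ m c = 8 * m ^ 3 * 8 ^ (2 * m * (c / m ^ 2)) := by unfold fQ; ring
    _ ≤ fL m c := Nat.mul_le_mul_left _ this

theorem ML (m c : ℕ) : 8 * m ^ 3 ≤ fL m c :=
  Nat.le_mul_of_pos_right _ (by positivity)

theorem top {m : ℕ} (hm : 1 ≤ m) (c : ℕ) : fH m c + fL m c + 5 * m ^ 3 ≤ 2 * fH m c := by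
  have h1 := LH hm c
  have h2 := ML m c
  omega

theorem eH_inj {m : ℕ} (hm : 1 ≤ m) {c c' : ℕ} (h : eH m c = eH m c') : c / m = c' / m := by
  unfold eH at h
  have h1 : c / m % m < m := Nat.mod_lt _ hm
  have h2 : c' / m % m < m := Nat.mod_lt _ hm
  have hg : c / m ^ 2 = c' / m ^ 2 := by
    rcases lt_trichotomy (c / m ^ 2) (c' / m ^ 2) with k | k | k
    · have := Nat.mul_le_mul_left (2 * m) (Nat.succ_le_of_lt k)
      rw [Nat.mul_succ] at this; omega
    · exact k
    · have := Nat.mul_le_mul_left (2 * m) (Nat.succ_le_of_lt k)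
      rw [Nat.mul_succ] at this; omega
  rw [hg] at h
  have hi : c / m % m = c' / m % m := by omega
  rw [dd, dd] at hg
  rw [← Nat.div_add_mod (c / m) m, ← Nat.div_add_mod (c' / m) m, hg, hi]

theorem ext {k c c' : ℕ} (h1 : c / k = c' / k) (h2 : c % k = c' % k) : c = c' := by
  rw [← Nat.div_add_mod c k, ← Nat.div_add_mod c' k, h1, h2]

theorem HQ {m : ℕ} (hm : 1 ≤ m) {c c' : ℕ} (h : c / m ^ 2 < c' / m ^ 2) :
    2 * fH m c ≤ fQ m c' := by
  have h1 : c / m % m < m := Nat.mod_lt _ hm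
  have h2 := Nat.mul_le_mul_left (2 * m) (Nat.succ_le_of_lt h)
  rw [Nat.mul_succ] at h2
  have h3 : eH m c < 2 * m * (c' / m ^ 2) := by unfold eH; omega
  have := pw (2 * m ^ 3) h3
  calc 2 * fH m c = 8 * (2 * m ^ 3 * 8 ^ eH m c) := by rw [fH_eq]; ring
    _ ≤ fQ m c' := this

theorem one {m : ℕ} (hm : 1 ≤ m) : ((range (m ^ 3)).image (fH m)).card ≤ m ^ 2 := by
  have : (range (m ^ 3)).image (fH m) ⊆
      (range (m ^ 2)).image fun d => 8 * m ^ 3 * 8 ^ (2 * m * (d / m) + m + d % m) := by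
    intro x hx
    obtain ⟨c, hc, rfl⟩ := mem_image.1 hx
    refine mem_image.2 ⟨c / m, mem_range.2 ?_, ?_⟩
    · rw [Nat.div_lt_iff_lt_mul hm, ← pow_succ]; exact mem_range.1 hc
    · unfold fH; rw [dd]
  exact (card_le_card this).trans (card_image_le.trans (card_range _).le)

theorem two {m : ℕ} (hm : 1 ≤ m) : ((range (m ^ 3)).image (fL m)).card ≤ m ^ 2 := by
  have : (range (m ^ 3)).image (fL m) ⊆
      (range m ×ˢ range m).image fun d => 8 * m ^ 3 * 8 ^ (2 * m * d.1 + d.2) := by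
    intro x hx
    obtain ⟨c, hc, rfl⟩ := mem_image.1 hx
    refine mem_image.2 ⟨(c / m ^ 2, c % m), mem_product.2 ⟨mem_range.2 ?_, mem_range.2 ?_⟩, rfl⟩
    · rw [Nat.div_lt_iff_lt_mul (by positivity), ← pow_succ']; exact mem_range.1 hc
    · exact Nat.mod_lt _ hm
  refine (card_le_card this).trans (card_image_le.trans ?_)
  rw [card_product, card_range, sq]

theorem LL2 {m c c' : ℕ} (hg : c / m ^ 2 = c' / m ^ 2) (h : c % m < c' % m) :
    8 * fL m c ≤ fL m c' := by
  unfold fL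
  rw [hg]
  exact pw (8 * m ^ 3) (by omega)

end CNT

open CNT in
theorem cnt : S_CNT := by
  intro m hm
  have hM : 1 ≤ m ^ 3 := Nat.one_le_pow _ _ hm
  refine ⟨one hm, two hm, fun p => ?_, fun p => ?_, fun q => ?_⟩
  · refine card_le_one.2 fun c hc c' hc' => ?_
    obtain ⟨-, a1, a2⟩ := mem_filter.1 hc
    obtain ⟨-, b1, b2⟩ := mem_filter.1 hc'
    have t1 := top hm c
    have t2 := top hm c'
    have q1 := QL m c
    have q2 := QL m c'
    have m1 := ML m c
    have m2 := ML m c'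
    have he : eH m c = eH m c' :=
      det (8 * m ^ 3) p (by rw [← fH_eq]; omega) (by rw [← fH_eq]; omega)
        (by rw [← fH_eq]; omega) (by rw [← fH_eq]; omega)
    have hd := eH_inj hm he
    have hg : c / m ^ 2 = c' / m ^ 2 := by rw [dd, dd, hd]
    have hH : fH m c = fH m c' := by rw [fH_eq, fH_eq, he]
    have hQ : fQ m c = fQ m c' := by unfold fQ; rw [hg]
    refine CNT.ext hd ?_
    rcases lt_trichotomy (c % m) (c' % m) with k | k | k
    · have := CNT.LL2 hg k; omega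
    · exact k
    · have := CNT.LL2 hg.symm k; omega
  · refine (card_le_card_of_injOn (t := range m) (fun c => c % m)
      (fun c _ => mem_coe.2 (mem_range.2 (Nat.mod_lt _ hm))) ?_).trans (card_range _).le
    intro c hc c' hc' h
    obtain ⟨-, a1, a2⟩ := mem_filter.1 (mem_coe.1 hc)
    obtain ⟨-, b1, b2⟩ := mem_filter.1 (mem_coe.1 hc')
    have t1 := top hm c
    have t2 := top hm c'
    have he : eH m c = eH m c' :=
      det (8 * m ^ 3) (2 * p) (by rw [← fH_eq]; omega) (by rw [← fH_eq]; omega)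
        (by rw [← fH_eq]; omega) (by rw [← fH_eq]; omega)
    exact CNT.ext (eH_inj hm he) h
  · refine (card_le_card_of_injOn (t := range (m ^ 2)) (fun c => c % m ^ 2)
      (fun c _ => mem_coe.2 (mem_range.2 (Nat.mod_lt _ (by positivity)))) ?_).trans
      (card_range _).le
    intro c hc c' hc' h
    obtain ⟨-, a1, a2⟩ := mem_filter.1 (mem_coe.1 hc)
    obtain ⟨-, b1, b2⟩ := mem_filter.1 (mem_coe.1 hc')
    have t1 := top hm c
    have t2 := top hm c'
    refine CNT.ext ?_ h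
    rcases lt_trichotomy (c / m ^ 2) (c' / m ^ 2) with k | k | k
    · have := HQ hm k; omega
    · exact k
    · have := HQ hm k; omega

end Pool.Agent.MP_fe3998_an.PR
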