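import Pool.Agent.MP_fe3998_an.PR.Spec

/-! The multiplier of a group as an average of triangular cut-offs. -/

set_option autoImplicit false

namespace Pool.Agent.MP_fe3998_an.PR

open Finset

namespace DEC

open Classical in
/-- The indicator of a proposition. -/
noncomputable def ind (P : Prop) : ℂ := if P then 1 else 0

theorem ind_pos {P : Prop} (h : P) : ind P = 1 := if_pos h

theorem ind_neg {P : Prop} (h : ¬ P) : ind P = 0 := if_neg h

theorem ind_eq (P : Prop) [Decidable P] : ind P = if P then 1 else 0 := by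
  by_cases h : P
  · rw [ind_pos h, if_pos h]
  · rw [ind_neg h, if_neg h]

theorem ind_and (P Q : Prop) : ind (P ∧ Q) = ind P * ind Q := by
  by_cases h : P
  · rw [ind_pos h, one_mul]
    congr 1
    simp [h]
  · rw [ind_neg h, zero_mul, ind_neg fun c => h c.1]

theorem norm_ind (P : Prop) : ‖ind P‖ ≤ 1 := by
  by_cases h : P
  · rw [ind_pos h, norm_one]
  · rw [ind_neg h, norm_zero]
    exact zero_le_one

theorem cnt (R x y z : ℕ) (hz : z ≤ R) :
    ∑ τ ∈ range (R + 1), ind (x < τ) * ind (τ + y ≤ z) = ((z - y - x : ℕ) : ℂ) := by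
  simp only [← ind_and]
  simp only [ind_eq]
  rw [sum_boole, ← Nat.card_Ioc]
  congr 2
  ext τ
  simp only [mem_filter, mem_range, mem_Ioc]
  omega

theorem key (D μ M m k : ℕ) (hD : 0 < D) (hμ : 0 < μ) (e : D * μ = M) :
    (vv D (m + k) : ℂ) =
      (∑ τ ∈ range (9 * M + 1), ind (m * μ < τ) * ind (τ + k * μ ≤ 9 * M) -
        ∑ τ ∈ range (9 * M + 1), ind (m * μ < τ) * ind (τ + k * μ ≤ 8 * M)) / M := by
  rw [cnt _ _ _ _ le_rfl, cnt _ _ _ _ (by omega)]
  have a : 9 * M - k * μ - m * μ = 8 * M - k * μ - m * μ + min D (9 * D - (m + k)) * μ := by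
    rw [← Nat.mul_min_mul_right, Nat.sub_mul, add_mul, mul_assoc, e]
    omega
  have hD' : (D : ℂ) ≠ 0 := by exact_mod_cast hD.ne'
  have hμ' : (μ : ℂ) ≠ 0 := by exact_mod_cast hμ.ne'
  rw [a, ← e, vv]
  generalize min D (9 * D - (m + k)) = q
  push_cast
  field_simp
  ring

theorem LL_mono {a : ℕ → ℕ} (ha : Monotone a) : Monotone (LL a) := by
  refine monotone_nat_of_le_succ fun g => ?_
  cases g with
  | zero => exact Nat.zero_le _
  | succ g =>
    exact Nat.mul_le_mul_left _ (Nat.pow_le_pow_right (by norm_num) (ha (Nat.le_succ g)))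

theorem sub {ι κ : Type} {s s' : Finset ι} {t : Finset κ} {u : ι → κ → ℂ} {K : ℝ}
    (h : OpB s t u K) (hs : s' ⊆ s) : OpB s' t u K := by
  classical
  intro x y
  have := h (fun i => if i ∈ s' then x i else 0) y
  rw [← sum_subset hs (fun i _ hi => by simp [hi]), ← sum_subset hs (fun i _ hi => by simp [hi]),
    sum_congr rfl (g := fun i => ∑ k ∈ t, u i k * x i * y k) (fun i hi => by simp only [if_pos hi]),
    sum_congr rfl (g := fun i => ‖x i‖ ^ 2) (fun i hi => by simp only [if_pos hi])] at this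
  exact this

end DEC

open DEC

theorem dec : S_DEC := by
  intro a T ha
  have hM : 0 < 4 ^ T := by positivity
  have hM' : (1 : ℝ) ≤ (4 ^ T : ℕ) := by exact_mod_cast hM
  refine ⟨ℕ × Bool × Bool × Bool, range (9 * 4 ^ T + 1) ×ˢ univ,
    fun e => cond e.2.2.1 (-1) 1 * cond e.2.2.2 (-1) 1 / (4 ^ T : ℕ),
    fun e g m => ind (m * 4 ^ (T - a (cond e.2.2.1 (g - 1) g)) < e.1),
    fun e g k => (e.2.1 = true → k < LL a g) ∧ (e.2.2.1 = true → 1 ≤ g) ∧
      e.1 + k * 4 ^ (T - a (cond e.2.2.1 (g - 1) g)) ≤ cond e.2.2.2 8 9 * 4 ^ T,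
    ?_, fun e g m => norm_ind _, ?_, ?_⟩
  · rw [sum_congr rfl (g := fun _ => 1 / ((4 ^ T : ℕ) : ℝ)) (by
      rintro ⟨τ, b1, b2, b3⟩ _
      rw [abs_div, Nat.abs_cast]
      cases b2 <;> cases b3 <;> simp)]
    rw [sum_const, card_product, card_range, card_univ, nsmul_eq_mul, mul_one_div,
      div_le_iff₀ (by linarith)]
    simp only [Fintype.card_prod, Fintype.card_bool]
    generalize 4 ^ T = M at hM'
    push_cast
    linarith
  · rintro ⟨τ, b1, b2, b3⟩ k g g' hg ⟨h1, h2, h3⟩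
    refine ⟨fun c => (h1 c).trans_le (LL_mono ha hg), fun c => (h2 c).trans hg, le_trans ?_ h3⟩
    refine Nat.add_le_add_left (Nat.mul_le_mul_left _ (Nat.pow_le_pow_right (by norm_num)
      (Nat.sub_le_sub_left (ha ?_) _))) _
    cases b2
    · exact hg
    · exact Nat.sub_le_sub_right hg 1
  · intro g m k hg
    have kk : ∀ j, j ≤ g → _ := fun j hj => key (4 ^ a j) (4 ^ (T - a j)) (4 ^ T) m k
      (by positivity) (by positivity)
      (by rw [← pow_add, Nat.add_sub_cancel' ((ha hj).trans hg)])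
    have e : ∀ b : Bool × Bool × Bool, ∑ τ ∈ range (9 * 4 ^ T + 1),
        ((cond b.2.1 (-1) 1 * cond b.2.2 (-1) 1 / (4 ^ T : ℕ) : ℝ) : ℂ) *
          ind (m * 4 ^ (T - a (cond b.2.1 (g - 1) g)) < τ) *
          ind ((b.1 = true → k < LL a g) ∧ (b.2.1 = true → 1 ≤ g) ∧
            τ + k * 4 ^ (T - a (cond b.2.1 (g - 1) g)) ≤ cond b.2.2 8 9 * 4 ^ T) =
        ((cond b.2.1 (-1) 1 * cond b.2.2 (-1) 1 / (4 ^ T : ℕ) : ℝ) : ℂ) *
          ind (b.1 = true → k < LL a g) * ind (b.2.1 = true → 1 ≤ g) *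
          ∑ τ ∈ range (9 * 4 ^ T + 1), ind (m * 4 ^ (T - a (cond b.2.1 (g - 1) g)) < τ) *
            ind (τ + k * 4 ^ (T - a (cond b.2.1 (g - 1) g)) ≤ cond b.2.2 8 9 * 4 ^ T) := by
      intro b
      rw [mul_sum]
      refine sum_congr rfl fun τ _ => ?_
      rw [ind_and, ind_and]
      ring
    rw [sum_product_right]
    refine Eq.trans ?_ (sum_congr rfl fun b _ => (e b).symm)
    simp only [Fintype.sum_prod_type, Fintype.sum_bool, cond_true, cond_false, Bool.false_eq_true,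
      IsEmpty.forall_iff, forall_const, ind_pos trivial]
    rw [beta, ← ind_eq]
    cases g with
    | zero =>
      rw [ww, kk 0 le_rfl, ind_neg (show ¬ 1 ≤ 0 by omega)]
      push_cast
      ring
    | succ g =>
      rw [ww, Complex.ofReal_sub, kk (g + 1) le_rfl, kk g (Nat.le_succ g),
        ind_pos (show 1 ≤ g + 1 by omega), Nat.add_sub_cancel]
      push_cast
      ring

theorem opb (hD : S_DEC) : S_OPB := by
  intro a N g u K ha hK hu x y
  obtain ⟨E, h, ε, ρ, χ, h1, h2, -, h4⟩ := hD a (a g) ha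
  have hu' : OpB (JJ a N g) (range N) u K := sub hu (filter_subset _ _)
  have e : ∑ m ∈ JJ a N g, ∑ k ∈ range N, u m k * beta a g m k * x m * y k =
      ∑ e ∈ h, (ε e : ℂ) * ∑ m ∈ JJ a N g, ∑ k ∈ range N,
        u m k * (ρ e g m * x m) * (ind (χ e g k) * y k) := by
    simp only [mul_sum]
    rw [sum_comm (s := h)]
    refine sum_congr rfl fun m _ => ?_
    rw [sum_comm (s := h)]
    refine sum_congr rfl fun k _ => ?_
    rw [h4 g m k le_rfl, mul_sum, sum_mul, sum_mul]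
    refine sum_congr rfl fun e _ => ?_
    rw [ind]
    ring
  have sq : ∀ (s : Finset ℕ) (c z : ℕ → ℂ), (∀ i, ‖c i‖ ≤ 1) →
      √(∑ i ∈ s, ‖c i * z i‖ ^ 2) ≤ √(∑ i ∈ s, ‖z i‖ ^ 2) := by
    intro s c z hc
    refine Real.sqrt_le_sqrt (sum_le_sum fun i _ => pow_le_pow_left₀ (norm_nonneg _) ?_ 2)
    rw [norm_mul]
    exact mul_le_of_le_one_left (norm_nonneg _) (hc i)
  rw [e]
  refine (norm_sum_le _ _).trans ((sum_le_sum (g := fun e => |ε e| *
    (K * √(∑ m ∈ JJ a N g, ‖x m‖ ^ 2) * √(∑ k ∈ range N, ‖y k‖ ^ 2))) fun e _ => ?_).trans ?_)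
  · rw [norm_mul, Complex.norm_real, Real.norm_eq_abs]
    refine mul_le_mul_of_nonneg_left ((hu' _ _).trans ?_) (abs_nonneg _)
    exact mul_le_mul (mul_le_mul_of_nonneg_left (sq _ _ _ (h2 e g)) hK)
      (sq _ _ _ fun k => norm_ind _) (Real.sqrt_nonneg _) (by positivity)
  · rw [← sum_mul]
    refine (mul_le_mul_of_nonneg_right h1 (by positivity)).trans (le_of_eq (by ring))

end Pool.Agent.MP_fe3998_an.PR
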