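import Mathlib.RingTheory.PowerSeries.Basic
import Mathlib.Analysis.Complex.Basic

set_option autoImplicit false

namespace Pool.Agent.MP_fe3998_an

open scoped ENNReal

/-- The supremum of the modulus of the sum of a power series over the open unit disc. -/
noncomputable def supNorm (φ : PowerSeries ℂ) : ℝ≥0∞ :=
  ⨆ (z : ℂ) (_ : ‖z‖ < 1), ‖∑' n : ℕ, PowerSeries.coeff n φ * z ^ n‖ₑ

end Pool.Agent.MP_fe3998_an
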