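import Pool.Agent.MP_fe3998_an.PR.Spec

/-!
The product of a far piece with the mean of a bounded polynomial.
-/

set_option autoImplicit false

namespace Pool.Agent.MP_fe3998_an.PR

open Finset Polynomial

namespace FAR

theorem count (D n : ℕ) (hD : 1 ≤ D) :
    ((range D).filter fun l => n + (D - 1) - l < 9 * D).card = min D (9 * D - n) := by
  have h : ((range D).filter fun l => n + (D - 1) - l < 9 * D) = Ico (D - min D (9 * D - n)) D := by
    ext l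
    simp only [mem_filter, mem_range, mem_Ico]
    omega
  rw [h, Nat.card_Ico]
  omega

theorem coeff_sum (D : ℕ) (f : ℕ → ℂ) (p : ℕ) (hp : D ≤ p + 1) :
    (∑ j ∈ range (9 * D), ∑ l ∈ range D, monomial (j + l) (f (j + l))).coeff p =
      (((range D).filter fun l => p - l < 9 * D).card : ℂ) * f p := by
  rw [Finset.sum_comm, finsetSum_coeff]
  have h1 : ∀ l ∈ range D, (∑ j ∈ range (9 * D), monomial (j + l) (f (j + l))).coeff p =
      if p - l < 9 * D then f p else 0 := by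
    intro l hl
    rw [mem_range] at hl
    rw [finsetSum_coeff]
    simp only [coeff_monomial]
    have h2 : ∀ j ∈ range (9 * D), (if j + l = p then f (j + l) else 0) =
        if p - l = j then f p else 0 := by
      intro j _
      by_cases h : j + l = p
      · rw [if_pos h, if_pos (by omega), h]
      · rw [if_neg h, if_neg (by omega)]
    rw [Finset.sum_congr rfl h2, Finset.sum_ite_eq]
    simp only [mem_range]
  rw [Finset.sum_congr rfl h1, ← Finset.sum_filter, Finset.sum_const, nsmul_eq_mul]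

theorem shift (D : ℕ) (hD : 1 ≤ D) (Q : ℂ[X]) :
    X ^ (D - 1) * VV D Q = ∑ j ∈ range (9 * D), ∑ l ∈ range D,
      monomial (j + l) ((X ^ (D - 1) * Q).coeff (j + l) / (D : ℂ)) := by
  ext p
  by_cases hp : D - 1 ≤ p
  · have hc := coeff_sum D (fun n => (X ^ (D - 1) * Q : ℂ[X]).coeff n / (D : ℂ)) p (by omega)
    beta_reduce at hc
    rw [hc]
    obtain ⟨n, rfl⟩ : ∃ n, p = n + (D - 1) := ⟨p - (D - 1), by omega⟩
    rw [count D n hD, coeff_X_pow_mul, coeff_X_pow_mul, coeff_VV]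
    unfold vv
    generalize min D (9 * D - n) = r
    push_cast
    ring
  · rw [coeff_X_pow_mul', if_neg hp, finsetSum_coeff]
    symm
    refine Finset.sum_eq_zero fun j _ => ?_
    rw [finsetSum_coeff]
    refine Finset.sum_eq_zero fun l _ => ?_
    rw [coeff_monomial]
    split_ifs with h
    · rw [h, coeff_X_pow_mul', if_neg hp, zero_div]
    · rfl

theorem supB_shift (d : ℕ) (Q : ℂ[X]) (b : ℝ) (h : SupB Q b) : SupB (X ^ d * Q) b := by
  intro z hz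
  rw [eval_mul, eval_pow, eval_X, norm_mul, norm_pow, hz, one_pow, one_mul]
  exact h z hz

theorem ident (N D : ℕ) (J : Finset ℕ) (g : ℕ → ℕ → ℂ) (Q : ℂ[X]) (hD : 1 ≤ D)
    (hJ : ∀ m ∈ J, D ≤ m + 1) :
    pol J (range N) id id g * VV D Q =
      pol (J ×ˢ range (9 * D)) (range N ×ˢ range D) (fun i => i.1 + i.2 - (D - 1))
        (fun k => k.1 + k.2)
        (fun i k => g i.1 k.1 * ((X ^ (D - 1) * Q).coeff (i.2 + k.2) / (D : ℂ))) := by
  have hX : (X ^ (D - 1) : ℂ[X]) ≠ 0 := pow_ne_zero _ X_ne_zero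
  apply mul_left_cancel₀ hX
  rw [mul_left_comm, shift D hD Q]
  unfold pol
  rw [Finset.sum_mul, Finset.mul_sum (J ×ˢ range (9 * D)), Finset.sum_product]
  refine Finset.sum_congr rfl fun m hm => ?_
  have hm' := hJ m hm
  rw [Finset.mul_sum]
  refine Finset.sum_congr rfl fun j _ => ?_
  rw [Finset.mul_sum (range N ×ˢ range D), Finset.sum_product, Finset.sum_mul]
  refine Finset.sum_congr rfl fun k _ => ?_
  rw [Finset.mul_sum]
  refine Finset.sum_congr rfl fun l _ => ?_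
  rw [monomial_mul_monomial, X_pow_eq_monomial, monomial_mul_monomial, one_mul]
  have h : id m + id k + (j + l) = D - 1 + (m + j - (D - 1) + (k + l)) := by
    simp only [id]
    omega
  rw [h]

theorem sq_sum_le {ι : Type} (s : Finset ι) (R : ℕ) (w : ι → ℝ) (x : ι × ℕ → ℂ)
    (hx : ∀ i, ‖x i‖ ≤ 1) :
    ∑ i ∈ s ×ˢ range R, ‖(w i.1 : ℂ) * x i‖ ^ 2 ≤ R * ∑ m ∈ s, w m ^ 2 := by
  have h1 : ∀ i ∈ s ×ˢ range R, ‖(w i.1 : ℂ) * x i‖ ^ 2 ≤ w i.1 ^ 2 := by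
    intro i _
    rw [norm_mul, mul_pow, Complex.norm_real, Real.norm_eq_abs, sq_abs]
    have h2 : ‖x i‖ ^ 2 ≤ 1 := pow_le_one₀ (norm_nonneg _) (hx i)
    exact mul_le_of_le_one_right (sq_nonneg _) h2
  refine (Finset.sum_le_sum h1).trans (le_of_eq ?_)
  rw [Finset.sum_product, Finset.mul_sum]
  refine Finset.sum_congr rfl fun m _ => ?_
  simp

theorem bound (N D : ℕ) (J : Finset ℕ) (w : ℕ → ℝ) (u : ℕ → ℕ → ℂ) (c : ℕ → ℂ) (L : ℝ)
    (x y : ℕ × ℕ → ℂ) (hD : 1 ≤ D) (hL : 0 ≤ L) (hw : ∑ k ∈ range N, w k ^ 2 ≤ 1)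
    (hT : OpB (J ×ˢ range (9 * D)) (range N ×ˢ range D)
      (fun i k => u i.1 k.1 * c (i.2 + k.2)) L)
    (hx : ∀ i, ‖x i‖ ≤ 1) (hy : ∀ k, ‖y k‖ ≤ 1) :
    ‖∑ i ∈ J ×ˢ range (9 * D), ∑ k ∈ range N ×ˢ range D,
      (w i.1 : ℂ) * u i.1 k.1 * (w k.1 : ℂ) * (c (i.2 + k.2) / (D : ℂ)) * x i * y k‖ ≤
      3 * L * √(∑ m ∈ J, w m ^ 2) := by
  have hD0 : (0 : ℝ) < D := by exact_mod_cast hD
  have hT' := hT (fun i => (w i.1 : ℂ) * x i) (fun k => (w k.1 : ℂ) * y k)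
  beta_reduce at hT'
  have h1 := sq_sum_le J (9 * D) w x hx
  have h2 := sq_sum_le (range N) D w y hy
  have h2' : ∑ k ∈ range N ×ˢ range D, ‖(w k.1 : ℂ) * y k‖ ^ 2 ≤ D :=
    h2.trans (mul_le_of_le_one_right hD0.le hw)
  have hS : 0 ≤ ∑ m ∈ J, w m ^ 2 := Finset.sum_nonneg fun _ _ => sq_nonneg _
  have h3 : √(∑ i ∈ J ×ˢ range (9 * D), ‖(w i.1 : ℂ) * x i‖ ^ 2) ≤
      3 * √(D : ℝ) * √(∑ m ∈ J, w m ^ 2) := by
    refine Real.sqrt_le_iff.2 ⟨by positivity, h1.trans (le_of_eq ?_)⟩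
    rw [mul_pow, mul_pow, Real.sq_sqrt hD0.le, Real.sq_sqrt hS]
    push_cast
    ring
  have h4 : √(∑ k ∈ range N ×ˢ range D, ‖(w k.1 : ℂ) * y k‖ ^ 2) ≤ √(D : ℝ) :=
    Real.sqrt_le_sqrt h2'
  have h5 : ∑ i ∈ J ×ˢ range (9 * D), ∑ k ∈ range N ×ˢ range D,
      (w i.1 : ℂ) * u i.1 k.1 * (w k.1 : ℂ) * (c (i.2 + k.2) / (D : ℂ)) * x i * y k =
      (∑ i ∈ J ×ˢ range (9 * D), ∑ k ∈ range N ×ˢ range D,
        u i.1 k.1 * c (i.2 + k.2) * ((w i.1 : ℂ) * x i) * ((w k.1 : ℂ) * y k)) / (D : ℂ) := by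
    rw [Finset.sum_div]
    refine Finset.sum_congr rfl fun i _ => ?_
    rw [Finset.sum_div]
    refine Finset.sum_congr rfl fun k _ => ?_
    ring
  rw [h5, norm_div, Complex.norm_natCast, div_le_iff₀ hD0]
  refine hT'.trans ?_
  have h6 : √(D : ℝ) * √(D : ℝ) = D := Real.mul_self_sqrt hD0.le
  have h7 : 0 ≤ L * (3 * √(D : ℝ) * √(∑ m ∈ J, w m ^ 2)) := by positivity
  refine (mul_le_mul (mul_le_mul_of_nonneg_left h3 hL) h4 (Real.sqrt_nonneg _) h7).trans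
    (le_of_eq ?_)
  have h8 : L * (3 * √(D : ℝ) * √(∑ m ∈ J, w m ^ 2)) * √(D : ℝ) =
      3 * L * √(∑ m ∈ J, w m ^ 2) * (√(D : ℝ) * √(D : ℝ)) := by ring
  rw [h8, h6]

end FAR

theorem far (hL : S_LB) (hT : S_TENS) (hP : S_PUSH) : S_FAR := by
  intro N D J w u K b Q hD hJ hK hu hw hQ
  rw [FAR.ident N D J _ Q hD hJ]
  refine hP _ _ _ _ _ _ _ _ ?_
  intro x y hx hy
  have hb : 0 ≤ b := hQ.nonneg
  have h1 := hL _ b (FAR.supB_shift (D - 1) Q b hQ) (9 * D) D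
  generalize (X ^ (D - 1) * Q : ℂ[X]).coeff = c at h1 ⊢
  have h2 := hT ℕ ℕ ℕ ℕ J (range N) (range (9 * D)) (range D) u
    (fun j l => c (j + l)) K b hK hb hu h1
  have h3 := FAR.bound N D J w u c (K * b) (fun i => x (i.1 + i.2 - (D - 1)))
    (fun k => y (k.1 + k.2)) hD (mul_nonneg hK hb) hw h2 (fun _ => hx _) (fun _ => hy _)
  refine h3.trans (le_of_eq ?_)
  ring

end Pool.Agent.MP_fe3998_an.PR
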