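import Pool.Agent.MP_fe3998_an.PR.Spec

/-!
The product estimate for finite matrices.
-/

set_option autoImplicit false

namespace Pool.Agent.MP_fe3998_an.PR

open Finset Polynomial

namespace FIN

theorem VV_pol {N D : ℕ} (hD : 1 ≤ D) (h : N ≤ D) (γ : ℕ → ℕ → ℂ) :
    VV D (pol (range N) (range N) id id γ) = pol (range N) (range N) id id γ := by
  ext n
  rw [coeff_VV]
  by_cases hn : n ≤ 8 * D
  · have e : min D (9 * D - n) = D := by omega
    have hD' : (D : ℝ) ≠ 0 := by positivity
    rw [vv, e, div_self hD']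
    simp
  · have e : (pol (range N) (range N) id id γ).coeff n = 0 := by
      unfold pol
      rw [finsetSum_coeff]
      refine Finset.sum_eq_zero fun m hm => ?_
      rw [finsetSum_coeff]
      refine Finset.sum_eq_zero fun k hk => ?_
      rw [coeff_monomial, if_neg]
      have := mem_range.1 hm
      have := mem_range.1 hk
      simp only [id]
      omega
    rw [e, mul_zero]

theorem tele (a : ℕ → ℕ) (P Q : ℂ[X]) (r : ℕ) :
    ∑ g ∈ range (r + 1), (VV (4 ^ a g) P * VV (4 ^ a g) Q - prevV a g P * prevV a g Q) =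
      VV (4 ^ a r) P * VV (4 ^ a r) Q := by
  induction r with
  | zero => simp [prevV]
  | succ r ih =>
    rw [Finset.sum_range_succ, ih]
    simp [prevV]

theorem mass_le {a : ℕ → ℕ} {N : ℕ} {p : ℕ → ℝ} (hp : ∀ m, 0 ≤ p m)
    (h1 : ∑ m ∈ range N, p m ≤ 1) (G : Finset ℕ)
    (hG : ∀ g ∈ G, ∀ g' ∈ G, g ≠ g' → Disjoint (JJ a N g) (JJ a N g')) :
    ∑ g ∈ G, ∑ m ∈ JJ a N g, p m ≤ 1 := by
  rw [← Finset.sum_biUnion (fun g hg g' hg' h => hG g hg g' hg' h)]
  refine le_trans (Finset.sum_le_sum_of_subset_of_nonneg ?_ fun m _ _ => hp m) h1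
  intro m hm
  obtain ⟨g, -, hg⟩ := mem_biUnion.1 hm
  exact (mem_filter.1 hg).1

theorem par_disj (hD : S_DISJ) {a : ℕ → ℕ} (ha : StrictMono a) (N : ℕ) {g g' : ℕ}
    (h : g % 2 = g' % 2) (hne : g ≠ g') : Disjoint (JJ a N g) (JJ a N g') := by
  rcases lt_or_gt_of_ne hne with h1 | h1
  · exact hD a N g g' ha (by omega)
  · exact (hD a N g' g ha (by omega)).symm

theorem sqrt_sum (hD : S_DISJ) {a : ℕ → ℕ} (ha : StrictMono a) {N r R : ℕ} {p : ℕ → ℝ}
    (hp : ∀ m, 0 ≤ p m) (h1 : ∑ m ∈ range N, p m ≤ 1) (hR : 1 ≤ R) (hr : r ≤ 4 * R) :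
    ∑ g ∈ range (r + 1), √(∑ m ∈ JJ a N g, p m) ≤ 4 * √R := by
  have h2 : ∑ g ∈ range (r + 1), ∑ m ∈ JJ a N g, p m ≤ 2 := by
    rw [← Finset.sum_filter_add_sum_filter_not (range (r + 1)) (fun g => g % 2 = 0)]
    have i1 := mass_le (a := a) hp h1 ((range (r + 1)).filter fun g => g % 2 = 0)
      fun g hg g' hg' hne => par_disj hD ha N
        (by have := (mem_filter.1 hg).2; have := (mem_filter.1 hg').2; omega) hne
    have i2 := mass_le (a := a) hp h1 ((range (r + 1)).filter fun g => ¬ g % 2 = 0)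
      fun g hg g' hg' hne => par_disj hD ha N
        (by have := (mem_filter.1 hg).2; have := (mem_filter.1 hg').2; omega) hne
    linarith
  have h3 := sq_sum_le_card_mul_sum_sq (s := range (r + 1))
    (f := fun g => √(∑ m ∈ JJ a N g, p m))
  have h4 : ∑ g ∈ range (r + 1), √(∑ m ∈ JJ a N g, p m) ^ 2 ≤ 2 := by
    refine le_trans (le_of_eq (Finset.sum_congr rfl fun g _ => ?_)) h2
    exact Real.sq_sqrt (Finset.sum_nonneg fun m _ => hp m)
  have h5 : ((range (r + 1)).card : ℝ) ≤ 5 * R := by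
    rw [card_range]
    exact_mod_cast (by omega : r + 1 ≤ 5 * R)
  have hR' : (0 : ℝ) ≤ R := Nat.cast_nonneg R
  refine abs_le_of_sq_le_sq' ?_ (by positivity) |>.2
  rw [mul_pow, Real.sq_sqrt hR']
  have h6 : (0 : ℝ) ≤ ∑ g ∈ range (r + 1), √(∑ m ∈ JJ a N g, p m) ^ 2 := by positivity
  nlinarith [mul_le_mul h5 h4 h6 (by positivity)]

/-- Long steps. -/
def light (a : ℕ → ℕ) : ℕ → Prop
  | 0 => False
  | g + 1 => a (g + 1) ≠ a g + 1

end FIN

open FIN in
theorem fin (hS : S_SYM) (hF : S_FAR) (hO : S_OPB) (hW : S_W) (hG : S_GRP) (hD : S_DISJ)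
    (hN : S_NEAR2) : S_FIN := by
  classical
  refine ⟨25600 * 512 ^ 2, by norm_num, fun N R γ γ' A B a b hR hA hB ha hb => ?_⟩
  have hA0 := hA.nonneg
  have hB0 := hB.nonneg
  have ha0 := ha.nonneg
  have hb0 := hb.nonneg
  obtain ⟨w, u, u', hw, hu, hu', su, su', e1, e2⟩ := hS N γ γ' A B hA hB
  rw [e1] at ha ⊢
  rw [e2] at hb ⊢
  set P := pol (range N) (range N) id id (fun m k => (w m : ℂ) * u m k * (w k : ℂ)) with hP
  set Q := pol (range N) (range N) id id (fun m k => (w m : ℂ) * u' m k * (w k : ℂ)) with hQ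
  obtain ⟨r, α, hα, hα0, hαN, hr, hl⟩ := hG N R (fun m => w m ^ 2) hR (fun m => sq_nonneg _) hw
  have hp : ∀ g, VV (4 ^ α g) P - prevV α g P = piece α N w u g :=
    fun g => hW α N g w u hα.monotone su
  have hq : ∀ g, VV (4 ^ α g) Q - prevV α g Q = piece α N w u' g :=
    fun g => hW α N g w u' hα.monotone su'
  have hK : 0 ≤ 512 * A := by positivity
  have hK' : 0 ≤ 512 * B := by positivity
  have far : ∀ (v : ℕ → ℕ → ℂ) (K c : ℝ) (S : ℂ[X]) (g D : ℕ), 0 ≤ K →
      OpB (range N) (range N) v K → SupB S c → 1 ≤ D → D ≤ LL α g + 1 →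
      Rep (piece α N w v g * VV D S) (3 * (80 * K) * √(∑ m ∈ JJ α N g, w m ^ 2) * c) := by
    intro v K c S g D h0 hv hS h1 h2
    refine hF N D (JJ α N g) w _ (80 * K) c S h1 (fun m hm => ?_) (by positivity)
      (hO α N g v K hα.monotone h0 hv) hw hS
    have := (mem_filter.1 hm).2.1
    omega
  have one : ∀ g, 1 ≤ 4 ^ α g := fun g => Nat.one_le_pow _ _ (by norm_num)
  have r1 : ∀ g, Rep (piece α N w u g * if light α g then prevV α g Q else VV (4 ^ α g) Q)
      (3 * (80 * (512 * A)) * √(∑ m ∈ JJ α N g, w m ^ 2) * b) := by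
    intro g
    cases g with
    | zero =>
      rw [if_neg (by simp [light])]
      exact far u _ b Q 0 _ hK hu hb (one 0) (by simp [hα0])
    | succ g =>
      split_ifs with h
      · exact far u _ b Q (g + 1) _ hK hu hb (one g) (by simp only [LL]; omega)
      · refine far u _ b Q (g + 1) _ hK hu hb (one _) ?_
        have : α (g + 1) = α g + 1 := by simpa [light] using h
        rw [this, pow_succ]
        simp only [LL]
        omega
  have r2 : ∀ g, Rep (piece α N w u' g * prevV α g P)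
      (3 * (80 * (512 * B)) * √(∑ m ∈ JJ α N g, w m ^ 2) * a) := by
    intro g
    cases g with
    | zero =>
      simp only [prevV, mul_zero]
      exact Rep.zero.mono (by positivity)
    | succ g => exact far u' _ a P (g + 1) _ hK' hu' ha (one g) (by simp only [LL]; omega)
  have hR0 : (0 : ℝ) < R := by exact_mod_cast hR
  have r3 : ∀ i : ℕ, Rep (∑ g ∈ (range (r + 1)).filter (fun g => light α g ∧ g % 2 = i),
      piece α N w u g * piece α N w u' g) (12800 * (512 * A) * (512 * B) * √(1 / (R : ℝ))) := by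
    intro i
    refine hN α N _ w u u' _ _ _ hα.monotone hK hK' (by positivity) hu hu' hw
      (fun g hg g' hg' hne => par_disj hD hα N ?_ hne) fun g hg => ?_
    · rw [(mem_filter.1 hg).2.2, (mem_filter.1 hg').2.2]
    · obtain ⟨h1, h2, -⟩ := mem_filter.1 hg
      cases g with
      | zero => exact absurd h2 (by simp [light])
      | succ g =>
        have := mem_range.1 h1
        exact (hl g (by omega)).resolve_left h2
  have key : P * Q =
      ∑ g ∈ range (r + 1), (piece α N w u g * if light α g then prevV α g Q else VV (4 ^ α g) Q) +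
      ∑ g ∈ range (r + 1), piece α N w u' g * prevV α g P +
      (∑ g ∈ (range (r + 1)).filter (fun g => light α g ∧ g % 2 = 0),
        piece α N w u g * piece α N w u' g +
      ∑ g ∈ (range (r + 1)).filter (fun g => light α g ∧ g % 2 = 1),
        piece α N w u g * piece α N w u' g) := by
    have t := tele α P Q r
    rw [hP, VV_pol (one r) hαN, hQ, VV_pol (one r) hαN, ← hP, ← hQ] at t
    rw [← t, Finset.sum_filter, Finset.sum_filter, ← Finset.sum_add_distrib,
      ← Finset.sum_add_distrib, ← Finset.sum_add_distrib]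
    refine Finset.sum_congr rfl fun g _ => ?_
    rw [← hp g, ← hq g]
    by_cases h : light α g
    · rcases Nat.mod_two_eq_zero_or_one g with h2 | h2 <;> simp only [h, h2, if_true, true_and,
        zero_ne_one, one_ne_zero, if_false] <;> ring
    · simp only [h, if_false, false_and]
      ring
  rw [key]
  refine (((Rep.sum _ _ _ fun g _ => r1 g).add (Rep.sum _ _ _ fun g _ => r2 g)).add
    ((r3 0).add (r3 1))).mono ?_
  have hs := sqrt_sum hD hα (p := fun m => w m ^ 2) (fun m => sq_nonneg _) hw hR hr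
  rw [← Finset.sum_mul, ← Finset.mul_sum, ← Finset.sum_mul, ← Finset.mul_sum]
  set σ := ∑ g ∈ range (r + 1), √(∑ m ∈ JJ α N g, w m ^ 2) with hσ
  have e3 : √(1 / (R : ℝ)) = 1 / √R := by rw [Real.sqrt_div zero_le_one, Real.sqrt_one]
  rw [e3]
  have i1 : σ * (A * b + a * B) ≤ 4 * √R * (A * b + a * B) :=
    mul_le_mul_of_nonneg_right hs (by positivity)
  have i2 : 0 ≤ √R * (A * b + a * B) := by positivity
  have e4 : A * B / √R = A * B * (1 / √R) := by ring
  rw [e4]
  nlinarith

end Pool.Agent.MP_fe3998_an.PR
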