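import Pool.Agent.MP_fe3998_an.PR.Spec

/-! Row GRP: grouping of the scales. -/

set_option autoImplicit false

namespace Pool.Agent.MP_fe3998_an.PR

open Finset

namespace GRP

/-- the mass below `4 ^ c` -/
noncomputable def FF (N : ℕ) (p : ℕ → ℝ) (c : ℕ) : ℝ :=
  ∑ m ∈ (range N).filter (fun m => m < 4 ^ c), p m

theorem FF_mono {N : ℕ} {p : ℕ → ℝ} (hp : ∀ m, 0 ≤ p m) : Monotone (FF N p) := by
  intro c d h
  refine sum_le_sum_of_subset_of_nonneg (fun m hm => ?_) fun m _ _ => hp m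
  rw [mem_filter] at hm ⊢
  exact ⟨hm.1, hm.2.trans_le (Nat.pow_le_pow_right (by norm_num) h)⟩

theorem FF_nn {N : ℕ} {p : ℕ → ℝ} (hp : ∀ m, 0 ≤ p m) (c : ℕ) : 0 ≤ FF N p c :=
  sum_nonneg fun m _ => hp m

theorem FF_le {N : ℕ} {p : ℕ → ℝ} (hp : ∀ m, 0 ≤ p m) (c : ℕ) :
    FF N p c ≤ ∑ m ∈ range N, p m :=
  sum_le_sum_of_subset_of_nonneg (filter_subset _ _) fun m _ _ => hp m

theorem mass {N : ℕ} {p : ℕ → ℝ} (hp : ∀ m, 0 ≤ p m) (a : ℕ → ℕ) (g : ℕ)
    (h : a g ≤ a (g + 1)) :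
    ∑ m ∈ JJ a N (g + 1), p m + FF N p (a g + 1) ≤ FF N p (a (g + 1) + 2) := by
  have hd : Disjoint (JJ a N (g + 1)) ((range N).filter fun m => m < 4 ^ (a g + 1)) := by
    rw [disjoint_left]
    intro m h1 h2
    have h3 : 4 * 4 ^ a g ≤ m := (mem_filter.1 h1).2.1
    have h4 := (mem_filter.1 h2).2
    rw [pow_succ] at h4
    omega
  rw [FF, ← sum_union hd]
  refine sum_le_sum_of_subset_of_nonneg (fun m hm => ?_) fun m _ _ => hp m
  rcases mem_union.1 hm with h1 | h1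
  · have h3 : m < 9 * 4 ^ a (g + 1) := (mem_filter.1 h1).2.2
    refine mem_filter.2 ⟨(mem_filter.1 h1).1, ?_⟩
    rw [pow_add]
    omega
  · exact mem_filter.2 ⟨(mem_filter.1 h1).1,
      (mem_filter.1 h1).2.trans_le (Nat.pow_le_pow_right (by norm_num) (by omega))⟩

theorem cnt (f : ℕ → ℕ) (hf : Monotone f) (N : ℕ) (S : ℕ → Prop) [DecidablePred S]
    (hS : ∀ c, S c → c = 0 ∨ f c < f (c + 3) ∨ N ≤ c) (n : ℕ) (hn : n < N) :
    Nat.count S (n + 1) ≤ 1 + f (n + 1) + f (n + 2) + f (n + 3) := by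
  induction n with
  | zero =>
    have h := Nat.count_le (p := S) (n := 0 + 1)
    omega
  | succ n ih =>
    have h1 := ih (by omega)
    have h2 : f (n + 1) ≤ f (n + 1 + 3) := hf (by omega)
    rw [Nat.count_succ, show n + 1 + 1 = n + 2 from rfl, show n + 1 + 2 = n + 3 from rfl]
    split_ifs with h
    · rcases hS _ h with h3 | h3 | h3 <;> omega
    · omega

theorem flat (f : ℕ → ℕ) (hf : Monotone f) (u v : ℕ)
    (h : ∀ c, u ≤ c → c < v → f (c + 3) ≤ f c) (k : ℕ) (hk : u + k < v) :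
    f (u + k + 3) ≤ f u := by
  induction k with
  | zero => exact h u le_rfl hk
  | succ k ih =>
    have h1 := ih (by omega)
    have h2 := h (u + (k + 1)) (by omega) hk
    have h3 : f (u + (k + 1)) ≤ f (u + k + 3) := hf (by omega)
    omega

end GRP

open GRP in
theorem grp : S_GRP := by
  classical
  intro N R p hR hp h1
  have hR0 : (0 : ℝ) < R := by exact_mod_cast hR
  obtain ⟨f, hf⟩ : ∃ f : ℕ → ℕ, ∀ c, f c = ⌊(R : ℝ) * FF N p c⌋₊ := ⟨_, fun _ => rfl⟩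
  have hm : Monotone f := fun c d h => by
    rw [hf, hf]
    exact Nat.floor_le_floor (mul_le_mul_of_nonneg_left (FF_mono hp h) hR0.le)
  have hle : ∀ c, f c ≤ R := fun c => by
    rw [hf]
    exact Nat.floor_le_of_le (mul_le_of_le_one_right hR0.le ((FF_le hp c).trans h1))
  obtain ⟨S, hS⟩ : ∃ S : ℕ → Prop, ∀ c, S c ↔ c = 0 ∨ f c < f (c + 3) ∨ N ≤ c :=
    ⟨_, fun _ => Iff.rfl⟩
  have hinf : (Set.ofPred S).Infinite :=
    (Set.Ici_infinite N).mono fun c hc => (hS c).2 (Or.inr (Or.inr hc))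
  have hsm : StrictMono (Nat.nth S) := Nat.nth_strictMono hinf
  refine ⟨Nat.count S N, Nat.nth S, hsm, Nat.nth_zero_of_zero ((hS 0).2 (Or.inl rfl)), ?_, ?_,
    fun g _ => ?_⟩
  · rw [Nat.nth_count ((hS N).2 (Or.inr (Or.inr le_rfl)))]
    exact (Nat.lt_pow_self (by norm_num)).le
  · rcases N with _ | n
    · simp
    · have h2 := cnt f hm (n + 1) S (fun c hc => (hS c).1 hc) n (by omega)
      have h3 := hle (n + 1)
      have h4 := hle (n + 2)
      have h5 := hle (n + 3)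
      omega
  · by_cases he : Nat.nth S (g + 1) = Nat.nth S g + 1
    · exact Or.inl he
    right
    have h2 : Nat.nth S g < Nat.nth S (g + 1) := hsm (by omega)
    have h3 : ∀ c, Nat.nth S g + 1 ≤ c → c < Nat.nth S (g + 1) → f (c + 3) ≤ f c := by
      intro c hc hc'
      by_contra hh
      have h4 := Nat.le_nth_of_lt_nth_succ hc' ((hS c).2 (Or.inr (Or.inl (not_le.1 hh))))
      omega
    have h4 := flat f hm _ _ h3 (Nat.nth S (g + 1) - Nat.nth S g - 2) (by omega)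
    rw [show Nat.nth S g + 1 + (Nat.nth S (g + 1) - Nat.nth S g - 2) + 3
      = Nat.nth S (g + 1) + 2 by omega, hf, hf] at h4
    have h5 := mass (N := N) hp (Nat.nth S) g h2.le
    have h6 := Nat.lt_floor_add_one ((R : ℝ) * FF N p (Nat.nth S (g + 1) + 2))
    have h7 := Nat.floor_le (mul_nonneg hR0.le (FF_nn (N := N) hp (Nat.nth S g + 1)))
    have h8 : (⌊(R : ℝ) * FF N p (Nat.nth S (g + 1) + 2)⌋₊ : ℝ)
        ≤ ⌊(R : ℝ) * FF N p (Nat.nth S g + 1)⌋₊ := by exact_mod_cast h4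
    have h9 := mul_le_mul_of_nonneg_left h5 hR0.le
    rw [le_div_iff₀ hR0]
    nlinarith

end Pool.Agent.MP_fe3998_an.PR
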