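import Mathlib
import Pool.Agent.MP_fe3998_an.Defs
import Pool.Agent.MP_fe3998_an.PR.Defs

/-!
The sharp product estimate in the space of the problem: definitions and the steps of the proof.
-/

set_option autoImplicit false

namespace Pool.Agent.MP_fe3998_an.PR

open Finset Polynomial
open scoped ENNReal

/-- Bound `M` for the bilinear form of `g` on bounded sequences. -/
def InjB {ι κ : Type} (s : Finset ι) (t : Finset κ) (g : ι → κ → ℂ) (M : ℝ) : Prop :=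
  ∀ (x : ι → ℂ) (y : κ → ℂ), (∀ i, ‖x i‖ ≤ 1) → (∀ k, ‖y k‖ ≤ 1) →
    ‖∑ i ∈ s, ∑ k ∈ t, g i k * x i * y k‖ ≤ M

/-- Bound `K` for the bilinear form of `u` on square summable sequences. -/
def OpB {ι κ : Type} (s : Finset ι) (t : Finset κ) (u : ι → κ → ℂ) (K : ℝ) : Prop :=
  ∀ (x : ι → ℂ) (y : κ → ℂ), ‖∑ i ∈ s, ∑ k ∈ t, u i k * x i * y k‖ ≤
    K * √(∑ i ∈ s, ‖x i‖ ^ 2) * √(∑ k ∈ t, ‖y k‖ ^ 2)

/-- The polynomial of a finite matrix with row degrees `ρ` and column degrees `σ`. -/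
noncomputable def pol {ι κ : Type} (s : Finset ι) (t : Finset κ) (ρ : ι → ℕ) (σ : κ → ℕ)
    (g : ι → κ → ℂ) : ℂ[X] :=
  ∑ i ∈ s, ∑ k ∈ t, monomial (ρ i + σ k) (g i k)

/-- `P` has a finitely supported representation of injective norm at most `M`. -/
def Rep (P : ℂ[X]) (M : ℝ) : Prop :=
  ∃ (γ : ℕ → ℕ → ℂ) (N : ℕ), (∀ m k, N ≤ m ∨ N ≤ k → γ m k = 0) ∧
    (∀ n, P.coeff n = ∑ j ∈ range (n + 1), γ j (n - j)) ∧
    ∀ N', InjB (range N') (range N') γ M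

/-- `|P| ≤ b` on the unit circle. -/
def SupB (P : ℂ[X]) (b : ℝ) : Prop := ∀ z : ℂ, ‖z‖ = 1 → ‖P.eval z‖ ≤ b

/-- The trapezoid equal to `1` up to `8 D` and to `0` from `9 D` on. -/
noncomputable def vv (D n : ℕ) : ℝ := ((min D (9 * D - n) : ℕ) : ℝ) / D

/-- The mean of `P` with multiplier `vv D`. -/
noncomputable def VV (D : ℕ) (P : ℂ[X]) : ℂ[X] :=
  ∑ n ∈ P.support, monomial n ((vv D n : ℂ) * P.coeff n)

theorem coeff_VV (D : ℕ) (P : ℂ[X]) (n : ℕ) : (VV D P).coeff n = (vv D n : ℂ) * P.coeff n := by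
  unfold VV
  rw [finsetSum_coeff]
  simp only [coeff_monomial]
  rw [Finset.sum_ite_eq']
  split_ifs with h
  · rfl
  · rw [notMem_support_iff.1 h, mul_zero]

/-- The mean of the previous group. -/
noncomputable def prevV (a : ℕ → ℕ) : ℕ → ℂ[X] → ℂ[X]
  | 0, _ => 0
  | g + 1, P => VV (4 ^ a g) P

/-- Lower end of the rows of group `g`. -/
def LL (a : ℕ → ℕ) : ℕ → ℕ
  | 0 => 0
  | g + 1 => 4 * 4 ^ a g

/-- The multiplier of group `g`. -/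
noncomputable def ww (a : ℕ → ℕ) : ℕ → ℕ → ℝ
  | 0, n => vv (4 ^ a 0) n
  | g + 1, n => vv (4 ^ a (g + 1)) n - vv (4 ^ a g) n

/-- The matrix multiplier of group `g`. -/
noncomputable def beta (a : ℕ → ℕ) (g m k : ℕ) : ℂ :=
  (1 + if k < LL a g then 1 else 0) * (ww a g (m + k) : ℂ)

/-- The rows of group `g`. -/
def JJ (a : ℕ → ℕ) (N g : ℕ) : Finset ℕ :=
  (range N).filter fun m => LL a g ≤ m ∧ m < 9 * 4 ^ a g

/-- The piece of group `g` of the matrix `w m * u m k * w k`. -/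
noncomputable def piece (a : ℕ → ℕ) (N : ℕ) (w : ℕ → ℝ) (u : ℕ → ℕ → ℂ) (g : ℕ) : ℂ[X] :=
  pol (JJ a N g) (range N) id id fun m k => (w m : ℂ) * (u m k * beta a g m k) * (w k : ℂ)

/-- Convolution of two matrices. -/
noncomputable def conv (γ γ' : ℕ → ℕ → ℂ) (p q : ℕ) : ℂ :=
  ∑ m ∈ range (p + 1), ∑ k ∈ range (q + 1), γ m k * γ' (p - m) (q - k)

def S_PUSH : Prop := ∀ (ι κ : Type) (s : Finset ι) (t : Finset κ) (ρ : ι → ℕ) (σ : κ → ℕ)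
  (g : ι → κ → ℂ) (M : ℝ),
  (∀ x y : ℕ → ℂ, (∀ i, ‖x i‖ ≤ 1) → (∀ k, ‖y k‖ ≤ 1) →
    ‖∑ i ∈ s, ∑ k ∈ t, g i k * x (ρ i) * y (σ k)‖ ≤ M) → Rep (pol s t ρ σ g) M

def S_COEF : Prop := ∀ (γ : ℕ → ℕ → ℂ) (N : ℕ), (∀ m k, N ≤ m ∨ N ≤ k → γ m k = 0) →
  ∀ n, (pol (range N) (range N) id id γ).coeff n = ∑ j ∈ range (n + 1), γ j (n - j)

def S_GT : Prop := ∀ (ι κ H : Type) (s : Finset ι) (t : Finset κ) (h : Finset H) (g : ι → κ → ℂ)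
  (M α β : ℝ) (X : ι → H → ℂ) (Y : κ → H → ℂ), InjB s t g M → 0 ≤ α → 0 ≤ β →
  (∀ i ∈ s, ∑ e ∈ h, ‖X i e‖ ^ 2 ≤ α ^ 2) → (∀ k ∈ t, ∑ e ∈ h, ‖Y k e‖ ^ 2 ≤ β ^ 2) →
  ‖∑ i ∈ s, ∑ k ∈ t, g i k * ∑ e ∈ h, X i e * Y k e‖ ≤ 128 * M * α * β

def S_FAC : Prop := ∀ (N : ℕ) (γ : ℕ → ℕ → ℂ) (M : ℝ), InjB (range N) (range N) γ M →
  ∃ p : ℕ → ℝ, (∀ m, 0 ≤ p m) ∧ ∑ m ∈ range N, p m ≤ 1 ∧ ∀ x y : ℕ → ℂ,
    ‖∑ m ∈ range N, ∑ k ∈ range N, γ m k * x m * y k‖ ≤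
      256 * M * √(∑ m ∈ range N, p m * ‖x m‖ ^ 2) * √(∑ k ∈ range N, p k * ‖y k‖ ^ 2)

def S_NORM : Prop := ∀ (N : ℕ) (γ : ℕ → ℕ → ℂ) (M : ℝ), InjB (range N) (range N) γ M →
  ∃ (w : ℕ → ℝ) (u : ℕ → ℕ → ℂ), ∑ m ∈ range N, w m ^ 2 ≤ 1 ∧
    OpB (range N) (range N) u (256 * M) ∧
    ∀ m < N, ∀ k < N, γ m k = (w m : ℂ) * u m k * (w k : ℂ)

def S_SYM : Prop := ∀ (N : ℕ) (γ γ' : ℕ → ℕ → ℂ) (A B : ℝ), InjB (range N) (range N) γ A →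
  InjB (range N) (range N) γ' B →
  ∃ (w : ℕ → ℝ) (u u' : ℕ → ℕ → ℂ), ∑ m ∈ range N, w m ^ 2 ≤ 1 ∧
    OpB (range N) (range N) u (512 * A) ∧ OpB (range N) (range N) u' (512 * B) ∧
    (∀ m k, u m k = u k m) ∧ (∀ m k, u' m k = u' k m) ∧
    pol (range N) (range N) id id γ =
      pol (range N) (range N) id id (fun m k => (w m : ℂ) * u m k * (w k : ℂ)) ∧
    pol (range N) (range N) id id γ' =
      pol (range N) (range N) id id (fun m k => (w m : ℂ) * u' m k * (w k : ℂ))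

def S_LB : Prop := ∀ (P : ℂ[X]) (b : ℝ), SupB P b → ∀ R S : ℕ,
  OpB (range R) (range S) (fun j l => P.coeff (j + l)) b

def S_TENS : Prop := ∀ (ι κ ι' κ' : Type) (s : Finset ι) (t : Finset κ) (s' : Finset ι')
  (t' : Finset κ') (u : ι → κ → ℂ) (v : ι' → κ' → ℂ) (K K' : ℝ), 0 ≤ K → 0 ≤ K' →
  OpB s t u K → OpB s' t' v K' →
  OpB (s ×ˢ s') (t ×ˢ t') (fun i k => u i.1 k.1 * v i.2 k.2) (K * K')

open Classical in
def S_NEAR : Prop := ∀ (N : ℕ) (u u' : ℕ → ℕ → ℂ) (K K' : ℝ) (lab : ℕ → ℕ)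
  (χ χ' : ℕ → ℕ → Prop) (x y : ℕ → ℕ → ℂ), 0 ≤ K → 0 ≤ K' →
  OpB (range N) (range N) u K → OpB (range N) (range N) u' K' →
  (∀ k g g', g ≤ g' → χ g k → χ g' k) → (∀ k g g', g ≤ g' → χ' g k → χ' g' k) →
  (∀ m m', lab m ≠ lab m' → x m m' = 0) →
  ‖∑ m ∈ range N, ∑ m' ∈ range N, ∑ k ∈ range N, ∑ k' ∈ range N,
      (u m k * if χ (lab m) k then 1 else 0) * (u' m' k' * if χ' (lab m') k' then 1 else 0) *
        x m m' * y k k'‖ ≤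
    2 * K * K' * √(∑ m ∈ range N, ∑ m' ∈ range N, ‖x m m'‖ ^ 2) *
      √(∑ k ∈ range N, ∑ k' ∈ range N, ‖y k k'‖ ^ 2)

def S_FAR : Prop := ∀ (N D : ℕ) (J : Finset ℕ) (w : ℕ → ℝ) (u : ℕ → ℕ → ℂ) (K b : ℝ) (Q : ℂ[X]),
  1 ≤ D → (∀ m ∈ J, D ≤ m + 1) → 0 ≤ K → OpB J (range N) u K → ∑ k ∈ range N, w k ^ 2 ≤ 1 →
  SupB Q b →
  Rep (pol J (range N) id id (fun m k => (w m : ℂ) * u m k * (w k : ℂ)) * VV D Q)
    (3 * K * √(∑ m ∈ J, w m ^ 2) * b)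

open Classical in
def S_DEC : Prop := ∀ (a : ℕ → ℕ) (T : ℕ), Monotone a →
  ∃ (E : Type) (h : Finset E) (ε : E → ℝ) (ρ : E → ℕ → ℕ → ℂ) (χ : E → ℕ → ℕ → Prop),
    ∑ e ∈ h, |ε e| ≤ 80 ∧ (∀ e g m, ‖ρ e g m‖ ≤ 1) ∧
    (∀ e k g g', g ≤ g' → χ e g k → χ e g' k) ∧
    ∀ g m k, a g ≤ T →
      beta a g m k = ∑ e ∈ h, (ε e : ℂ) * ρ e g m * if χ e g k then 1 else 0

def S_OPB : Prop := ∀ (a : ℕ → ℕ) (N g : ℕ) (u : ℕ → ℕ → ℂ) (K : ℝ), Monotone a → 0 ≤ K →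
  OpB (range N) (range N) u K →
  OpB (JJ a N g) (range N) (fun m k => u m k * beta a g m k) (80 * K)

def S_W : Prop := ∀ (a : ℕ → ℕ) (N g : ℕ) (w : ℕ → ℝ) (u : ℕ → ℕ → ℂ), Monotone a →
  (∀ m k, u m k = u k m) →
  VV (4 ^ a g) (pol (range N) (range N) id id fun m k => (w m : ℂ) * u m k * (w k : ℂ)) -
    prevV a g (pol (range N) (range N) id id fun m k => (w m : ℂ) * u m k * (w k : ℂ)) =
      piece a N w u g

def S_GRP : Prop := ∀ (N R : ℕ) (p : ℕ → ℝ), 1 ≤ R → (∀ m, 0 ≤ p m) → ∑ m ∈ range N, p m ≤ 1 →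
  ∃ (r : ℕ) (a : ℕ → ℕ), StrictMono a ∧ a 0 = 0 ∧ N ≤ 4 ^ a r ∧ r ≤ 4 * R ∧
    ∀ g < r, a (g + 1) = a g + 1 ∨ ∑ m ∈ JJ a N (g + 1), p m ≤ 1 / (R : ℝ)

def S_DISJ : Prop := ∀ (a : ℕ → ℕ) (N g g' : ℕ), StrictMono a → g + 2 ≤ g' →
  Disjoint (JJ a N g) (JJ a N g')

def S_NEAR2 : Prop := ∀ (a : ℕ → ℕ) (N : ℕ) (G : Finset ℕ) (w : ℕ → ℝ) (u u' : ℕ → ℕ → ℂ)
  (K K' η : ℝ), Monotone a → 0 ≤ K → 0 ≤ K' → 0 ≤ η →
  OpB (range N) (range N) u K → OpB (range N) (range N) u' K' → ∑ k ∈ range N, w k ^ 2 ≤ 1 →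
  (∀ g ∈ G, ∀ g' ∈ G, g ≠ g' → Disjoint (JJ a N g) (JJ a N g')) →
  (∀ g ∈ G, ∑ m ∈ JJ a N g, w m ^ 2 ≤ η) →
  Rep (∑ g ∈ G, piece a N w u g * piece a N w u' g) (12800 * K * K' * √η)

def S_FIN : Prop := ∃ C : ℝ, 0 < C ∧ ∀ (N R : ℕ) (γ γ' : ℕ → ℕ → ℂ) (A B a b : ℝ), 1 ≤ R →
  InjB (range N) (range N) γ A → InjB (range N) (range N) γ' B →
  SupB (pol (range N) (range N) id id γ) a → SupB (pol (range N) (range N) id id γ') b →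
  Rep (pol (range N) (range N) id id γ * pol (range N) (range N) id id γ')
    (C * (√R * (A * b + a * B) + A * B / √R))

def S_CONV : Prop := ∀ (γ γ' : ℕ → ℕ → ℂ) (M M' : ℝ), (∀ N, InjB (range N) (range N) γ M) →
  (∀ N, InjB (range N) (range N) γ' M') →
  (∀ N, InjB (range N) (range N) (conv γ γ') (65536 * M * M')) ∧
  ∀ n, ∑ j ∈ range (n + 1), conv γ γ' j (n - j) =
    ∑ i ∈ range (n + 1), (∑ j ∈ range (i + 1), γ j (i - j)) *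
      ∑ j ∈ range (n - i + 1), γ' j (n - i - j)

def S_SUP : Prop := ∀ (γ : ℕ → ℕ → ℂ) (M : ℝ), (∀ N, InjB (range N) (range N) γ M) →
  ∀ z : ℂ, ‖z‖ < 1 → Summable (fun n : ℕ => (∑ j ∈ range (n + 1), γ j (n - j)) * z ^ n) ∧
    ‖∑' n : ℕ, (∑ j ∈ range (n + 1), γ j (n - j)) * z ^ n‖ ≤ M

def S_LIM : Prop := ∃ C : ℝ, 0 < C ∧ ∀ (R : ℕ) (φ ψ : PowerSeries ℂ) (A B a b : ℝ), 1 ≤ R →
  0 ≤ a → 0 ≤ b → xNorm φ < ENNReal.ofReal A → xNorm ψ < ENNReal.ofReal B →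
  supNorm φ ≤ ENNReal.ofReal a → supNorm ψ ≤ ENNReal.ofReal b →
  xNorm (φ * ψ) ≤ ENNReal.ofReal (C * (√R * (A * b + a * B) + A * B / √R))

def S_UP : Prop := ∃ C : NNReal, ∀ φ ψ : PowerSeries ℂ, xNorm φ ≠ ∞ → xNorm ψ ≠ ∞ →
  xNorm (φ * ψ) ^ 2 ≤ C * xNorm φ * xNorm ψ * (xNorm φ * supNorm ψ + supNorm φ * xNorm ψ)

/-- The root of unity of order `M`. -/
noncomputable def om (M : ℕ) : ℂ := Complex.exp (2 * Real.pi * Complex.I / M)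

/-- The bump at the point `om M ^ c`. -/
noncomputable def bump (M c : ℕ) : ℂ[X] :=
  (∑ s ∈ range M, monomial s ((M : ℂ)⁻¹ * (om M)⁻¹ ^ (c * s))) ^ 2

/-- The test polynomial with frequencies `f c`. -/
noncomputable def tst (M : ℕ) (f : ℕ → ℕ) : ℂ[X] := ∑ c ∈ range M, X ^ f c * bump M c

/-- The trapezoid around `n₀`. -/
noncomputable def trap (M n₀ n : ℕ) : ℂ :=
  (((range M).filter fun t => n₀ ≤ n + t ∧ n + t < n₀ + 5 * M).card : ℂ) / M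

/-- High frequencies. -/
def fH (m c : ℕ) : ℕ := 8 * m ^ 3 * 8 ^ (2 * m * (c / m ^ 2) + m + c / m % m)

/-- Low frequencies. -/
def fL (m c : ℕ) : ℕ := 8 * m ^ 3 * 8 ^ (2 * m * (c / m ^ 2) + c % m)

def S_LOWA : Prop := ∀ (M n : ℕ) (f : ℕ → ℕ), 1 ≤ M → ((range M).image f).card ≤ n →
  Rep (tst M f) √n ∧ ∀ z : ℂ, ‖z‖ ≤ 1 → ‖(tst M f).eval z‖ ≤ 1

def S_PAIR : Prop := ∀ (M N : ℕ) (f f' : ℕ → ℕ), 1 ≤ M → (∀ c, 8 * M ∣ f c) →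
  (∀ c, 8 * M ∣ f' c) → (∀ c < M, f c + f' c + 5 * M ≤ N) →
  ∑ n ∈ range N, (∑ c ∈ range M, om M ^ (c * n) * trap M (f c + f' c) n) *
    (tst M f * tst M f').coeff n = M

open Classical in
def S_REG : Prop := ∀ (M N α β : ℕ) (F : ℕ → ℕ) (A B : ℕ → ℕ → Prop) (γ : ℕ → ℕ → ℂ) (I : ℝ),
  1 ≤ M → InjB (range N) (range N) γ I →
  (∀ p, ((range M).filter fun c => A c p).card ≤ α) →
  (∀ q, ((range M).filter fun c => B c q).card ≤ β) →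
  ‖∑ p ∈ range N, ∑ q ∈ range N, γ p q * ∑ c ∈ range M,
      (if A c p ∧ B c q then 1 else 0) * (om M ^ (c * (p + q)) * trap M (F c) (p + q))‖ ≤
    128 * I * √(5 * α * β)

/-- Lower end of the frequencies of the group of `c`. -/
def fQ (m c : ℕ) : ℕ := 2 * m ^ 3 * 8 ^ (2 * m * (c / m ^ 2))

def S_CNT : Prop := ∀ m : ℕ, 1 ≤ m →
  ((range (m ^ 3)).image (fH m)).card ≤ m ^ 2 ∧ ((range (m ^ 3)).image (fL m)).card ≤ m ^ 2 ∧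
  (∀ p, ((range (m ^ 3)).filter fun c => fH m c + fL m c < p + m ^ 3 + fQ m c ∧
    p < fH m c + fL m c + 5 * m ^ 3).card ≤ 1) ∧
  (∀ p, ((range (m ^ 3)).filter fun c => fH m c ≤ 2 * p ∧
    p < fH m c + fL m c + 5 * m ^ 3).card ≤ m) ∧
  (∀ q, ((range (m ^ 3)).filter fun c => fQ m c ≤ q ∧
    q < fH m c + fL m c + 5 * m ^ 3).card ≤ m ^ 2)

def S_LOW : Prop := ∀ m : ℕ, ∃ φ ψ : PowerSeries ℂ, supNorm φ ≤ 1 ∧ supNorm ψ ≤ 1 ∧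
  xNorm φ ≤ m ∧ xNorm ψ ≤ m ∧ (m : ℝ≥0∞) ^ 3 ≤ 1200 ^ 2 * xNorm (φ * ψ) ^ 2

theorem Rep.mono {P : ℂ[X]} {M M' : ℝ} (h : Rep P M) (hM : M ≤ M') : Rep P M' := by
  obtain ⟨γ, N, h1, h2, h3⟩ := h
  exact ⟨γ, N, h1, h2, fun N' x y hx hy => (h3 N' x y hx hy).trans hM⟩

theorem Rep.zero : Rep 0 0 :=
  ⟨fun _ _ => 0, 0, fun _ _ _ => rfl, fun n => by simp, fun N' x y _ _ => by simp⟩

theorem Rep.add {P Q : ℂ[X]} {M M' : ℝ} (h : Rep P M) (h' : Rep Q M') : Rep (P + Q) (M + M') := by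
  obtain ⟨γ, N, h1, h2, h3⟩ := h
  obtain ⟨γ', N₁, h1', h2', h3'⟩ := h'
  refine ⟨fun m k => γ m k + γ' m k, max N N₁, fun m k hmk => ?_, fun n => ?_,
    fun N' x y hx hy => ?_⟩
  · have e1 : γ m k = 0 := h1 m k (by omega)
    have e2 : γ' m k = 0 := h1' m k (by omega)
    simp [e1, e2]
  · rw [coeff_add, h2, h2', ← Finset.sum_add_distrib]
  · simp only [add_mul, Finset.sum_add_distrib]
    exact (norm_add_le _ _).trans (add_le_add (h3 N' x y hx hy) (h3' N' x y hx hy))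

theorem Rep.sum {ι : Type} (s : Finset ι) (P : ι → ℂ[X]) (M : ι → ℝ)
    (h : ∀ i ∈ s, Rep (P i) (M i)) : Rep (∑ i ∈ s, P i) (∑ i ∈ s, M i) := by
  classical
  induction s using Finset.induction_on with
  | empty => simpa using Rep.zero
  | insert i s hi ih =>
    rw [Finset.sum_insert hi, Finset.sum_insert hi]
    exact (h i (mem_insert_self _ _)).add (ih fun j hj => h j (mem_insert_of_mem hj))

theorem InjB.nonneg {ι κ : Type} {s : Finset ι} {t : Finset κ} {g : ι → κ → ℂ} {M : ℝ}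
    (h : InjB s t g M) : 0 ≤ M :=
  (norm_nonneg _).trans (h (fun _ => 0) (fun _ => 0) (by simp) (by simp))

theorem SupB.nonneg {P : ℂ[X]} {b : ℝ} (h : SupB P b) : 0 ≤ b :=
  (norm_nonneg _).trans (h 1 (by simp))

end Pool.Agent.MP_fe3998_an.PR
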