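import Mathlib
import Pool.Agent.MP_fe3998_an.PR.Spec

/-! The inequality of Grothendieck with constant 128, by truncation of random sign sums. -/

set_option autoImplicit false

namespace Pool.Agent.MP_fe3998_an.PR

open Finset Filter Topology

namespace GT

open Classical in
/-- The signed sum. -/
noncomputable def rs {H : Type} (h : Finset H) (X : H → ℂ) (A : Finset H) : ℂ :=
  ∑ e ∈ h, (if e ∈ A then -1 else 1) * X e

section signs

variable {H : Type} [DecidableEq H]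

theorem rs_one {h A : Finset H} {a : H} (ha : a ∉ h) (hA : A ∈ h.powerset) (X : H → ℂ) :
    rs (insert a h) X A = X a + rs h X A := by
  unfold rs
  rw [sum_insert ha, if_neg (fun h1 => ha (mem_powerset.1 hA h1)), one_mul]

theorem rs_two {h A : Finset H} {a : H} (ha : a ∉ h) (X : H → ℂ) :
    rs (insert a h) X (insert a A) = -X a + rs h X A := by
  unfold rs
  rw [sum_insert ha, if_pos (mem_insert_self _ _), neg_one_mul]
  congr 1
  refine sum_congr rfl fun e he => ?_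
  have : e ≠ a := fun h1 => ha (h1 ▸ he)
  simp [this]

theorem sum_ins {R : Type} [AddCommMonoid R] {h : Finset H} {a : H} (ha : a ∉ h)
    (F : ℂ → ℂ → R) (X Y : H → ℂ) :
    ∑ A ∈ (insert a h).powerset, F (rs (insert a h) X A) (rs (insert a h) Y A) =
      ∑ A ∈ h.powerset, (F (X a + rs h X A) (Y a + rs h Y A) +
        F (-X a + rs h X A) (-Y a + rs h Y A)) := by
  rw [sum_powerset_insert ha, sum_add_distrib]
  congr 1
  · exact sum_congr rfl fun A hA => by rw [rs_one ha hA, rs_one ha hA]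
  · exact sum_congr rfl fun A _ => by rw [rs_two ha, rs_two ha]

theorem orth (h : Finset H) (X Y : H → ℂ) :
    ∑ A ∈ h.powerset, rs h X A * rs h Y A = 2 ^ h.card * ∑ e ∈ h, X e * Y e := by
  induction h using Finset.induction_on with
  | empty => simp [rs]
  | insert a h ha ih =>
    rw [sum_ins ha (fun u v => u * v), sum_insert ha, card_insert_of_notMem ha]
    have : ∀ A, (X a + rs h X A) * (Y a + rs h Y A) + (-X a + rs h X A) * (-Y a + rs h Y A)
        = 2 * (X a * Y a) + 2 * (rs h X A * rs h Y A) := fun A => by ring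
    simp only [this]
    rw [sum_add_distrib, ← mul_sum _ (fun A => rs h X A * rs h Y A), ih, sum_const, card_powerset, nsmul_eq_mul]
    push_cast
    ring

theorem para (x r : ℂ) : ‖x + r‖ ^ 2 + ‖-x + r‖ ^ 2 = 2 * ‖x‖ ^ 2 + 2 * ‖r‖ ^ 2 := by
  simp only [Complex.sq_norm, Complex.normSq_apply, Complex.add_re, Complex.add_im, Complex.neg_re,
    Complex.neg_im]
  ring

theorem para4 (x r : ℂ) : ‖x + r‖ ^ 4 + ‖-x + r‖ ^ 4 ≤
    2 * ‖x‖ ^ 4 + 12 * ‖x‖ ^ 2 * ‖r‖ ^ 2 + 2 * ‖r‖ ^ 4 := by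
  have h1 := para x r
  have h2 : ‖x + r‖ ^ 2 ≤ (‖x‖ + ‖r‖) ^ 2 := pow_le_pow_left₀ (norm_nonneg _) (norm_add_le _ _) 2
  have h3 : ‖-x + r‖ ^ 2 ≤ (‖x‖ + ‖r‖) ^ 2 :=
    pow_le_pow_left₀ (norm_nonneg _) ((norm_add_le _ _).trans (by rw [norm_neg])) 2
  have e1 : ‖x + r‖ ^ 4 = (‖x + r‖ ^ 2) ^ 2 := by ring
  have e2 : ‖-x + r‖ ^ 4 = (‖-x + r‖ ^ 2) ^ 2 := by ring
  rw [e1, e2]
  generalize ‖x + r‖ ^ 2 = p at *
  generalize ‖-x + r‖ ^ 2 = q at *
  generalize ‖x‖ = a at *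
  generalize ‖r‖ = b at *
  have h4 : (p - q) ^ 2 ≤ (4 * a * b) ^ 2 := sq_le_sq' (by nlinarith) (by nlinarith)
  have h5 : (p + q) ^ 2 = (2 * a ^ 2 + 2 * b ^ 2) ^ 2 := by rw [h1]
  nlinarith

theorem mom2 (h : Finset H) (X : H → ℂ) :
    ∑ A ∈ h.powerset, ‖rs h X A‖ ^ 2 = 2 ^ h.card * ∑ e ∈ h, ‖X e‖ ^ 2 := by
  induction h using Finset.induction_on with
  | empty => simp [rs]
  | insert a h ha ih =>
    rw [sum_ins ha (fun u _ => ‖u‖ ^ 2) X X, sum_insert ha, card_insert_of_notMem ha]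
    simp only [para]
    rw [sum_add_distrib, ← mul_sum _ (fun A => ‖rs h X A‖ ^ 2), ih, sum_const, card_powerset, nsmul_eq_mul]
    push_cast
    ring

theorem mom4 (h : Finset H) (X : H → ℂ) :
    ∑ A ∈ h.powerset, ‖rs h X A‖ ^ 4 ≤ 3 * 2 ^ h.card * (∑ e ∈ h, ‖X e‖ ^ 2) ^ 2 := by
  induction h using Finset.induction_on with
  | empty => simp [rs]
  | insert a h ha ih =>
    rw [sum_ins ha (fun u _ => ‖u‖ ^ 4) X X, sum_insert ha, card_insert_of_notMem ha]
    refine (sum_le_sum fun A _ => para4 _ _).trans ?_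
    rw [sum_add_distrib, sum_add_distrib, ← mul_sum _ (fun A => ‖rs h X A‖ ^ 2),
      ← mul_sum _ (fun A => ‖rs h X A‖ ^ 4), mom2, sum_const, card_powerset, nsmul_eq_mul]
    push_cast
    have h1 : (0 : ℝ) ≤ 2 ^ h.card * ‖X a‖ ^ 4 := by positivity
    rw [pow_succ (2 : ℝ) h.card]
    linarith

end signs

/-- The part up to `c`. -/
noncomputable def tr (c : ℝ) (z : ℂ) : ℂ := if ‖z‖ ≤ c then z else 0

/-- The part beyond `c`. -/
noncomputable def tl (c : ℝ) (z : ℂ) : ℂ := if ‖z‖ ≤ c then 0 else z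

theorem tr_add (c : ℝ) (z : ℂ) : tr c z + tl c z = z := by
  unfold tr tl; split_ifs <;> simp

theorem tr_le {c : ℝ} (hc : 0 ≤ c) (z : ℂ) : ‖tr c z‖ ≤ c := by
  unfold tr; split_ifs with h
  · exact h
  · simpa using hc

theorem full {H : Type} (h : Finset H) (X : H → ℂ) {α : ℝ} (hX : ∑ e ∈ h, ‖X e‖ ^ 2 ≤ α ^ 2) :
    ∑ A ∈ h.powerset, ‖rs h X A‖ ^ 2 ≤ (√(2 ^ h.card) * α) ^ 2 := by
  classical
  rw [mom2, mul_pow, Real.sq_sqrt (by positivity)]
  exact mul_le_mul_of_nonneg_left hX (by positivity)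

theorem head {H : Type} (h : Finset H) (X : H → ℂ) {α : ℝ} (c : ℝ)
    (hX : ∑ e ∈ h, ‖X e‖ ^ 2 ≤ α ^ 2) :
    ∑ A ∈ h.powerset, ‖tr c (rs h X A)‖ ^ 2 ≤ (√(2 ^ h.card) * α) ^ 2 := by
  refine le_trans (sum_le_sum fun A _ => ?_) (full h X hX)
  unfold tr; split_ifs
  · exact le_rfl
  · simp

theorem tail {H : Type} (h : Finset H) (X : H → ℂ) {α : ℝ} (hα : 0 ≤ α)
    (hX : ∑ e ∈ h, ‖X e‖ ^ 2 ≤ α ^ 2) :
    ∑ A ∈ h.powerset, ‖tl (8 * α) (rs h X A)‖ ^ 2 ≤ (√(2 ^ h.card) * α / 4) ^ 2 := by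
  classical
  rcases hα.eq_or_lt with h0 | h0
  · subst h0
    refine le_trans (sum_le_sum fun A _ => ?_) ((full h X hX).trans (by simp))
    unfold tl; split_ifs
    · simp
    · exact le_rfl
  have h1 : 64 * α ^ 2 * ∑ A ∈ h.powerset, ‖tl (8 * α) (rs h X A)‖ ^ 2 ≤
      ∑ A ∈ h.powerset, ‖rs h X A‖ ^ 4 := by
    rw [mul_sum]
    refine sum_le_sum fun A _ => ?_
    unfold tl; split_ifs with h2
    · simp
    · have h3 : (8 * α) ^ 2 ≤ ‖rs h X A‖ ^ 2 :=
        pow_le_pow_left₀ (by positivity) (not_le.1 h2).le 2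
      nlinarith [sq_nonneg ‖rs h X A‖]
  have h2 : (∑ e ∈ h, ‖X e‖ ^ 2) ^ 2 ≤ (α ^ 2) ^ 2 := pow_le_pow_left₀ (by positivity) hX 2
  have h3 := (h1.trans (mom4 h X)).trans (mul_le_mul_of_nonneg_left h2 (by positivity))
  rw [div_pow, mul_pow, Real.sq_sqrt (by positivity)]
  have h4 : 0 < 64 * α ^ 2 := by positivity
  refine le_of_mul_le_mul_left (h3.trans ?_) h4
  have h5 : (0 : ℝ) ≤ 2 ^ h.card * α ^ 4 := by positivity
  nlinarith

variable {ι κ : Type} {s : Finset ι} {t : Finset κ} {g : ι → κ → ℂ} {M : ℝ}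

theorem injS (hg : InjB s t g M) {a b : ℝ} (ha : 0 ≤ a) (hb : 0 ≤ b) (x : ι → ℂ) (y : κ → ℂ)
    (hx : ∀ i, ‖x i‖ ≤ a) (hy : ∀ k, ‖y k‖ ≤ b) :
    ‖∑ i ∈ s, ∑ k ∈ t, g i k * x i * y k‖ ≤ M * a * b := by
  rcases ha.eq_or_lt with h0 | h0
  · subst h0
    have : ∀ i, x i = 0 := fun i => norm_le_zero_iff.1 (hx i)
    simp [this]
  rcases hb.eq_or_lt with h1 | h1
  · subst h1
    have : ∀ k, y k = 0 := fun k => norm_le_zero_iff.1 (hy k)
    simp [this]
  have h2 := hg (fun i => x i / a) (fun k => y k / b)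
    (fun i => by rw [norm_div, Complex.norm_of_nonneg ha, div_le_one h0]; exact hx i)
    (fun k => by rw [norm_div, Complex.norm_of_nonneg hb, div_le_one h1]; exact hy k)
  have ea : (a : ℂ) ≠ 0 := by exact_mod_cast h0.ne'
  have eb : (b : ℂ) ≠ 0 := by exact_mod_cast h1.ne'
  have e : ∑ i ∈ s, ∑ k ∈ t, g i k * x i * y k =
      (a : ℂ) * b * ∑ i ∈ s, ∑ k ∈ t, g i k * (x i / a) * (y k / b) := by
    simp only [mul_sum]
    exact sum_congr rfl fun i _ => sum_congr rfl fun k _ => by field_simp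
  rw [e, norm_mul, norm_mul, Complex.norm_of_nonneg ha, Complex.norm_of_nonneg hb]
  have := mul_le_mul_of_nonneg_left h2 (mul_nonneg ha hb)
  linarith

/-- The vector bound with constant `K`. -/
def Bd (s : Finset ι) (t : Finset κ) (g : ι → κ → ℂ) (K : ℝ) : Prop :=
  ∀ (H : Type) (h : Finset H) (α β : ℝ) (X : ι → H → ℂ) (Y : κ → H → ℂ), 0 ≤ α → 0 ≤ β →
    (∀ i ∈ s, ∑ e ∈ h, ‖X i e‖ ^ 2 ≤ α ^ 2) → (∀ k ∈ t, ∑ e ∈ h, ‖Y k e‖ ^ 2 ≤ β ^ 2) →
    ‖∑ i ∈ s, ∑ k ∈ t, g i k * ∑ e ∈ h, X i e * Y k e‖ ≤ K * α * β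

theorem base : Bd s t g (∑ i ∈ s, ∑ k ∈ t, ‖g i k‖) := by
  intro H h α β X Y hα hβ hX hY
  rw [mul_assoc, sum_mul]
  refine norm_sum_le_of_le _ fun i hi => ?_
  rw [sum_mul]
  refine norm_sum_le_of_le _ fun k hk => ?_
  rw [norm_mul]
  refine mul_le_mul_of_nonneg_left ?_ (norm_nonneg _)
  refine (norm_sum_le _ _).trans ?_
  simp only [norm_mul]
  refine abs_le_of_sq_le_sq' ?_ (mul_nonneg hα hβ) |>.2
  rw [mul_pow]
  exact (sum_mul_sq_le_sq_mul_sq _ _ _).trans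
    (mul_le_mul (hX i hi) (hY k hk) (by positivity) (by positivity))

theorem step (hg : InjB s t g M) {K : ℝ} (hK : Bd s t g K) : Bd s t g (64 * M + K / 2) := by
  classical
  intro H h α β X Y hα hβ hX hY
  have hN : (0 : ℝ) < 2 ^ h.card := by positivity
  have hq : √(2 ^ h.card) * √(2 ^ h.card) = (2 : ℝ) ^ h.card := Real.mul_self_sqrt hN.le
  have hq0 : 0 ≤ √((2 : ℝ) ^ h.card) := Real.sqrt_nonneg _
  have h1 : ‖∑ A ∈ h.powerset, ∑ i ∈ s, ∑ k ∈ t,
      g i k * tr (8 * α) (rs h (X i) A) * tr (8 * β) (rs h (Y k) A)‖ ≤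
      2 ^ h.card * (M * (8 * α) * (8 * β)) := by
    refine (norm_sum_le_of_le _ fun A _ => injS hg (by positivity) (by positivity) _ _
      (fun i => tr_le (by positivity) _) (fun k => tr_le (by positivity) _)).trans ?_
    rw [sum_const, card_powerset, nsmul_eq_mul]
    push_cast
    exact le_rfl
  have h2 := hK (Finset H) h.powerset _ _ (fun i A => tl (8 * α) (rs h (X i) A))
    (fun k A => tr (8 * β) (rs h (Y k) A)) (by positivity) (by positivity)
    (fun i hi => tail h _ hα (hX i hi)) (fun k hk => head h _ _ (hY k hk))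
  have h3 := hK (Finset H) h.powerset _ _ (fun i A => rs h (X i) A)
    (fun k A => tl (8 * β) (rs h (Y k) A)) (by positivity) (by positivity)
    (fun i hi => full h _ (hX i hi)) (fun k hk => tail h _ hβ (hY k hk))
  have e : (2 : ℂ) ^ h.card * ∑ i ∈ s, ∑ k ∈ t, g i k * ∑ e ∈ h, X i e * Y k e =
      ∑ A ∈ h.powerset, ∑ i ∈ s, ∑ k ∈ t,
        g i k * tr (8 * α) (rs h (X i) A) * tr (8 * β) (rs h (Y k) A) +
      ∑ i ∈ s, ∑ k ∈ t, g i k * ∑ A ∈ h.powerset,
        tl (8 * α) (rs h (X i) A) * tr (8 * β) (rs h (Y k) A) +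
      ∑ i ∈ s, ∑ k ∈ t, g i k * ∑ A ∈ h.powerset, rs h (X i) A * tl (8 * β) (rs h (Y k) A) := by
    rw [sum_comm (s := h.powerset), mul_sum, ← sum_add_distrib, ← sum_add_distrib]
    refine sum_congr rfl fun i _ => ?_
    rw [sum_comm (s := h.powerset), mul_sum, ← sum_add_distrib, ← sum_add_distrib]
    refine sum_congr rfl fun k _ => ?_
    rw [mul_left_comm, ← orth, mul_sum, mul_sum, mul_sum, ← sum_add_distrib, ← sum_add_distrib]
    refine sum_congr rfl fun A _ => ?_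
    have e1 := tr_add (8 * α) (rs h (X i) A)
    have e2 := tr_add (8 * β) (rs h (Y k) A)
    linear_combination (-(g i k) * tr (8 * β) (rs h (Y k) A)) * e1 - (g i k * rs h (X i) A) * e2
  have h4 := (norm_add₃_le).trans (add_le_add (add_le_add h1 h2) h3)
  rw [← e, norm_mul, norm_pow, Complex.norm_ofNat] at h4
  refine le_of_mul_le_mul_left (h4.trans (le_of_eq ?_)) hN
  linear_combination (K * α * β / 2) * hq

end GT

theorem gt : S_GT := by
  intro ι κ H s t h g M α β X Y hg hα hβ hX hY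
  have hM := hg.nonneg
  set S := ∑ i ∈ s, ∑ k ∈ t, ‖g i k‖ with hS
  have h1 : ∀ n : ℕ, GT.Bd s t g (128 * M + S * (1 / 2) ^ n) := by
    intro n
    induction n with
    | zero =>
      intro H h α β X Y hα hβ hX hY
      refine (GT.base H h α β X Y hα hβ hX hY).trans ?_
      have : 0 ≤ M * α * β := by positivity
      rw [← hS]
      nlinarith
    | succ n ih =>
      have := GT.step hg ih
      rwa [show 64 * M + (128 * M + S * (1 / 2) ^ n) / 2 = 128 * M + S * (1 / 2) ^ (n + 1) by ring]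
        at this
  have h2 : Tendsto (fun n : ℕ => (128 * M + S * (1 / 2 : ℝ) ^ n) * α * β) atTop
      (𝓝 ((128 * M + S * 0) * α * β)) :=
    ((((tendsto_pow_atTop_nhds_zero_of_lt_one (by norm_num) (by norm_num)).const_mul S).const_add
      _).mul_const _).mul_const _
  rw [mul_zero, add_zero] at h2
  exact ge_of_tendsto' h2 fun n => h1 n H h α β X Y hα hβ hX hY

end Pool.Agent.MP_fe3998_an.PR
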