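import Pool.Agent.MP_fe3998_an.PR.Spec

/-!
The lower example.
-/

set_option autoImplicit false

namespace Pool.Agent.MP_fe3998_an.PR

open Finset Polynomial
open scoped ENNReal

namespace LOW

theorem xNorm_le {P : ℂ[X]} {M : ℝ} (h : Rep P M) :
    xNorm (P : PowerSeries ℂ) ≤ ENNReal.ofReal M := by
  obtain ⟨γ, N, h1, h2, h3⟩ := h
  refine iInf_le_of_le γ (iInf_le_of_le (fun ε hε => ⟨N, γ, h1, ?_⟩)
    (iInf_le_of_le (fun n => by rw [Polynomial.coeff_coe, h2]) ?_))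
  · refine lt_of_le_of_lt ?_ hε
    simp [injNorm]
  · refine iSup_le fun N' => iSup_le fun x => iSup_le fun y => iSup_le fun hx =>
      iSup_le fun hy => ?_
    rw [← ofReal_norm]
    exact ENNReal.ofReal_le_ofReal (h3 N' x y hx hy)

theorem supNorm_le {P : ℂ[X]} (h : ∀ z : ℂ, ‖z‖ ≤ 1 → ‖P.eval z‖ ≤ 1) :
    supNorm (P : PowerSeries ℂ) ≤ 1 := by
  refine iSup_le fun z => iSup_le fun hz => ?_
  have e : ∑' n : ℕ, PowerSeries.coeff n (P : PowerSeries ℂ) * z ^ n = P.eval z := by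
    rw [tsum_eq_sum (s := range (P.natDegree + 1)), Polynomial.eval_eq_sum_range]
    · simp only [Polynomial.coeff_coe]
    · intro n hn
      rw [Polynomial.coeff_coe, Polynomial.coeff_eq_zero_of_natDegree_lt (by simpa using hn),
        zero_mul]
  rw [e, ← ofReal_norm, ← ENNReal.ofReal_one]
  exact ENNReal.ofReal_le_ofReal (h z hz.le)

theorem trap_zero {M F n : ℕ} (h : ¬ (F < n + M ∧ n < F + 5 * M)) : trap M F n = 0 := by
  unfold trap
  rw [Finset.filter_eq_empty_iff.2, Finset.card_empty, Nat.cast_zero, zero_div]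
  intro t ht h2
  rw [mem_range] at ht
  omega

theorem facts {m : ℕ} (hm : 1 ≤ m) (c : ℕ) :
    2 * m ^ 3 ≤ fQ m c ∧ 4 * fQ m c ≤ fL m c ∧ fL m c ≤ fH m c := by
  refine ⟨?_, ?_, ?_⟩
  · exact Nat.le_mul_of_pos_right _ (by positivity)
  · unfold fQ fL
    rw [← mul_assoc, ← mul_assoc]
    exact Nat.mul_le_mul_left _ (Nat.pow_le_pow_right (by norm_num) (Nat.le_add_right _ _))
  · unfold fH fL
    refine Nat.mul_le_mul_left _ (Nat.pow_le_pow_right (by norm_num) ?_)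
    have := Nat.mod_lt c hm
    omega

theorem sub (s : Finset ℕ) (B : ℕ → Prop) (d d' : DecidablePred B) :
    @Finset.filter _ B d s ⊆ @Finset.filter _ B d' s :=
  fun _ hc => (@mem_filter _ _ d' _ _).2 ((@mem_filter _ _ d _ _).1 hc)

open Classical in
theorem key (hP : S_PAIR) (hR : S_REG) (hC : S_CNT) {m : ℕ} (hm : 1 ≤ m) (γ : ℕ → ℕ → ℂ) (I : ℝ)
    (hI : ∀ N, InjB (range N) (range N) γ I)
    (hγ : ∀ n, (tst (m ^ 3) (fH m) * tst (m ^ 3) (fL m)).coeff n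
      = ∑ j ∈ range (n + 1), γ j (n - j)) :
    (m : ℝ) ^ 3 ≤ 512 * I * √(5 * m ^ 3) := by
  have hM : 1 ≤ m ^ 3 := Nat.one_le_pow _ _ hm
  set N := (range (m ^ 3)).sup (fun c => fH m c + fL m c + 5 * m ^ 3) with hN
  have hNc : ∀ c < m ^ 3, fH m c + fL m c + 5 * m ^ 3 ≤ N := fun c hc =>
    Finset.le_sup (f := fun c => fH m c + fL m c + 5 * m ^ 3) (mem_range.2 hc)
  have h1 := hP (m ^ 3) N (fH m) (fL m) hM (fun c => Dvd.intro _ rfl) (fun c => Dvd.intro _ rfl)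
    hNc
  let h : ℕ → ℂ := fun n =>
    ∑ c ∈ range (m ^ 3), om (m ^ 3) ^ (c * n) * trap (m ^ 3) (fH m c + fL m c) n
  have h0 : ∀ n, N ≤ n → h n = 0 := fun n hn => Finset.sum_eq_zero fun c hc => by
    have := hNc c (mem_range.1 hc)
    rw [trap_zero (by omega), mul_zero]
  have h2 : ∑ p ∈ range N, ∑ q ∈ range N, γ p q * h (p + q) = ((m ^ 3 : ℕ) : ℂ) := by
    rw [← h1]
    have e1 : ∑ n ∈ range N, h n * (tst (m ^ 3) (fH m) * tst (m ^ 3) (fL m)).coeff n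
        = ∑ n ∈ range N, ∑ j ∈ range (n + 1), γ j (n - j) * h (j + (n - j)) := by
      refine Finset.sum_congr rfl fun n _ => ?_
      rw [hγ, Finset.mul_sum]
      refine Finset.sum_congr rfl fun j hj => ?_
      rw [Nat.add_sub_cancel' (Nat.lt_succ_iff.1 (mem_range.1 hj)), mul_comm]
    refine Eq.trans ?_ e1.symm
    rw [Finset.sum_range_diag_flip N fun p q => γ p q * h (p + q)]
    refine Finset.sum_congr rfl fun p _ => (Finset.sum_subset (range_mono (Nat.sub_le _ _))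
      fun q _ hq => ?_).symm
    rw [h0 _ (by rw [mem_range] at hq; omega), mul_zero]
  obtain ⟨-, -, c1, c2, c3⟩ := hC m hm
  have c0 : ∀ (B : ℕ → Prop), ((range (m ^ 3)).filter B).card ≤ m ^ 3 := fun B =>
    (card_filter_le _ _).trans (card_range _).le
  have c4 : ∀ p, ((range (m ^ 3)).filter fun c => fQ m c ≤ p ∧ 2 * p < fH m c).card ≤ m ^ 2 :=
    fun p => (card_le_card (monotone_filter_right _ fun c _ hc => ⟨hc.1, by omega⟩)).trans (c3 p)
  have r1 := hR (m ^ 3) N 1 (m ^ 3) (fun c => fH m c + fL m c)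
    (fun c p => fH m c + fL m c < p + m ^ 3 + fQ m c ∧ p < fH m c + fL m c + 5 * m ^ 3)
    (fun c q => q < fQ m c) γ I hM (hI N) (fun p => (card_le_card (sub _ _ _ _)).trans (c1 p)) (fun q => c0 _)
  have r2 := hR (m ^ 3) N (m ^ 3) 1 (fun c => fH m c + fL m c) (fun c q => q < fQ m c)
    (fun c p => fH m c + fL m c < p + m ^ 3 + fQ m c ∧ p < fH m c + fL m c + 5 * m ^ 3)
    γ I hM (hI N) (fun q => c0 _) (fun p => (card_le_card (sub _ _ _ _)).trans (c1 p))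
  have r3 := hR (m ^ 3) N m (m ^ 2) (fun c => fH m c + fL m c)
    (fun c p => fH m c ≤ 2 * p ∧ p < fH m c + fL m c + 5 * m ^ 3)
    (fun c q => fQ m c ≤ q ∧ q < fH m c + fL m c + 5 * m ^ 3)
    γ I hM (hI N) (fun p => (card_le_card (sub _ _ _ _)).trans (c2 p)) (fun q => (card_le_card (sub _ _ _ _)).trans (c3 q))
  have r4 := hR (m ^ 3) N (m ^ 2) m (fun c => fH m c + fL m c)
    (fun c p => fQ m c ≤ p ∧ 2 * p < fH m c)
    (fun c p => fH m c ≤ 2 * p ∧ p < fH m c + fL m c + 5 * m ^ 3)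
    γ I hM (hI N) (fun p => (card_le_card (sub _ _ _ _)).trans (c4 p)) (fun q => (card_le_card (sub _ _ _ _)).trans (c2 q))
  have s1 : (5 * ((1 : ℕ) : ℝ) * ((m ^ 3 : ℕ) : ℝ)) = 5 * (m : ℝ) ^ 3 := by push_cast; ring
  have s2 : (5 * ((m ^ 3 : ℕ) : ℝ) * ((1 : ℕ) : ℝ)) = 5 * (m : ℝ) ^ 3 := by push_cast; ring
  have s3 : (5 * (m : ℝ) * ((m ^ 2 : ℕ) : ℝ)) = 5 * (m : ℝ) ^ 3 := by push_cast; ring
  have s4 : (5 * ((m ^ 2 : ℕ) : ℝ) * (m : ℝ)) = 5 * (m : ℝ) ^ 3 := by push_cast; ring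
  rw [s1] at r1
  rw [s2] at r2
  rw [s3] at r3
  rw [s4] at r4
  have h3 := (norm_add_le_of_le (norm_add_le_of_le (norm_add_le_of_le r1 r2) r3) r4)
  have h4 : ‖((m ^ 3 : ℕ) : ℂ)‖ = (m : ℝ) ^ 3 := by simp
  refine le_trans (le_of_eq (h4.symm.trans ((congrArg _ h2.symm).trans ?_)))
    (h3.trans (le_of_eq (by ring)))
  simp only [← Finset.sum_add_distrib, ← mul_add]
  refine congrArg _ (Finset.sum_congr rfl fun p _ => Finset.sum_congr rfl fun q _ => ?_)
  refine congrArg _ (Finset.sum_congr rfl fun c _ => ?_)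
  simp only [← add_mul]
  by_cases ht : fH m c + fL m c < p + q + m ^ 3 ∧ p + q < fH m c + fL m c + 5 * m ^ 3
  · obtain ⟨f1, f2, f3⟩ := facts hm c
    split_ifs <;> first | omega | simp
  · rw [trap_zero ht]
    simp

end LOW

theorem low (hA : S_LOWA) (hP : S_PAIR) (hR : S_REG) (hC : S_CNT) : S_LOW := by
  intro m
  rcases Nat.eq_zero_or_pos m with rfl | hm
  · have h1 := LOW.xNorm_le Rep.zero
    have h2 := LOW.supNorm_le (P := 0) (by simp)
    exact ⟨((0 : ℂ[X]) : PowerSeries ℂ), ((0 : ℂ[X]) : PowerSeries ℂ), h2, h2, by simpa using h1,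
      by simpa using h1, by simp⟩
  have hM : 1 ≤ m ^ 3 := Nat.one_le_pow _ _ hm
  obtain ⟨a1, a2⟩ := hA (m ^ 3) (m ^ 2) (fH m) hM (hC m hm).1
  obtain ⟨b1, b2⟩ := hA (m ^ 3) (m ^ 2) (fL m) hM (hC m hm).2.1
  have e : ENNReal.ofReal √((m ^ 2 : ℕ) : ℝ) = m := by
    rw [Nat.cast_pow, Real.sqrt_sq (Nat.cast_nonneg m), ENNReal.ofReal_natCast]
  refine ⟨_, _, LOW.supNorm_le a2, LOW.supNorm_le b2, e ▸ LOW.xNorm_le a1, e ▸ LOW.xNorm_le b1, ?_⟩
  have h1 : ENNReal.ofReal (√((m : ℝ) ^ 3) / 1200) ≤ xNorm ((tst (m ^ 3) (fH m) : PowerSeries ℂ)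
      * (tst (m ^ 3) (fL m) : PowerSeries ℂ)) := by
    refine le_iInf fun γ => le_iInf fun _ => le_iInf fun hγ => ?_
    by_cases ht : injNorm γ = ⊤
    · rw [ht]
      exact le_top
    have hI : ∀ N, InjB (range N) (range N) γ (injNorm γ).toReal := by
      intro N x y hx hy
      rw [← ENNReal.ofReal_le_iff_le_toReal ht, ofReal_norm]
      exact le_iSup_of_le N (le_iSup_of_le x (le_iSup_of_le y (le_iSup_of_le hx
        (le_iSup_of_le hy le_rfl))))
    have h2 := LOW.key hP hR hC hm γ _ hI fun n => by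
      rw [← hγ n, ← Polynomial.coe_mul, Polynomial.coeff_coe]
    rw [ENNReal.ofReal_le_iff_le_toReal ht, div_le_iff₀ (by norm_num)]
    have h3 : (0 : ℝ) < (m : ℝ) ^ 3 := by positivity
    have h4 := Real.mul_self_sqrt h3.le
    have h5 : 0 < √((m : ℝ) ^ 3) := Real.sqrt_pos.2 h3
    have h6 : √(5 * (m : ℝ) ^ 3) ≤ 9 / 4 * √((m : ℝ) ^ 3) := by
      rw [Real.sqrt_le_left (by positivity), mul_pow, Real.sq_sqrt h3.le]
      linarith
    have h7 : 0 ≤ (injNorm γ).toReal := ENNReal.toReal_nonneg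
    refine le_of_mul_le_mul_right (a := √((m : ℝ) ^ 3)) ?_ h5
    nlinarith [mul_le_mul_of_nonneg_left h6 h7, mul_nonneg h7 h5.le]
  refine le_trans (le_of_eq ?_) (mul_le_mul' le_rfl (pow_le_pow_left' h1 2))
  rw [← ENNReal.ofReal_pow (by positivity), div_pow, Real.sq_sqrt (by positivity),
    ENNReal.ofReal_div_of_pos (by norm_num), ENNReal.ofReal_pow (by positivity),
    ENNReal.ofReal_pow (by positivity), ENNReal.ofReal_natCast, ENNReal.ofReal_ofNat,
    ENNReal.mul_div_cancel (by norm_num) (by norm_num)]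

end Pool.Agent.MP_fe3998_an.PR
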