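import Pool.Agent.MP_fe3998_an.PR.Spec

/-!
The sum of the products of the pieces of light, pairwise disjoint groups.
-/

set_option autoImplicit false

namespace Pool.Agent.MP_fe3998_an.PR

open Finset Polynomial

namespace NEAR2

theorem pol_mul (N : ℕ) (J : Finset ℕ) (hJ : J ⊆ range N) (f f' : ℕ → ℕ → ℂ) :
    pol J (range N) id id f * pol J (range N) id id f' =
      pol (range N ×ˢ range N) (range N ×ˢ range N) (fun i => i.1 + i.2) (fun k => k.1 + k.2)
        fun i k => if i.1 ∈ J ∧ i.2 ∈ J then f i.1 k.1 * f' i.2 k.2 else 0 := by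
  unfold pol
  rw [Finset.sum_mul_sum, Finset.sum_product]
  symm
  rw [← Finset.sum_subset hJ]
  · refine sum_congr rfl fun m hm => ?_
    rw [← Finset.sum_subset hJ]
    · refine sum_congr rfl fun m' hm' => ?_
      rw [Finset.sum_mul_sum, Finset.sum_product]
      refine sum_congr rfl fun k _ => sum_congr rfl fun k' _ => ?_
      have e : m + m' + (k + k') = id m + id k + (id m' + id k') := by
        simp only [id]
        omega
      rw [monomial_mul_monomial, ← e]
      simp only [hm, hm', and_self, if_true]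
    · intro m' _ h
      simp [h]
  · intro m _ h
    simp [h]

theorem pol_sum {ι κ : Type} (s : Finset ι) (t : Finset κ) (ρ : ι → ℕ) (σ : κ → ℕ)
    (G : Finset ℕ) (F : ℕ → ι → κ → ℂ) :
    ∑ g ∈ G, pol s t ρ σ (F g) = pol s t ρ σ fun i k => ∑ g ∈ G, F g i k := by
  unfold pol
  rw [Finset.sum_comm]
  refine sum_congr rfl fun i _ => ?_
  rw [Finset.sum_comm]
  refine sum_congr rfl fun k _ => ?_
  rw [map_sum]

theorem exists_lab (G : Finset ℕ) (J : ℕ → Finset ℕ)
    (h : ∀ g ∈ G, ∀ g' ∈ G, g ≠ g' → Disjoint (J g) (J g')) :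
    ∃ lab : ℕ → ℕ, ∀ g ∈ G, ∀ m ∈ J g, lab m = g := by
  have k : ∀ m, ∃ l, ∀ g ∈ G, m ∈ J g → l = g := by
    intro m
    by_cases k : ∃ g ∈ G, m ∈ J g
    · obtain ⟨g, g1, g2⟩ := k
      refine ⟨g, fun g' h1 h2 => ?_⟩
      by_contra ne
      exact Finset.disjoint_left.1 (h g g1 g' h1 ne) g2 h2
    · exact ⟨0, fun g h1 h2 => (k ⟨g, h1, h2⟩).elim⟩
  choose lab hl using k
  exact ⟨lab, fun g h1 m h2 => hl m g h1 h2⟩

theorem sum_lab (G : Finset ℕ) (J : ℕ → Finset ℕ) (lab : ℕ → ℕ)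
    (hl : ∀ g ∈ G, ∀ m ∈ J g, lab m = g) (m m' : ℕ) (F : ℕ → ℂ) :
    ∑ g ∈ G, (if m ∈ J g ∧ m' ∈ J g then F g else 0) =
      if lab m ∈ G ∧ m ∈ J (lab m) ∧ m' ∈ J (lab m) then F (lab m) else 0 := by
  by_cases k : lab m ∈ G
  · rw [Finset.sum_eq_single_of_mem (lab m) k
      fun g h1 h2 => if_neg fun l => h2 (hl g h1 m l.1).symm]
    simp only [k, true_and]
  · rw [if_neg fun l : lab m ∈ G ∧ _ => k l.1]
    refine Finset.sum_eq_zero fun g h1 => if_neg fun l => k ?_
    rw [hl g h1 m l.1]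
    exact h1

theorem swap {E : Type} (h : Finset E) (s : Finset ℕ) (F : ℕ → ℕ → ℕ → ℕ → E → E → ℂ) :
    ∑ i ∈ s ×ˢ s, ∑ k ∈ s ×ˢ s, ∑ e ∈ h ×ˢ h, F i.1 i.2 k.1 k.2 e.1 e.2 =
      ∑ e ∈ h ×ˢ h, ∑ m ∈ s, ∑ m' ∈ s, ∑ k ∈ s, ∑ k' ∈ s, F m m' k k' e.1 e.2 := by
  rw [Finset.sum_congr rfl fun i _ => Finset.sum_comm, Finset.sum_comm]
  refine sum_congr rfl fun e _ => ?_
  rw [Finset.sum_product]
  refine sum_congr rfl fun m _ => sum_congr rfl fun m' _ => ?_
  rw [Finset.sum_product]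

end NEAR2

open NEAR2 in
theorem near2 (hN : S_NEAR) (hD : S_DEC) (hP : S_PUSH) : S_NEAR2 := by
  classical
  intro a N G w u u' K K' η ha hK hK' hη hu hu' hw hd hm
  obtain ⟨lab, hl⟩ := exists_lab G (JJ a N) hd
  obtain ⟨E, h, ε, ρ, χ, e1, e2, e3, e4⟩ := hD a (a (G.sup id)) ha
  have hJ : ∀ g, JJ a N g ⊆ range N := fun g => Finset.filter_subset _ _
  unfold piece
  rw [Finset.sum_congr rfl fun g _ => pol_mul N (JJ a N g) (hJ g) _ _, pol_sum]
  refine hP _ _ _ _ _ _ _ _ fun x y hx hy => ?_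
  let c : ℕ → ℕ → Prop := fun m m' =>
    lab m ∈ G ∧ m ∈ JJ a N (lab m) ∧ m' ∈ JJ a N (lab m)
  let X : E → E → ℕ → ℕ → ℂ := fun e e' m m' =>
    if c m m' then w m * w m' * (ρ e (lab m) m * ρ e' (lab m') m' * x (m + m')) else 0
  let Y : ℕ → ℕ → ℂ := fun k k' => w k * w k' * y (k + k')
  have hc : ∀ m m', c m m' → lab m' = lab m := fun m m' k => hl _ k.1 _ k.2.2
  have key : ∀ m m' k k' : ℕ, (∑ g ∈ G, if m ∈ JJ a N g ∧ m' ∈ JJ a N g then
      (w m : ℂ) * (u m k * beta a g m k) * (w k : ℂ) *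
        ((w m' : ℂ) * (u' m' k' * beta a g m' k') * (w k' : ℂ)) else 0) *
          x (m + m') * y (k + k') =
      ∑ e ∈ h ×ˢ h, (ε e.1 : ℂ) * ε e.2 * ((u m k * if χ e.1 (lab m) k then 1 else 0) *
        (u' m' k' * if χ e.2 (lab m') k' then 1 else 0) * X e.1 e.2 m m' * Y k k') := by
    intro m m' k k'
    rw [sum_lab G (JJ a N) lab hl]
    by_cases hk : c m m'
    · have hT : a (lab m) ≤ a (G.sup id) := ha (Finset.le_sup (f := id) hk.1)
      rw [if_pos hk, e4 _ m k hT, e4 _ m' k' hT, Finset.sum_product]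
      simp only [X, Y, if_pos hk, hc m m' hk]
      calc _ = (w m : ℂ) * u m k * w k * (w m' * u' m' k' * w k') * x (m + m') * y (k + k') *
            ((∑ e ∈ h, (ε e : ℂ) * ρ e (lab m) m * if χ e (lab m) k then 1 else 0) *
              ∑ e ∈ h, (ε e : ℂ) * ρ e (lab m) m' * if χ e (lab m) k' then 1 else 0) := by ring
        _ = _ := by
          rw [Finset.sum_mul_sum, Finset.mul_sum]
          refine sum_congr rfl fun e _ => ?_
          rw [Finset.mul_sum]
          exact sum_congr rfl fun e' _ => by ring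
    · rw [if_neg hk]
      simp only [X, if_neg hk, mul_zero, zero_mul, Finset.sum_const_zero]
  have hX : ∀ e e', ∑ m ∈ range N, ∑ m' ∈ range N, ‖X e e' m m'‖ ^ 2 ≤ η := by
    intro e e'
    have h1 : ∀ m m', ‖X e e' m m'‖ ^ 2 ≤ w m ^ 2 * if c m m' then w m' ^ 2 else 0 := by
      intro m m'
      by_cases hk : c m m'
      · simp only [X, if_pos hk]
        have h2 : ‖ρ e (lab m) m * ρ e' (lab m') m' * x (m + m')‖ ≤ 1 := by
          rw [norm_mul, norm_mul]
          exact mul_le_one₀ (mul_le_one₀ (e2 _ _ _) (norm_nonneg _) (e2 _ _ _)) (norm_nonneg _)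
            (hx _)
        rw [norm_mul, mul_pow, norm_mul, mul_pow, Complex.norm_real, Complex.norm_real,
          Real.norm_eq_abs, Real.norm_eq_abs, sq_abs, sq_abs]
        exact mul_le_of_le_one_right (by positivity) (pow_le_one₀ (norm_nonneg _) h2)
      · simp [X, if_neg hk]
    have h2 : ∀ m, (∑ m' ∈ range N, if c m m' then w m' ^ 2 else 0) ≤ η := by
      intro m
      by_cases hk : lab m ∈ G
      · refine le_trans ?_ (hm _ hk)
        rw [← Finset.sum_filter]
        exact Finset.sum_le_sum_of_subset_of_nonneg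
          (fun m' l => (Finset.mem_filter.1 l).2.2.2) fun _ _ _ => sq_nonneg _
      · rw [Finset.sum_eq_zero fun m' _ => if_neg fun l : c m m' => hk l.1]
        exact hη
    calc _ ≤ ∑ m ∈ range N, w m ^ 2 * η := by
          refine Finset.sum_le_sum fun m _ => (Finset.sum_le_sum fun m' _ => h1 m m').trans ?_
          rw [← Finset.mul_sum]
          exact mul_le_mul_of_nonneg_left (h2 m) (sq_nonneg _)
      _ ≤ η := by
          rw [← Finset.sum_mul]
          exact mul_le_of_le_one_left hη hw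
  have hY : ∑ k ∈ range N, ∑ k' ∈ range N, ‖Y k k'‖ ^ 2 ≤ 1 := by
    calc _ ≤ ∑ k ∈ range N, ∑ k' ∈ range N, w k ^ 2 * w k' ^ 2 := by
          refine Finset.sum_le_sum fun k _ => Finset.sum_le_sum fun k' _ => ?_
          simp only [Y]
          rw [norm_mul, mul_pow, norm_mul, mul_pow, Complex.norm_real, Complex.norm_real,
            Real.norm_eq_abs, Real.norm_eq_abs, sq_abs, sq_abs]
          exact mul_le_of_le_one_right (by positivity) (pow_le_one₀ (norm_nonneg _) (hy _))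
      _ ≤ 1 := by
          rw [← Finset.sum_mul_sum]
          exact mul_le_one₀ hw (Finset.sum_nonneg fun _ _ => sq_nonneg _) hw
  have hS : ∀ e e', ‖∑ m ∈ range N, ∑ m' ∈ range N, ∑ k ∈ range N, ∑ k' ∈ range N,
      (u m k * if χ e (lab m) k then 1 else 0) * (u' m' k' * if χ e' (lab m') k' then 1 else 0) *
        X e e' m m' * Y k k'‖ ≤ 2 * K * K' * √η := by
    intro e e'
    refine (hN N u u' K K' lab (χ e) (χ e') (X e e') Y hK hK' hu hu' (e3 e) (e3 e')
      fun m m' ne => if_neg fun l => ne (hc m m' l).symm).trans ?_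
    calc _ ≤ 2 * K * K' * √η * √1 := by gcongr; exact hX e e'
      _ = _ := by rw [Real.sqrt_one, mul_one]
  rw [Finset.sum_congr rfl fun i _ => Finset.sum_congr rfl fun k _ => key i.1 i.2 k.1 k.2,
    swap h (range N) fun m m' k k' e e' => (ε e : ℂ) * ε e' *
      ((u m k * if χ e (lab m) k then 1 else 0) *
        (u' m' k' * if χ e' (lab m') k' then 1 else 0) * X e e' m m' * Y k k')]
  simp only [← Finset.mul_sum]
  have h0 : 0 ≤ ∑ e ∈ h, |ε e| := Finset.sum_nonneg fun _ _ => abs_nonneg _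
  calc _ ≤ ∑ e ∈ h ×ˢ h, |ε e.1| * |ε e.2| * (2 * K * K' * √η) := by
        refine (norm_sum_le _ _).trans (Finset.sum_le_sum fun e _ => ?_)
        rw [norm_mul, norm_mul, Complex.norm_real, Complex.norm_real, Real.norm_eq_abs,
          Real.norm_eq_abs]
        exact mul_le_mul_of_nonneg_left (hS e.1 e.2) (by positivity)
    _ = (∑ e ∈ h, |ε e|) * (∑ e ∈ h, |ε e|) * (2 * K * K' * √η) := by
        rw [← Finset.sum_mul, Finset.sum_mul_sum, Finset.sum_product]
    _ ≤ 80 * 80 * (2 * K * K' * √η) := by gcongr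
    _ = _ := by ring

end Pool.Agent.MP_fe3998_an.PR
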