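import Pool.Agent.MP_fe3998_an.PR.Spec

/-! The upper bound: limit in the norms and choice of the parameter. -/

set_option autoImplicit false

namespace Pool.Agent.MP_fe3998_an.PR

open Finset Filter Topology
open scoped ENNReal NNReal

namespace UP

theorem injB (γ : ℕ → ℕ → ℂ) (h : injNorm γ ≠ ∞) (N : ℕ) :
    InjB (range N) (range N) γ (injNorm γ).toReal := by
  intro x y hx hy
  have h1 : ‖∑ m ∈ range N, ∑ k ∈ range N, γ m k * x m * y k‖ₑ ≤ injNorm γ :=
    le_iSup_of_le N (le_iSup_of_le x (le_iSup_of_le y (le_iSup_of_le hx (le_iSup_of_le hy le_rfl))))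
  have h2 := ENNReal.toReal_mono h h1
  rwa [toReal_enorm] at h2

theorem lim (X : ℝ≥0∞) (C r A B a b : ℝ)
    (h : ∀ A' B', A < A' → B < B' →
      X ≤ ENNReal.ofReal (C * (r * (A' * b + a * B') + A' * B' / r))) :
    X ≤ ENNReal.ofReal (C * (r * (A * b + a * B) + A * B / r)) := by
  have hc : Continuous fun e : ℝ =>
      ENNReal.ofReal (C * (r * ((A + e) * b + a * (B + e)) + (A + e) * (B + e) / r)) :=
    ENNReal.continuous_ofReal.comp (by fun_prop)
  have h1 := (hc.tendsto 0).mono_left (nhdsWithin_le_nhds (s := Set.Ioi 0))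
  simp only [add_zero] at h1
  refine ge_of_tendsto h1 ?_
  filter_upwards [self_mem_nhdsWithin] with e he
  have he0 : 0 < e := he
  exact h _ _ (by linarith) (by linarith)

theorem opt (x C s t : ℝ) (hx : 0 ≤ x) (hs : 0 ≤ s) (hst : s ≤ 2 * t)
    (h : ∀ R : ℕ, 1 ≤ R → x ≤ C * (√R * s + t / √R)) : x ^ 2 ≤ 9 * C ^ 2 * t * s := by
  have ht : 0 ≤ t := by linarith
  rcases hs.eq_or_lt with rfl | hs0
  · rcases hx.eq_or_lt with rfl | hx0
    · simp
    · exfalso
      obtain ⟨R, hR⟩ := exists_nat_gt ((C * t / x) ^ 2)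
      have hR0 : (0 : ℝ) < R := lt_of_le_of_lt (sq_nonneg _) hR
      have h1 := h R (by exact_mod_cast hR0)
      have h2 : C * t / x < √R := Real.lt_sqrt_of_sq_lt hR
      have h3 : 0 < √(R : ℝ) := Real.sqrt_pos.2 hR0
      rw [mul_zero, zero_add, ← mul_div_assoc, le_div_iff₀ h3] at h1
      rw [div_lt_iff₀ hx0] at h2
      linarith
  · have ht0 : 0 < t := by linarith
    have hq : 0 < t / s := div_pos ht0 hs0
    have hR1 : 1 ≤ ⌈t / s⌉₊ := Nat.ceil_pos.2 hq
    have h1 := h _ hR1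
    have h2 : t / s ≤ ⌈t / s⌉₊ := Nat.le_ceil _
    have h3 : (⌈t / s⌉₊ : ℝ) < t / s + 1 := Nat.ceil_lt_add_one hq.le
    generalize (⌈t / s⌉₊ : ℝ) = R at h1 h2 h3
    have hR0 : 0 < R := lt_of_lt_of_le hq h2
    have hr0 : 0 < √R := Real.sqrt_pos.2 hR0
    have hr : √R ^ 2 = R := Real.sq_sqrt hR0.le
    have h4 : t ≤ R * s := (div_le_iff₀ hs0).1 h2
    have h5 : R * s ≤ 3 * t := by
      have h6 := mul_le_mul_of_nonneg_right h3.le hs
      rw [add_mul, div_mul_cancel₀ _ hs0.ne'] at h6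
      linarith
    have h6 : (√R * s + t / √R) ^ 2 = R * s * s + 2 * (t * s) + t * (t / R) := by
      generalize √R = r at hr0 hr
      subst hr
      field_simp
      ring
    have h7 : t / R ≤ s := by
      rw [div_le_iff₀ hR0]
      linarith
    have h8 := mul_le_mul_of_nonneg_right h5 hs
    have h9 := mul_le_mul_of_nonneg_left h7 ht
    have h10 := mul_nonneg ht hs
    calc x ^ 2 ≤ (C * (√R * s + t / √R)) ^ 2 := pow_le_pow_left₀ hx h1 2
      _ = C ^ 2 * (√R * s + t / √R) ^ 2 := mul_pow _ _ _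
      _ ≤ C ^ 2 * (9 * (t * s)) := mul_le_mul_of_nonneg_left (by rw [h6]; linarith) (sq_nonneg C)
      _ = _ := by ring

end UP

theorem supNorm_le_xNorm (hS : S_SUP) (φ : PowerSeries ℂ) : supNorm φ ≤ xNorm φ := by
  refine le_iInf fun γ => le_iInf fun _ => le_iInf fun hc => ?_
  rcases eq_or_ne (injNorm γ) ∞ with h | h
  · rw [h]
    exact le_top
  · refine iSup_le fun z => iSup_le fun hz => ?_
    have h1 := (hS γ _ (UP.injB γ h) z hz).2
    simp only [← hc] at h1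
    rw [← ofReal_norm, ← ENNReal.ofReal_toReal h]
    exact ENNReal.ofReal_le_ofReal h1

theorem up (hL : S_LIM) (hS : S_SUP) : S_UP := by
  obtain ⟨C, hC, hL⟩ := hL
  obtain ⟨K, hK⟩ : ∃ K : ℝ≥0, (K : ℝ) = 9 * C ^ 2 := ⟨⟨9 * C ^ 2, by positivity⟩, rfl⟩
  refine ⟨K, fun φ ψ hφ hψ => ?_⟩
  have h1 := supNorm_le_xNorm hS φ
  have h2 := supNorm_le_xNorm hS ψ
  have h3 : ∀ R : ℕ, 1 ≤ R → xNorm (φ * ψ) ≤ ENNReal.ofReal (C * (√R *
      ((xNorm φ).toReal * (supNorm ψ).toReal + (supNorm φ).toReal * (xNorm ψ).toReal) +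
        (xNorm φ).toReal * (xNorm ψ).toReal / √R)) := fun R hR =>
    UP.lim _ _ _ _ _ _ _ fun A' B' hA hB =>
      hL R φ ψ A' B' _ _ hR ENNReal.toReal_nonneg ENNReal.toReal_nonneg
        ((ENNReal.lt_ofReal_iff_toReal_lt hφ).2 hA) ((ENNReal.lt_ofReal_iff_toReal_lt hψ).2 hB)
        (ENNReal.ofReal_toReal (ne_top_of_le_ne_top hφ h1)).ge
        (ENNReal.ofReal_toReal (ne_top_of_le_ne_top hψ h2)).ge
  have h4 : xNorm (φ * ψ) ≠ ∞ := ne_top_of_le_ne_top ENNReal.ofReal_ne_top (h3 1 le_rfl)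
  lift supNorm φ to ℝ≥0 using ne_top_of_le_ne_top hφ h1 with a
  lift supNorm ψ to ℝ≥0 using ne_top_of_le_ne_top hψ h2 with b
  lift xNorm φ to ℝ≥0 using hφ with A
  lift xNorm ψ to ℝ≥0 using hψ with B
  lift xNorm (φ * ψ) to ℝ≥0 using h4 with x
  simp only [ENNReal.coe_toReal] at h3
  have ha : (a : ℝ) ≤ A := by exact_mod_cast h1
  have hb : (b : ℝ) ≤ B := by exact_mod_cast h2
  have e1 := mul_le_mul_of_nonneg_left hb A.coe_nonneg
  have e2 := mul_le_mul_of_nonneg_right ha B.coe_nonneg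
  have h5 := UP.opt x C (A * b + a * B) (A * B) x.coe_nonneg (by positivity) (by linarith)
    fun R hR => by
      have h6 := h3 R hR
      rwa [← ENNReal.ofReal_coe_nnreal, ENNReal.ofReal_le_ofReal_iff (by positivity)] at h6
  have h7 : x ^ 2 ≤ K * A * B * (A * b + a * B) := by
    rw [← NNReal.coe_le_coe]
    push_cast
    rw [hK]
    exact h5.trans (le_of_eq (by ring))
  exact_mod_cast h7

end Pool.Agent.MP_fe3998_an.PR
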