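import Pool.Agent.MP_fe3998_an.PR.Spec

/-! The difference of two consecutive means is the piece of the group. -/

set_option autoImplicit false

namespace Pool.Agent.MP_fe3998_an.PR

open Finset Polynomial

namespace W

theorem vv_zero {D n : ℕ} (h : 9 * D ≤ n) : vv D n = 0 := by
  rw [vv, Nat.sub_eq_zero_of_le h, Nat.min_zero, Nat.cast_zero, zero_div]

theorem vv_one {D n : ℕ} (hD : 0 < D) (h : n ≤ 8 * D) : vv D n = 1 := by
  rw [vv, min_eq_left (by omega), div_self (by exact_mod_cast hD.ne')]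

theorem ww_ne {a : ℕ → ℕ} (ha : Monotone a) {g n : ℕ} (h : ww a g n ≠ 0) :
    2 * LL a g ≤ n ∧ n < 9 * 4 ^ a g := by
  cases g with
  | zero => exact ⟨Nat.zero_le _, not_le.1 fun h1 => h (vv_zero h1)⟩
  | succ g =>
    have h1 : 4 ^ a g ≤ 4 ^ a (g + 1) := Nat.pow_le_pow_right (by norm_num) (ha g.le_succ)
    refine ⟨not_lt.1 fun h2 => h ?_, not_le.1 fun h2 => h ?_⟩
    · rw [LL] at h2
      rw [ww, vv_one (by positivity) (by omega), vv_one (by positivity) (by omega), sub_self]
    · rw [ww, vv_zero h2, vv_zero (by omega), sub_self]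

theorem coeff_diff (a : ℕ → ℕ) (g : ℕ) (P : ℂ[X]) (n : ℕ) :
    (VV (4 ^ a g) P - prevV a g P).coeff n = (ww a g n : ℂ) * P.coeff n := by
  cases g with
  | zero => rw [prevV, sub_zero, coeff_VV, ww]
  | succ g => rw [prevV, coeff_sub, coeff_VV, coeff_VV, ww, Complex.ofReal_sub, sub_mul]

theorem diff_eq (a : ℕ → ℕ) (g N : ℕ) (γ : ℕ → ℕ → ℂ) :
    VV (4 ^ a g) (pol (range N) (range N) id id γ) - prevV a g (pol (range N) (range N) id id γ) =
      ∑ m ∈ range N, ∑ k ∈ range N, monomial (m + k) (γ m k * (ww a g (m + k) : ℂ)) := by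
  ext n
  rw [coeff_diff]
  simp only [pol, finsetSum_coeff, coeff_monomial, id, mul_sum]
  refine sum_congr rfl fun m _ => sum_congr rfl fun k _ => ?_
  split_ifs with h
  · rw [h, mul_comm]
  · rw [mul_zero]

end W

open W in
theorem wid : S_W := by
  intro a N g w u ha hu
  rw [diff_eq]
  set F : ℕ → ℕ → ℂ[X] := fun m k =>
    monomial (m + k) ((w m : ℂ) * u m k * (w k : ℂ) * (ww a g (m + k) : ℂ)) with hF
  have hs : ∀ m k, F m k = F k m := fun m k => by
    simp only [hF, hu m k, add_comm m k]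
    congr 1
    ring
  have h1 : ∀ m k, F m k = (if LL a g ≤ m ∧ m < 9 * 4 ^ a g then F m k else 0) +
      if LL a g ≤ k ∧ k < 9 * 4 ^ a g then (if m < LL a g then F k m else 0) else 0 := by
    intro m k
    rw [← hs m k]
    by_cases h : ww a g (m + k) = 0
    · simp [hF, h]
    · obtain ⟨h2, h3⟩ := ww_ne ha h
      by_cases h4 : m < LL a g
      · rw [if_neg (by omega), if_pos (by omega), if_pos h4, zero_add]
      · rw [if_pos (by omega), if_neg h4, ite_self, add_zero]
  have h2 : piece a N w u g = ∑ m ∈ JJ a N g, ∑ k ∈ range N, F m k +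
      ∑ m ∈ JJ a N g, ∑ k ∈ range N, if k < LL a g then F m k else 0 := by
    rw [← sum_add_distrib, piece, pol]
    refine sum_congr rfl fun m _ => ?_
    rw [← sum_add_distrib]
    refine sum_congr rfl fun k _ => ?_
    simp only [hF, beta, id]
    split_ifs
    · rw [← map_add]
      congr 1
      ring
    · rw [add_zero, add_zero]
      congr 1
      ring
  change ∑ m ∈ range N, ∑ k ∈ range N, F m k = _
  rw [h2, sum_congr rfl fun m _ => sum_congr rfl fun k _ => h1 m k]
  simp only [sum_add_distrib, JJ, sum_filter]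
  congr 1
  · exact sum_congr rfl fun m _ => by split_ifs <;> simp
  · rw [sum_comm]
    exact sum_congr rfl fun m _ => by split_ifs <;> simp

theorem disj : S_DISJ := by
  intro a N g g' ha h
  obtain ⟨j, rfl⟩ : ∃ j, g' = j + 1 := ⟨g' - 1, by omega⟩
  have h1 : 4 ^ (a g + 1) ≤ 4 ^ a j := Nat.pow_le_pow_right (by norm_num) (ha (by omega))
  refine disjoint_left.2 fun m hm hm' => ?_
  have h2 := (mem_filter.1 hm).2.2
  have h3 := (mem_filter.1 hm').2.1
  rw [LL] at h3
  rw [pow_succ] at h1
  omega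

end Pool.Agent.MP_fe3998_an.PR
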