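import Pool.Agent.MP_fe3998_an.PR.GT
import Pool.Agent.MP_fe3998_an.PR.FAC
import Pool.Agent.MP_fe3998_an.PR.NS
import Pool.Agent.MP_fe3998_an.PR.LB
import Pool.Agent.MP_fe3998_an.PR.OPS
import Pool.Agent.MP_fe3998_an.PR.PC
import Pool.Agent.MP_fe3998_an.PR.FAR
import Pool.Agent.MP_fe3998_an.PR.DEC
import Pool.Agent.MP_fe3998_an.PR.W
import Pool.Agent.MP_fe3998_an.PR.GRP
import Pool.Agent.MP_fe3998_an.PR.NEAR2
import Pool.Agent.MP_fe3998_an.PR.FIN
import Pool.Agent.MP_fe3998_an.PR.CONV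
import Pool.Agent.MP_fe3998_an.PR.SUP
import Pool.Agent.MP_fe3998_an.PR.LIM
import Pool.Agent.MP_fe3998_an.PR.UP
import Pool.Agent.MP_fe3998_an.PR.LOWA
import Pool.Agent.MP_fe3998_an.PR.PAIR
import Pool.Agent.MP_fe3998_an.PR.REG
import Pool.Agent.MP_fe3998_an.PR.CNT
import Pool.Agent.MP_fe3998_an.PR.LOW

/-!
The two halves of the sharp product estimate.
-/

set_option autoImplicit false

namespace Pool.Agent.MP_fe3998_an.PR

theorem upper : S_UP :=
  up (lim (fin (sym_fac (fac gt)) (far lb tens push) (opb dec) wid grp disj (near2 near dec push))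
    (cnv (norm_fac (fac gt)) tens) sup_le coef) sup_le

theorem lower : S_LOW := low (lowa push) pair (reg gt) cnt

end Pool.Agent.MP_fe3998_an.PR
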